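import Pool.Agent.Xtr.Ga

set_option autoImplicit false

namespace Pool.Agent.Xtr

open scoped BigOperators

variable {K : Type*} [Field K] {Γ : Type*} [LinearOrderedCommGroupWithZero Γ]
  {D : Type*} [LinearOrderedCommGroupWithZero D] {L : Type*} [Field L] [Algebra K L]

/- MODULE fa -/
/-- Module fa. Every nonzero value of `w` is a value of `v`. PROOF. `himm y` gives `x` with
`w (y - x) < w y`, so `w x = w y`. -/
theorem Imm.val {v : Valuation K Γ} {w : Valuation L Γ}
    (hvw : ∀ a : K, w (algebraMap K L a) = v a) (himm : Imm K w) (y : L) :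
    ∃ x : K, v x = w y := by
  rcases eq_or_ne y 0 with h | h
  · exact ⟨0, by rw [h, map_zero, map_zero]⟩
  · obtain ⟨x, hx⟩ := himm y h
    refine ⟨x, ?_⟩
    rw [← hvw x]
    have h1 : algebraMap K L x = y - (y - algebraMap K L x) := by ring
    rw [h1]
    exact Valuation.map_sub_eq_of_lt_left w hx

/-- Module fa. Approximation with a uniformizer. PROOF. Induction on `J`; `J = 0`: `x = 0`.
Step: if `y = x` done; otherwise `himm (y - x)` gives `x'` with `w (y - x - x') < w (y - x)
≤ v pi ^ J`; by `Imm.val` this value is `v a`, `v (a / pi ^ J) < 1`, so `≤ v pi`. -/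
theorem Imm.apx {v : Valuation K Γ} {w : Valuation L Γ}
    (hvw : ∀ a : K, w (algebraMap K L a) = v a) (himm : Imm K w) (pi : K) (h0 : pi ≠ 0)
    (hpi : v pi < 1) (hmax : ∀ a : K, v a < 1 → v a ≤ v pi) (y : L) (hy : w y ≤ 1) (J : ℕ) :
    ∃ x : K, v x ≤ 1 ∧ w (y - algebraMap K L x) ≤ v pi ^ J := by
  induction J with
  | zero =>
    refine ⟨0, by rw [map_zero]; exact zero_le, ?_⟩
    rw [map_zero, sub_zero, pow_zero]
    exact hy
  | succ J ih =>
    obtain ⟨x, hx, hxy⟩ := ih
    by_cases h : y - algebraMap K L x = 0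
    · exact ⟨x, hx, by rw [h, map_zero]; exact zero_le⟩
    · obtain ⟨x', hx'⟩ := himm _ h
      have h1 : y - algebraMap K L (x + x') = y - algebraMap K L x - algebraMap K L x' := by
        rw [map_add]; ring
      have hp0 : v pi ≠ 0 := (Valuation.ne_zero_iff v).2 h0
      obtain ⟨a, ha⟩ := Imm.val hvw himm (y - algebraMap K L (x + x'))
      have h2 : v a < v pi ^ J := by
        rw [ha, h1]
        exact hx'.trans_le hxy
      have h3 : v (a / pi ^ J) < 1 := by
        rw [map_div₀, map_pow]
        exact (div_lt_one₀ (pow_pos (zero_lt_iff.2 hp0) J)).2 h2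
      have h4 := hmax _ h3
      rw [map_div₀, map_pow, div_le_iff₀ (pow_pos (zero_lt_iff.2 hp0) J)] at h4
      have h5 : w (y - algebraMap K L (x + x')) ≤ v pi ^ (J + 1) := by
        rw [← ha, pow_succ, mul_comm]
        exact h4
      refine ⟨x + x', ?_, h5⟩
      have h6 : v (x + x') = w (algebraMap K L (x + x')) := (hvw _).symm
      have h7 : algebraMap K L (x + x') = y - (y - algebraMap K L (x + x')) := by ring
      rw [h6, h7]
      refine (Valuation.map_sub w _ _).trans (max_le hy (h5.trans ?_))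
      exact pow_le_one₀ zero_le hpi.le
/- END fa -/

/- MODULE fb -/
/-- Module fb. The case `om = v`. PROOF. For every `i` choose `z' i` with
`w (z i - z' i) < w (z i) = 1`, so `v (z' i) = 1`. Let `e < 1` be an upper bound of these values
(`n = 0`: `e = 0`), `C = v (eval z' F) ≥ 1`; `evb` gives
`w (aeval z F - algebraMap (eval z' F)) ≤ C * e < C`, so `w (aeval z F) = C`. -/
theorem finD {v : Valuation K Γ} {w : Valuation L Γ}
    (hvw : ∀ a : K, w (algebraMap K L a) = v a) (himm : Imm K w) : FinP v v w := by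
  intro n F z hz hF
  have hch : ∀ i, ∃ x : K, w (z i - algebraMap K L x) < w (z i) := fun i => by
    refine himm (z i) ?_
    intro h
    have := hz i
    rw [h, map_zero] at this
    exact zero_ne_one this
  choose z' hz' using hch
  have hz1 : ∀ i, v (z' i) = 1 := by
    intro i
    rw [← hvw, ← hz i]
    have h1 : algebraMap K L (z' i) = z i - (z i - algebraMap K L (z' i)) := by ring
    rw [h1]
    exact Valuation.map_sub_eq_of_lt_left w (hz' i)
  obtain ⟨h1, h2⟩ := hF z' hz1
  -- the bound e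
  obtain ⟨e, he1, he⟩ : ∃ e : Γ, e < 1 ∧ ∀ i, w (z i - algebraMap K L (z' i)) ≤ e := by
    refine ⟨Finset.univ.sup (fun i => w (z i - algebraMap K L (z' i))), ?_, fun i =>
      Finset.le_sup (f := fun i => w (z i - algebraMap K L (z' i))) (Finset.mem_univ i)⟩
    rw [Finset.sup_lt_iff (by rw [bot_eq_zero]; exact zero_lt_one)]
    intro i _
    rw [← hz i]
    exact hz' i
  have h3 := evb w hvw F (v (MvPolynomial.eval z' F)) e h2 he1.le z (fun i => algebraMap K L (z' i))
    (fun i => (hz i).le) (fun i => by rw [hvw]; exact (hz1 i).le) he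
  have h4 : MvPolynomial.aeval (fun i => algebraMap K L (z' i)) F = algebraMap K L (MvPolynomial.eval z' F) := by
    have := MvPolynomial.aeval_algebraMap_apply L z' F
    rw [MvPolynomial.aeval_eq_eval] at this
    exact this
  rw [h4] at h3
  have hpos : 0 < v (MvPolynomial.eval z' F) := zero_lt_one.trans_le h1
  have h5 : w (MvPolynomial.aeval z F - algebraMap K L (MvPolynomial.eval z' F)) < v (MvPolynomial.eval z' F) := by
    refine h3.trans_lt ?_
    calc v (MvPolynomial.eval z' F) * e < v (MvPolynomial.eval z' F) * 1 := mul_lt_mul_of_pos_left he1 hpos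
      _ = _ := mul_one _
  have h6 : w (MvPolynomial.aeval z F) = v (MvPolynomial.eval z' F) := by
    rw [← hvw]
    have h7 : MvPolynomial.aeval z F = algebraMap K L (MvPolynomial.eval z' F) +
      (MvPolynomial.aeval z F - algebraMap K L (MvPolynomial.eval z' F)) := by ring
    rw [h7]
    refine Valuation.map_add_eq_of_lt_left w ?_
    rw [hvw]
    exact h5
  rw [h6]
  exact h1
/- END fb -/

/- MODULE fc -/
private theorem fc_unit {v : Valuation K Γ} {w : Valuation L Γ}
    (hvw : ∀ a : K, w (algebraMap K L a) = v a) {e : Γ} (he : e < 1) {z : L} (hz : w z = 1) {a : K}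
    (h : w (z - algebraMap K L a) ≤ e) : v a = 1 := by
  have h1 : algebraMap K L a = z + -(z - algebraMap K L a) := by ring
  rw [← hvw, h1, ← hz]
  refine w.map_add_eq_of_lt_left ?_
  rw [w.map_neg, hz]
  exact h.trans_lt he

/-- Module fc. The case of a uniformizer. PROOF. Suppose `w (aeval z F) < 1`. By `Imm.apx` choose
integral `z1` with `w (z i - z1 i) ≤ v pi`. By `Ext.min_ball` let `z*` minimise `v (eval z* F)`
over the ball of radius `v pi` around `z1`; all its coordinates have value `1`. Let `s0` be a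
multi-index with `v (coeff s0 F)` maximal, `C` this value (`F = 0` is impossible because
`1 ≤ v (eval z* F)`). `om (coeff s0 F) ≤ om (eval z* F)` gives `s` with
`C * v pi ^ s ≤ v (eval z* F)`. Choose integral `zJ` with `w (z i - zJ i) ≤ v pi ^ (s + 1)`; `zJ` is
in the ball, so `v (eval z* F) ≤ v (eval zJ F)`. By `evb`,
`v (eval zJ F) ≤ max (w (aeval z F)) (C * v pi ^ (s+1))`. The first is `< 1 ≤ v (eval zJ F)`;
so `v (eval z* F) ≤ C * v pi ^ (s+1) ≤ v (eval z* F) * v pi < v (eval z* F)`: contradiction. -/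
theorem finZ {v : Valuation K Γ} {om : Valuation K D} {w : Valuation L Γ} (hv : Ext v)
    (hvw : ∀ a : K, w (algebraMap K L a) = v a) (himm : Imm K w) (pi : K) (h0 : pi ≠ 0)
    (hpi : v pi < 1) (hmax : ∀ a : K, v a < 1 → v a ≤ v pi)
    (hom : ∀ a b : K, b ≠ 0 → om a ≤ om b → ∃ s : ℕ, v a * v pi ^ s ≤ v b) :
    FinP v om w := by
  intro n F z hz hF
  by_contra hlt
  rw [not_le] at hlt
  have hpi0 : v pi ≠ 0 := (v.ne_zero_iff).2 h0
  have hzle : ∀ i, w (z i) ≤ 1 := fun i => (hz i).le
  -- approximation to the first order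
  have hap := fun (J : ℕ) (i : Fin n) => Imm.apx hvw himm pi h0 hpi hmax (z i) (hzle i) J
  choose zz hzz1 hzz2 using hap
  obtain ⟨zs, hzs1, hzs2⟩ := Ext.min_ball hv (g := fun y => MvPolynomial.eval y F) ⟨F, fun _ => rfl⟩ (zz 1) pi h0
  have hzzu : ∀ J, 1 ≤ J → ∀ i, w (z i - algebraMap K L (zz J i)) ≤ v pi := fun J hJ i => by
    refine (hzz2 J i).trans ?_
    exact pow_le_of_le_one zero_le hpi.le (by omega)
  have hzsu : ∀ i, v (zs i) = 1 := fun i => by
    refine fc_unit hvw hpi (hz i) ?_
    have h1 : z i - algebraMap K L (zs i) = (z i - algebraMap K L (zz 1 i)) - algebraMap K L (zs i - zz 1 i) := by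
      rw [map_sub]; ring
    rw [h1]
    refine w.map_sub_le (hzzu 1 le_rfl i) ?_
    rw [hvw]
    exact hzs1 i
  obtain ⟨hs1, hs2⟩ := hF zs hzsu
  have hev0 : MvPolynomial.eval zs F ≠ 0 := fun h => by
    rw [h, map_zero] at hs1
    exact absurd hs1 (not_le.2 zero_lt_one)
  have hF0 : F.support.Nonempty := by
    rw [Finset.nonempty_iff_ne_empty]
    intro h
    rw [MvPolynomial.support_eq_empty] at h
    rw [h, map_zero] at hev0
    exact hev0 rfl
  obtain ⟨s0, hs0, hmaxs⟩ := Finset.exists_max_image F.support (fun s => v (MvPolynomial.coeff s F)) hF0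
  have hC : ∀ s, v (MvPolynomial.coeff s F) ≤ v (MvPolynomial.coeff s0 F) := fun s => by
    by_cases h : s ∈ F.support
    · exact hmaxs s h
    · rw [MvPolynomial.notMem_support_iff.1 h, map_zero]
      exact zero_le
  obtain ⟨s, hs⟩ := hom _ _ hev0 (hs2 s0)
  set C := v (MvPolynomial.coeff s0 F) with hCdef
  have hpis : v pi ^ (s + 1) ≤ 1 := pow_le_one₀ zero_le hpi.le
  have hmin := hzs2 (zz (s + 1)) (fun i => by
    have h1 : algebraMap K L (zz (s + 1) i - zz 1 i) =
        (z i - algebraMap K L (zz 1 i)) - (z i - algebraMap K L (zz (s + 1) i)) := by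
      rw [map_sub]; ring
    rw [← hvw, h1]
    exact w.map_sub_le (hzzu 1 le_rfl i) (hzzu (s + 1) (by omega) i))
  have hJ1 : 1 ≤ v (MvPolynomial.eval (zz (s + 1)) F) :=
    (hF (zz (s + 1)) fun i => fc_unit hvw hpi (hz i) (hzzu (s + 1) (by omega) i)).1
  have hae : MvPolynomial.aeval (fun i => algebraMap K L (zz (s + 1) i)) F =
      algebraMap K L (MvPolynomial.eval (zz (s + 1)) F) := by
    rw [MvPolynomial.aeval_def, MvPolynomial.eval₂_eq', MvPolynomial.eval_eq', map_sum]
    refine Finset.sum_congr rfl fun t _ => ?_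
    rw [map_mul, map_prod]
    simp only [map_pow]
  have hb := evb (v := v) w hvw F C (v pi ^ (s + 1)) hC hpis z (fun i => algebraMap K L (zz (s + 1) i)) hzle
    (fun i => by rw [hvw]; exact hzz1 _ i) (fun i => hzz2 (s + 1) i)
  rw [hae] at hb
  have h5 : v (MvPolynomial.eval (zz (s + 1)) F) ≤ C * v pi ^ (s + 1) := by
    rw [← hvw]
    by_contra h6
    rw [not_le] at h6
    have h7 : w (MvPolynomial.aeval z F) = w (algebraMap K L (MvPolynomial.eval (zz (s + 1)) F)) := by
      have h8 : MvPolynomial.aeval z F = algebraMap K L (MvPolynomial.eval (zz (s + 1)) F) +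
          (MvPolynomial.aeval z F - algebraMap K L (MvPolynomial.eval (zz (s + 1)) F)) := by ring
      rw [h8]
      exact w.map_add_eq_of_lt_left (hb.trans_lt h6)
    rw [h7, hvw] at hlt
    exact absurd hJ1 (not_le.2 hlt)
  have hE0 : 0 < v (MvPolynomial.eval zs F) := zero_lt_iff.2 ((v.ne_zero_iff).2 hev0)
  have h9 : v (MvPolynomial.eval zs F) < v (MvPolynomial.eval zs F) := by
    calc v (MvPolynomial.eval zs F) ≤ v (MvPolynomial.eval (zz (s + 1)) F) := hmin
      _ ≤ C * v pi ^ (s + 1) := h5
      _ = C * v pi ^ s * v pi := by rw [pow_succ, mul_assoc]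
      _ ≤ v (MvPolynomial.eval zs F) * v pi := mul_le_mul' hs le_rfl
      _ < v (MvPolynomial.eval zs F) * 1 := mul_lt_mul_of_pos_left hpi hE0
      _ = v (MvPolynomial.eval zs F) := mul_one _
  exact lt_irrefl _ h9
/- END fc -/

end Pool.Agent.Xtr
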