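import Pool.Agent.Xtr.Pf

set_option autoImplicit false

namespace Pool.Agent.Xtr

open scoped BigOperators

variable {K : Type*} [Field K] {Γ : Type*} [LinearOrderedCommGroupWithZero Γ]
  {D : Type*} [LinearOrderedCommGroupWithZero D]

/- MODULE aa -/
/-- Module aa. A primitive vector of least value. PROOF. For every `i` let `t i` minimise
`v (g (Fin.insertNth i 1 t))` over integral `t` (`Ext.min`, `PF.comp`). Let `i0` minimise
`v (g (Fin.insertNth i 1 (t i)))` (`Finite.exists_min`) and `e = Fin.insertNth i0 1 (t i0)`.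
For `u` integral with `v (u i) = 1`: `u = u i • Fin.insertNth i 1 (fun j => u (i.succAbove j) / u i)`
and `v (u i) = 1`. -/
theorem prim_min {v : Valuation K Γ} (hv : Ext v) {m : ℕ} (d : ℕ)
    (g : (Fin (m + 1) → K) → K) (hg : PF g) (hh : ∀ (t : K) u, g (t • u) = t ^ d * g u) :
    ∃ (i0 : Fin (m + 1)) (e : Fin (m + 1) → K), Ivec v e ∧ e i0 = 1 ∧
      ∀ u, Ivec v u → (∃ i, v (u i) = 1) → v (g e) ≤ v (g u) := by
  have h1 : ∀ i : Fin (m + 1), ∃ t : Fin m → K, Ivec v t ∧ ∀ b, Ivec v b →
      v (g (Fin.insertNth i 1 t)) ≤ v (g (Fin.insertNth i 1 b)) := by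
    intro i
    refine hv.min (hg.comp (fun t => Fin.insertNth i 1 t) ?_)
    intro j
    refine Fin.succAboveCases i ?_ ?_ j
    · simpa using PF.const (n := m) (1 : K)
    · intro k
      simpa using PF.coord (K := K) k
  choose t ht1 ht2 using h1
  obtain ⟨i0, hi0⟩ := Finite.exists_min (fun i => v (g (Fin.insertNth i 1 (t i))))
  refine ⟨i0, Fin.insertNth i0 1 (t i0), ?_, by simp, ?_⟩
  · intro j
    refine Fin.succAboveCases i0 ?_ ?_ j
    · simp
    · intro k
      simpa using ht1 i0 k
  · rintro u hu ⟨i, hi⟩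
    have hui : u i ≠ 0 := by
      intro h
      rw [h, map_zero] at hi
      exact zero_ne_one hi
    have e1 : u = u i • (Fin.insertNth i 1 (fun j => u (i.succAbove j) / u i) : Fin (m + 1) → K) := by
      funext j
      refine Fin.succAboveCases i ?_ ?_ j
      · simp
      · intro k
        simp only [Pi.smul_apply, Fin.insertNth_apply_succAbove, smul_eq_mul]
        field_simp
    calc v (g (Fin.insertNth i0 1 (t i0))) ≤ v (g (Fin.insertNth i 1 (t i))) := hi0 i
      _ ≤ v (g (Fin.insertNth i 1 (fun j => u (i.succAbove j) / u i))) := by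
          refine ht2 i _ fun j => ?_
          rw [map_div₀, hi, div_one]
          exact hu _
      _ = v (g u) := by
          conv_rhs => rw [e1]
          rw [hh, map_mul, map_pow, hi, one_pow, one_mul]
/- END aa -/

/- MODULE ab -/
/-- Module ab. PROOF. `t = 0`: `u` arbitrary and `g (0 • e) = 0 ^ d * g e`; the case `d = 0` is
excluded, so the left side is `0`. `t ≠ 0`: let `M` be the maximum of the `v (u j)`. If
`M ≤ v t`: `t • e + u = t • (e + t⁻¹ • u)` and `e + t⁻¹ • u` is integral with `i0`-coordinate `1`.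
If `v t < M = v (u j)`, `mu = u j`: `t • e + u = mu • ((t / mu) • e + mu⁻¹ • u)`, this vector is
integral and its `j`-coordinate is `(t / mu) * e j + 1`, of value `1`; so
`v (g (t • e + u)) = v mu ^ d * v (g ..) ≥ v mu ^ d * v (g e) ≥ v t ^ d * v (g e)`. -/
theorem orth {v : Valuation K Γ} {m : ℕ} (d : ℕ) (hd : 0 < d)
    (g : (Fin (m + 1) → K) → K) (hh : ∀ (t : K) u, g (t • u) = t ^ d * g u)
    (i0 : Fin (m + 1)) (e : Fin (m + 1) → K) (he : Ivec v e) (he0 : e i0 = 1)
    (hmin : ∀ u, Ivec v u → (∃ i, v (u i) = 1) → v (g e) ≤ v (g u))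
    (t : K) (ht : v t ≤ 1) (u : Fin (m + 1) → K) (hu : Ivec v u) (hu0 : u i0 = 0) :
    v (g (t • e)) ≤ v (g (t • e + u)) := by
  by_cases h0 : t = 0
  · rw [h0, hh, zero_pow hd.ne', zero_mul, map_zero]
    exact zero_le
  have hvt : v t ≠ 0 := (Valuation.ne_zero_iff v).2 h0
  obtain ⟨j, hj⟩ := Finite.exists_max (fun j => v (u j))
  rcases le_or_gt (v (u j)) (v t) with h1 | h1
  · have e1 : t • e + u = t • (e + t⁻¹ • u) := by
      rw [smul_add, smul_smul, mul_inv_cancel₀ h0, one_smul]
    rw [e1, hh, hh, map_mul, map_mul]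
    refine mul_le_mul_right (hmin _ ?_ ⟨i0, ?_⟩) _
    · intro k
      refine (v.map_add _ _).trans (max_le (he k) ?_)
      rw [Pi.smul_apply, smul_eq_mul, map_mul, map_inv₀]
      refine (mul_le_mul_right ((hj k).trans h1) _).trans ?_
      rw [inv_mul_cancel₀ hvt]
    · rw [Pi.add_apply, Pi.smul_apply, hu0, smul_zero, add_zero, he0, map_one]
  · have hmu : v (u j) ≠ 0 := (lt_of_le_of_lt zero_le h1).ne'
    have hmu0 : u j ≠ 0 := (Valuation.ne_zero_iff v).1 hmu
    set mu := u j with hmudef
    have e1 : t • e + u = mu • ((t / mu) • e + mu⁻¹ • u) := by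
      rw [smul_add, smul_smul, smul_smul, mul_inv_cancel₀ hmu0, one_smul, mul_div_cancel₀ _ hmu0]
    have hlt : v (t / mu) < 1 := by
      rw [map_div₀]
      exact (div_lt_one₀ (zero_lt_iff.2 hmu)).2 h1
    rw [e1, hh, hh, map_mul, map_mul, map_pow, map_pow]
    refine mul_le_mul' (pow_le_pow_left' h1.le d) (hmin _ ?_ ⟨j, ?_⟩)
    · intro k
      refine (v.map_add _ _).trans (max_le ?_ ?_)
      · rw [Pi.smul_apply, smul_eq_mul, map_mul]
        exact mul_le_one' hlt.le (he k)
      · rw [Pi.smul_apply, smul_eq_mul, map_mul, map_inv₀]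
        refine (mul_le_mul_right (hj k) _).trans ?_
        rw [inv_mul_cancel₀ hmu]
    · have e2 : ((t / mu) • e + mu⁻¹ • u) j = 1 + (t / mu) * e j := by
        rw [Pi.add_apply, Pi.smul_apply, Pi.smul_apply, smul_eq_mul, smul_eq_mul, ← hmudef,
          inv_mul_cancel₀ hmu0, add_comm]
      rw [e2]
      have h3 : v ((t / mu) * e j) < v (1 : K) := by
        rw [map_mul, map_one]
        exact lt_of_le_of_lt (mul_le_of_le_one_right' (he j)) hlt
      rw [v.map_add_eq_of_lt_left h3, map_one]
/- END ab -/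

/- MODULE ac -/
/-- Module ac. Existence of an adapted basis. PROOF. Induction on `m`; `m = 0`: `e` is empty
(`x` and the sum are functions on `Fin 0`). `m + 1`: `prim_min` gives `i0`, `e0`. Put
`g' w = g (Fin.insertNth i0 0 w)` (`Fin.insertNth i0 (0 : K) w`), a function of `m` variables with
the same properties; let `e'` be the basis for `g'`; put
`e = Fin.cons e0 (fun j => Fin.insertNth i0 0 (e' j))`.
Second clause: for `x` put `c0 = x i0`; `x - c0 e0` has `i0`-coordinate `0` and is integral; apply
the induction hypothesis to `fun j => x (i0.succAbove j) - c0 * e0 (i0.succAbove j)`.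
Third clause: `∑ k i • e i = k 0 • e0 + u` with `u = Fin.insertNth i0 0 (∑ j, k j.succ • e' j)`.
By `orth` and `mono`, `om (g (k 0 • e0)) ≤ 1`; then `u = (k 0 • e0 + u) + (-k 0) • e0` and the
closure property give `om (g u) ≤ 1`, and the induction hypothesis applies. -/
theorem adapt {v : Valuation K Γ} {om : Valuation K D} (hv : Ext v)
    (hmono : ∀ a b : K, v a ≤ v b → om a ≤ om b) {L : Type*} [Field L] [Algebra K L]
    (w : Valuation L Γ) (hvw : ∀ a : K, w (algebraMap K L a) = v a) (d : ℕ) (hd : 0 < d) :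
    ∀ (m : ℕ) (g : (Fin m → K) → K), PF g → (∀ (t : K) u, g (t • u) = t ^ d * g u) →
      (∀ u u', Ivec v u → Ivec v u' → om (g u) ≤ 1 → om (g u') ≤ 1 → om (g (u + u')) ≤ 1) →
      ∃ e : Fin m → Fin m → K, (∀ i, Ivec v (e i)) ∧
        (∀ x : Fin m → L, (∀ i, w (x i) ≤ 1) → ∃ c : Fin m → L, (∀ i, w (c i) ≤ 1) ∧
          ∀ j, x j = ∑ i, c i * algebraMap K L (e i j)) ∧
        (∀ k : Fin m → K, Ivec v k → om (g (∑ i, k i • e i)) ≤ 1 →
          ∀ i, om (g (k i • e i)) ≤ 1) := by
  intro m
  induction m with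
  | zero =>
    intro g _ _ _
    refine ⟨fun i => i.elim0, fun i => i.elim0, fun x _ => ⟨fun i => i.elim0, fun i => i.elim0,
      fun j => j.elim0⟩, fun k _ _ i => i.elim0⟩
  | succ m ih =>
    intro g hg hh hcl
    obtain ⟨i0, e0, he0, he01, hmin⟩ := prim_min hv d g hg hh
    have hadd : ∀ a b : Fin m → K, (Fin.insertNth i0 (0 : K) (a + b) : Fin (m + 1) → K) =
        Fin.insertNth i0 (0 : K) a + Fin.insertNth i0 (0 : K) b := by
      intro a b
      funext j
      refine Fin.succAboveCases i0 ?_ ?_ j
      · simp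
      · intro k; simp
    have hsm : ∀ (t : K) (a : Fin m → K), (Fin.insertNth i0 (0 : K) (t • a) : Fin (m + 1) → K) =
        t • Fin.insertNth i0 (0 : K) a := by
      intro t a
      funext j
      refine Fin.succAboveCases i0 ?_ ?_ j
      · simp
      · intro k; simp
    have hiv : ∀ a : Fin m → K, Ivec v a → Ivec v (Fin.insertNth i0 (0 : K) a : Fin (m + 1) → K) := by
      intro a ha j
      refine Fin.succAboveCases i0 ?_ ?_ j
      · simp
      · intro k; simpa using ha k
    have hsum : ∀ (k : Fin m → K) (e : Fin m → Fin m → K),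
        (Fin.insertNth i0 (0 : K) (∑ j, k j • e j) : Fin (m + 1) → K) =
          ∑ j, k j • (Fin.insertNth i0 (0 : K) (e j) : Fin (m + 1) → K) := by
      intro k e
      funext j
      refine Fin.succAboveCases i0 ?_ ?_ j
      · simp
      · intro l; simp
    obtain ⟨e', h1, h2, h3⟩ := ih (fun w => g (Fin.insertNth i0 (0 : K) w))
      (hg.comp (fun w => Fin.insertNth i0 (0 : K) w) (by
        intro j
        refine Fin.succAboveCases i0 ?_ ?_ j
        · simpa using PF.const (n := m) (0 : K)
        · intro k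
          simpa using PF.coord (K := K) k))
      (by
        intro t u
        rw [hsm, hh])
      (by
        intro u u' hu hu' h h'
        rw [hadd]
        exact hcl _ _ (hiv u hu) (hiv u' hu') h h')
    refine ⟨Fin.cons e0 (fun j => Fin.insertNth i0 (0 : K) (e' j)), ?_, ?_, ?_⟩
    · intro i
      refine Fin.cases ?_ ?_ i
      · exact he0
      · intro j
        exact hiv _ (h1 j)
    · intro x hx
      have hwe : ∀ j, w (algebraMap K L (e0 j)) ≤ 1 := fun j => by
        rw [hvw]; exact he0 j
      obtain ⟨c, hc, hc2⟩ := h2 (fun j => x (i0.succAbove j) - x i0 * algebraMap K L (e0 (i0.succAbove j)))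
        (fun j => (w.map_sub _ _).trans (max_le (hx _) (by
          rw [map_mul]; exact mul_le_one' (hx _) (hwe _))))
      refine ⟨Fin.cons (x i0) c, ?_, ?_⟩
      · intro i
        refine Fin.cases ?_ ?_ i
        · exact hx i0
        · intro j; exact hc j
      · intro j
        rw [Fin.sum_univ_succ]
        simp only [Fin.cons_zero, Fin.cons_succ]
        refine Fin.succAboveCases i0 ?_ ?_ j
        · simp [he01]
        · intro k
          simp only [Fin.insertNth_apply_succAbove]
          rw [← hc2 k]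
          ring
    · intro k hk hom
      have hsplit : (∑ i, k i • (Fin.cons e0 (fun j => Fin.insertNth i0 (0 : K) (e' j)) :
          Fin (m + 1) → Fin (m + 1) → K) i) =
          k 0 • e0 + Fin.insertNth i0 (0 : K) (∑ j, k j.succ • e' j) := by
        rw [Fin.sum_univ_succ, hsum]
        simp only [Fin.cons_zero, Fin.cons_succ]
      rw [hsplit] at hom
      have hu' : Ivec v (∑ j : Fin m, k j.succ • e' j) := by
        intro l
        rw [Finset.sum_apply]
        refine v.map_sum_le fun j _ => ?_
        rw [Pi.smul_apply, smul_eq_mul, map_mul]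
        exact mul_le_one' (hk _) (h1 j l)
      set u : Fin (m + 1) → K := Fin.insertNth i0 (0 : K) (∑ j, k j.succ • e' j) with hu
      have huv : Ivec v u := hiv _ hu'
      have hu0 : u i0 = 0 := by rw [hu]; simp
      have h4 : om (g (k 0 • e0)) ≤ 1 :=
        (hmono _ _ (orth d hd g hh i0 e0 he0 he01 hmin (k 0) (hk 0) u huv hu0)).trans hom
      have h5 : om (g ((-k 0) • e0)) ≤ 1 := by
        rw [hh] at h4 ⊢
        rw [neg_pow, mul_assoc, map_mul, map_pow, Valuation.map_neg, map_one, one_pow, one_mul]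
        exact h4
      have hkv : Ivec v (k 0 • e0) := fun j => by
        rw [Pi.smul_apply, smul_eq_mul, map_mul]
        exact mul_le_one' (hk 0) (he0 j)
      have hkv' : Ivec v ((-k 0) • e0) := fun j => by
        rw [neg_smul, Pi.neg_apply, Valuation.map_neg]
        exact hkv j
      have hsumv : Ivec v (k 0 • e0 + u) := fun j =>
        (v.map_add _ _).trans (max_le (hkv j) (huv j))
      have h6 : om (g u) ≤ 1 := by
        have := hcl (k 0 • e0 + u) ((-k 0) • e0) hsumv hkv' hom h5
        have e1 : k 0 • e0 + u + (-k 0) • e0 = u := by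
          rw [neg_smul]; abel
        rwa [e1] at this
      intro i
      refine Fin.cases ?_ ?_ i
      · exact h4
      · intro j
        have := h3 (fun j => k j.succ) (fun j => hk _) h6 j
        simp only [Fin.cons_succ]
        rw [hsm] at this
        exact this
/- END ac -/

end Pool.Agent.Xtr
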