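import Pool.Agent.Xtr.Gr

set_option autoImplicit false

namespace Pool.Agent.Xtr

universe u

/- MODULE ca -/
/-- Module ca. The coarsening. PROOF. `A = {x | ∃ s, v x * v pi ^ s ≤ 1}` is a valuation subring
(`A.carrier` closed under `+`: take the larger exponent; `mul`: add exponents; `x` or `x⁻¹` has
`v ≤ 1`). Take `A.valuation`; `A.valuation_le_one_iff`; for `b ≠ 0`,
`om a ≤ om b` iff `a / b ∈ A`. `pi`, `pi⁻¹ ∈ A`. -/
theorem coarse {K : Type u} [Field K] {Γ : Type*} [LinearOrderedCommGroupWithZero Γ]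
    (v : Valuation K Γ) (pi : K) (h0 : pi ≠ 0) (hpi : v pi < 1) :
    ∃ (D : Type u) (_ : LinearOrderedCommGroupWithZero D) (om : Valuation K D),
      (∀ a b : K, v a ≤ v b → om a ≤ om b) ∧ om pi = 1 ∧
        ∀ a b : K, b ≠ 0 → om a ≤ om b → ∃ s : ℕ, v a * v pi ^ s ≤ v b := by
  have hp0 : v pi ≠ 0 := (Valuation.ne_zero_iff v).2 h0
  have hple : ∀ s : ℕ, v pi ^ s ≤ 1 := fun s => pow_le_one' hpi.le s
  have hmono : ∀ (y : K) (s t : ℕ), s ≤ t → v y * v pi ^ s ≤ 1 → v y * v pi ^ t ≤ 1 := by
    intro y s t hst h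
    refine le_trans ?_ h
    exact mul_le_mul_right (pow_le_pow_right_of_le_one' hpi.le hst) _
  let A : ValuationSubring K :=
    { carrier := {x | ∃ s : ℕ, v x * v pi ^ s ≤ 1}
      mul_mem' := by
        rintro x y ⟨s, hs⟩ ⟨t, ht⟩
        refine ⟨s + t, ?_⟩
        rw [map_mul, pow_add, mul_mul_mul_comm]
        exact mul_le_one' hs ht
      one_mem' := ⟨0, by simp⟩
      add_mem' := by
        rintro x y ⟨s, hs⟩ ⟨t, ht⟩
        refine ⟨max s t, ?_⟩
        rcases le_total (v x) (v y) with h | h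
        · refine le_trans (mul_le_mul_left (le_trans (v.map_add x y) (max_le h le_rfl)) _) ?_
          exact hmono y t _ (le_max_right _ _) ht
        · refine le_trans (mul_le_mul_left (le_trans (v.map_add x y) (max_le le_rfl h)) _) ?_
          exact hmono x s _ (le_max_left _ _) hs
      zero_mem' := ⟨0, by simp⟩
      neg_mem' := by
        rintro x ⟨s, hs⟩
        exact ⟨s, by rw [Valuation.map_neg]; exact hs⟩
      mem_or_inv_mem' := by
        intro x
        by_cases hx : x = 0
        · left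
          exact ⟨0, by simp [hx]⟩
        · have hx0 : v x ≠ 0 := (Valuation.ne_zero_iff v).2 hx
          rcases le_total (v x) 1 with h | h
          · left
            exact ⟨0, by simpa using h⟩
          · right
            refine ⟨0, ?_⟩
            rw [pow_zero, mul_one, map_inv₀]
            exact inv_le_one_of_one_le₀ h }
  have hA : ∀ x : K, x ∈ A ↔ ∃ s : ℕ, v x * v pi ^ s ≤ 1 := fun x => Iff.rfl
  have hdiv : ∀ a b : K, b ≠ 0 → (A.valuation a ≤ A.valuation b ↔ a / b ∈ A) := by
    intro a b hb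
    have hb' : A.valuation b ≠ 0 := (Valuation.ne_zero_iff _).2 hb
    rw [← ValuationSubring.valuation_le_one_iff, map_div₀]
    rw [div_le_one₀ (zero_lt_iff.2 hb')]
  refine ⟨A.ValueGroup, inferInstance, A.valuation, ?_, ?_, ?_⟩
  · intro a b hab
    by_cases hb : b = 0
    · have ha : v a = 0 := by
        rw [hb, map_zero] at hab
        exact le_antisymm hab zero_le
      rw [(map_eq_zero v).1 ha, hb]
    · rw [hdiv a b hb, hA]
      refine ⟨0, ?_⟩
      rw [pow_zero, mul_one, map_div₀]
      exact div_le_one_of_le₀ hab zero_le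
  · apply le_antisymm
    · rw [ValuationSubring.valuation_le_one_iff, hA]
      exact ⟨0, by simpa using hpi.le⟩
    · have h1 : A.valuation (pi⁻¹) ≤ 1 := by
        rw [ValuationSubring.valuation_le_one_iff, hA]
        refine ⟨1, ?_⟩
        rw [map_inv₀, pow_one, inv_mul_cancel₀ hp0]
      rw [map_inv₀] at h1
      have hpi' : A.valuation pi ≠ 0 := (Valuation.ne_zero_iff _).2 h0
      exact (inv_le_one₀ (zero_lt_iff.2 hpi')).1 h1
  · intro a b hb hab
    rw [hdiv a b hb, hA] at hab
    obtain ⟨s, hs⟩ := hab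
    refine ⟨s, ?_⟩
    have hb0 : v b ≠ 0 := (Valuation.ne_zero_iff v).2 hb
    rw [map_div₀] at hs
    calc v a * v pi ^ s = v b * (v a / v b * v pi ^ s) := by
          rw [← mul_assoc, mul_div_cancel₀ _ hb0]
      _ ≤ v b * 1 := mul_le_mul_right hs _
      _ = v b := mul_one _
/- END ca -/

/- MODULE cb -/
/-- Module cb. PROOF. `dich`. First alternative: left (`Crs v v`, `finD`). Second alternative:
`coarse`, `finZ`; `div` from `v b ^ m * v pi ^ j = v a` (`v (b ^ m * pi ^ j) = v a`, and `om` of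
equal values are equal by `mono`, `om pi = 1`). -/
theorem exists_crs {K : Type u} [Field K] {Γ : Type*} [LinearOrderedCommGroupWithZero Γ]
    {L : Type*} [Field L] [Algebra K L] {v : Valuation K Γ} {w : Valuation L Γ} (hv : Ext v)
    (hvw : ∀ a : K, w (algebraMap K L a) = v a) (himm : Imm K w) :
    (Crs v v ∧ FinP v v w) ∨
      ∃ (D : Type u) (_ : LinearOrderedCommGroupWithZero D) (om : Valuation K D),
        Crs v om ∧ FinP v om w := by
  rcases dich hv with h | ⟨pi, h0, hpi, hmax, hdiv⟩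
  · left
    exact ⟨⟨fun _ _ h => h, fun a ha m hm => h a ha m hm⟩, finD hvw himm⟩
  · right
    obtain ⟨D, inst, om, hmono, hompi, hom⟩ := coarse v pi h0 hpi
    refine ⟨D, inst, om, ⟨hmono, ?_⟩, finZ hv hvw himm pi h0 hpi hmax hom⟩
    intro a ha m hm
    obtain ⟨b, j, hb, hbj⟩ := hdiv a ha m hm
    refine ⟨b, ?_⟩
    have h1 : v (b ^ m * pi ^ j) = v a := by
      rw [map_mul, map_pow, map_pow, hbj]
    have h2 : om (b ^ m * pi ^ j) = om a :=
      le_antisymm (hmono _ _ h1.le) (hmono _ _ h1.ge)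
    rw [map_mul, map_pow, map_pow, hompi, one_pow, mul_one] at h2
    exact h2
/- END cb -/

end Pool.Agent.Xtr
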