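import Pool.Agent.Xtr.Defs

set_option autoImplicit false

namespace Pool.Agent.Xtr

open scoped BigOperators

variable {K : Type*} [Field K] {n : ℕ}

/- MODULE da -/
/-- Module da. -/
theorem Cub.const (c : K) : Cub (fun _ : Fin n → K => c) :=
  ⟨c, 0, 0, 0, fun u => by simp⟩

/-- Module da. -/
theorem Cub.add {h h' : (Fin n → K) → K} (H : Cub h) (H' : Cub h') :
    Cub (fun u => h u + h' u) := by
  obtain ⟨c, l, Q, T, e⟩ := H
  obtain ⟨c', l', Q', T', e'⟩ := H'
  refine ⟨c + c', l + l', Q + Q', T + T', fun u => ?_⟩
  simp only [e, e', LinearMap.add_apply]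
  ring

/-- Module da. -/
theorem Cub.smul {h : (Fin n → K) → K} (H : Cub h) (t : K) : Cub (fun u => t * h u) := by
  obtain ⟨c, l, Q, T, e⟩ := H
  refine ⟨t * c, t • l, t • Q, t • T, fun u => ?_⟩
  simp only [e, LinearMap.smul_apply, smul_eq_mul]
  ring

/-- Module da. -/
theorem Cub.sum {ι : Type*} (s : Finset ι) (h : ι → (Fin n → K) → K)
    (H : ∀ i ∈ s, Cub (h i)) : Cub (fun u => ∑ i ∈ s, h i u) := by
  classical
  induction s using Finset.induction_on with
  | empty => simpa using Cub.const (n := n) (0 : K)
  | insert i s hi ih =>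
      have h1 := (H i (Finset.mem_insert_self _ _)).add (ih fun j hj => H j (Finset.mem_insert_of_mem hj))
      have h2 : (fun u => ∑ j ∈ insert i s, h j u) = fun u => h i u + ∑ j ∈ s, h j u := by
        funext u
        rw [Finset.sum_insert hi]
      rw [h2]
      exact h1

/-- Module da. PROOF. `LinearMap.mk₂`, or `LinearMap.toSpanSingleton` / `LinearMap.smulRight`:
`(a + l u) (b + m u) (c + k u)` has constant `a b c`, linear part `a b k + a c m + b c l`, bilinear
part `a m(u) k(u') + b l(u) k(u') + c l(u) m(u')`, trilinear part `l(u) m(u') k(u'')`. -/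
theorem Cub.prod3 (a b c : K) (l m k : (Fin n → K) →ₗ[K] K) :
    Cub (fun u => (a + l u) * (b + m u) * (c + k u)) := by
  refine ⟨a * b * c, (a * b) • k + (a * c) • m + (b * c) • l,
    a • (m.smulRight k) + b • (l.smulRight k) + c • (l.smulRight m),
    l.smulRight (m.smulRight k), fun u => ?_⟩
  simp only [LinearMap.add_apply, LinearMap.smul_apply, smul_eq_mul, LinearMap.smulRight_apply]
  ring
/- END da -/

/- MODULE db -/
private theorem db_list {m : ℕ} (a : Fin m → K) (l : Fin m → (Fin n → K) →ₗ[K] K) (L : List (Fin m))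
    (hL : L.length ≤ 3) : Cub (fun u => (L.map (fun i => a i + l i u)).prod) := by
  match L, hL with
  | [], _ => simpa using Cub.const (n := n) (1 : K)
  | [i], _ =>
      have h := Cub.prod3 (a i) 1 1 (l i) 0 0
      simpa using h
  | [i, j], _ =>
      have h := Cub.prod3 (a i) (a j) 1 (l i) (l j) 0
      simpa using h
  | [i, j, k], _ =>
      have h := Cub.prod3 (a i) (a j) (a k) (l i) (l j) (l k)
      simpa [mul_assoc] using h
  | i :: j :: k :: t :: L, h => simp at h; omega

private theorem db_prod {m : ℕ} (s : Fin m →₀ ℕ) (x : Fin m → K) :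
    ∏ i, x i ^ s i = ((Finsupp.toMultiset s).toList.map x).prod := by
  classical
  rw [← Multiset.prod_coe, ← Multiset.map_coe, Multiset.coe_toList, Finset.prod_multiset_map_count]
  symm
  rw [← Finset.prod_subset (Finset.subset_univ (Finsupp.toMultiset s).toFinset)]
  · exact Finset.prod_congr rfl fun i _ => by rw [Finsupp.count_toMultiset]
  · intro i _ hi
    rw [Multiset.mem_toFinset] at hi
    have := Multiset.count_eq_zero_of_notMem hi
    rw [Finsupp.count_toMultiset] at this
    rw [this, pow_zero]

/-- Module db. A product of at most three affine functions. PROOF. Since `∑ i, s i ≤ 3`, the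
multiset of the indices has at most 3 elements; if `s = 0` the product is `1`; otherwise pick `i`
with `s i > 0`, and so on. (It may help to prove first: for a multiset / list `L` of indices of
length at most 3 the product `(L.map (fun i u => a i + l i u)).prod` is `Cub`, padding with the
constant affine function `1`, and `∏ i, x i ^ s i = (s.toMultiset.map x).prod`,
`Finsupp.toMultiset_map` / `Finsupp.prod_toMultiset`.) -/
theorem Cub.monomial {m : ℕ} (a : Fin m → K) (l : Fin m → (Fin n → K) →ₗ[K] K) (s : Fin m →₀ ℕ)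
    (hs : ∑ i, s i ≤ 3) : Cub (fun u => ∏ i, (a i + l i u) ^ s i) := by
  have h1 : (Finsupp.toMultiset s).toList.length ≤ 3 := by
    rw [Multiset.length_toList, Finsupp.card_toMultiset, Finsupp.sum_fintype _ _ (fun _ => rfl)]
    exact hs
  have h2 := db_list a l _ h1
  have h3 : (fun u => ∏ i, (a i + l i u) ^ s i) =
      fun u => ((Finsupp.toMultiset s).toList.map (fun i => a i + l i u)).prod := by
    funext u
    exact db_prod s (fun i => a i + l i u)
  rw [h3]
  exact h2

/-- Module db. A polynomial of degree at most 3 composed with affine functions is `Cub`. PROOF.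
`MvPolynomial.eval_eq'` : `eval x f = ∑ s ∈ f.support, coeff s f * ∏ i, x i ^ s i`,
`Cub.sum`, `Cub.smul`, `Cub.monomial`; `∑ i, s i ≤ 3` from `MvPolynomial.le_totalDegree`. -/
theorem cub_of_totalDegree {m : ℕ} (f : MvPolynomial (Fin m) K) (hf : f.totalDegree ≤ 3)
    (a : Fin m → K) (l : Fin m → (Fin n → K) →ₗ[K] K) :
    Cub (fun u => MvPolynomial.eval (fun i => a i + l i u) f) := by
  have h1 : (fun u => MvPolynomial.eval (fun i => a i + l i u) f) =
      fun u => ∑ s ∈ f.support, MvPolynomial.coeff s f * ∏ i, (a i + l i u) ^ s i := by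
    funext u
    rw [MvPolynomial.eval_eq']
  rw [h1]
  refine Cub.sum _ _ fun s hs => (Cub.monomial a l s ?_).smul _
  have h2 := (MvPolynomial.le_totalDegree hs).trans hf
  rwa [Finsupp.sum_fintype _ _ (fun _ => rfl)] at h2
/- END db -/

end Pool.Agent.Xtr
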