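import Mathlib

set_option autoImplicit false

/-!
Library `Xtr` (MP_28a29f_lc): polynomials of degree at most 3 and additive polynomials over extremal
valued fields.  Definitions.
-/

namespace Pool.Agent.Xtr

open scoped BigOperators

section

variable {K : Type*} [Field K] {Γ : Type*} [LinearOrderedCommGroupWithZero Γ]

/-- `v` is extremal. -/
def Ext (v : Valuation K Γ) : Prop :=
  ∀ (n : ℕ) (f : MvPolynomial (Fin n) K), ∃ a : Fin n → K, (∀ i, v (a i) ≤ 1) ∧
    ∀ b : Fin n → K, (∀ i, v (b i) ≤ 1) →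
      v (MvPolynomial.eval a f) ≤ v (MvPolynomial.eval b f)

/-- integral vectors -/
def Ivec (v : Valuation K Γ) {n : ℕ} (u : Fin n → K) : Prop := ∀ i, v (u i) ≤ 1

/-- polynomial functions -/
def PF {n : ℕ} (g : (Fin n → K) → K) : Prop :=
  ∃ P : MvPolynomial (Fin n) K, ∀ y, MvPolynomial.eval y P = g y

/-- `om` is a coarsening of `v` with divisible value group. -/
structure Crs {D : Type*} [LinearOrderedCommGroupWithZero D]
    (v : Valuation K Γ) (om : Valuation K D) : Prop where
  mono : ∀ a b : K, v a ≤ v b → om a ≤ om b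
  div : ∀ a : K, a ≠ 0 → ∀ m : ℕ, 0 < m → ∃ b : K, om b ^ m = om a

/-- the general polynomial of degree 3 in two variables with constant term 1 -/
def F9 (l l' a b a' c g g' c' x y : K) : K :=
  1 + l * x + l' * y + a * x ^ 2 + b * (x * y) + a' * y ^ 2 + c * x ^ 3 + g * (x ^ 2 * y)
    + g' * (x * y ^ 2) + c' * y ^ 3

/-- functions of degree at most 3, given by a constant, a linear, a bilinear and a trilinear map -/
def Cub {n : ℕ} (h : (Fin n → K) → K) : Prop :=
  ∃ (c : K) (l : (Fin n → K) →ₗ[K] K) (Q : (Fin n → K) →ₗ[K] (Fin n → K) →ₗ[K] K)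
    (T : (Fin n → K) →ₗ[K] (Fin n → K) →ₗ[K] (Fin n → K) →ₗ[K] K),
    ∀ u, h u = c + l u + Q u u + T u u u

end

section

variable {K : Type*} [Field K] {Γ : Type*} [LinearOrderedCommGroupWithZero Γ]
  {L : Type*} [Field L] [Algebra K L]

/-- every element of `L` is approximated by an element of `K` -/
def Imm (K : Type*) [Field K] {L : Type*} [Field L] [Algebra K L] (w : Valuation L Γ) : Prop :=
  ∀ y : L, y ≠ 0 → ∃ x : K, w (y - algebraMap K L x) < w y

/-- the approximation principle used at the end -/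
def FinP {D : Type*} [LinearOrderedCommGroupWithZero D]
    (v : Valuation K Γ) (om : Valuation K D) (w : Valuation L Γ) : Prop :=
  ∀ (n : ℕ) (F : MvPolynomial (Fin n) K) (z : Fin n → L), (∀ i, w (z i) = 1) →
    (∀ z' : Fin n → K, (∀ i, v (z' i) = 1) →
      1 ≤ v (MvPolynomial.eval z' F) ∧
        ∀ s, om (MvPolynomial.coeff s F) ≤ om (MvPolynomial.eval z' F)) →
    1 ≤ w (MvPolynomial.aeval z F)

end

end Pool.Agent.Xtr
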