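import Pool.Agent.Xtr.Ad
import Pool.Agent.Xtr.Fn

set_option autoImplicit false

namespace Pool.Agent.Xtr

open scoped BigOperators

variable {K : Type*} [Field K] {Γ : Type*} [LinearOrderedCommGroupWithZero Γ]
  {D : Type*} [LinearOrderedCommGroupWithZero D] {L : Type*} [Field L] [Algebra K L]

/- MODULE ea -/
/-- Module ea. The gauge of a vector. PROOF. If `om (g e) ≤ 1`: `a = 1`. Otherwise `div` for
`(g e)⁻¹` and `d` gives `a` with `om a ^ d = (om (g e))⁻¹ < 1`; `om (g (t • e)) =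
om t ^ d * om (g e) ≤ 1` iff `om t ^ d ≤ om a ^ d` iff `om t ≤ om a`. -/
theorem gauge {v : Valuation K Γ} {om : Valuation K D} (hc : Crs v om) {n : ℕ} (d : ℕ)
    (hd : 0 < d) (g : (Fin n → K) → K) (hh : ∀ (t : K) u, g (t • u) = t ^ d * g u)
    (e : Fin n → K) :
    ∃ a : K, a ≠ 0 ∧ ∀ t : K, v t ≤ 1 → (om (g (t • e)) ≤ 1 ↔ om t ≤ om a) := by
  by_cases h1 : om (g e) ≤ 1
  · refine ⟨1, one_ne_zero, fun t ht => ?_⟩
    have ht1 : om t ≤ 1 := by
      have := hc.mono t 1 (by simpa using ht)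
      simpa using this
    rw [map_one]
    refine ⟨fun _ => ht1, fun _ => ?_⟩
    rw [hh, map_mul, map_pow]
    exact mul_le_one' (pow_le_one' ht1 d) h1
  · push Not at h1
    have hg0 : g e ≠ 0 := by
      intro h0
      rw [h0, map_zero] at h1
      exact absurd h1 (not_lt.mpr zero_le)
    obtain ⟨b, hb⟩ := hc.div (g e)⁻¹ (inv_ne_zero hg0) d hd
    have hog : om (g e) ≠ 0 := (Valuation.ne_zero_iff om).mpr hg0
    have hb0 : b ≠ 0 := by
      intro h0
      rw [h0, map_zero, zero_pow hd.ne', map_inv₀] at hb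
      exact inv_ne_zero hog hb.symm
    refine ⟨b, hb0, fun t _ => ?_⟩
    rw [hh, map_mul, map_pow, ← le_div_iff₀ (zero_lt_iff.mpr hog), one_div, ← map_inv₀, ← hb]
    exact pow_le_pow_iff_left₀ zero_le zero_le hd.ne'

/-- Module ea. PROOF. If all `om (b i) ≤ om (a i)` take `z = 1`. Otherwise let `j` maximise
`om (b i / a i)` and `z = b j / a j`. -/
theorem zeta {om : Valuation K D} {n : ℕ} (a b : Fin n → K) (ha : ∀ i, a i ≠ 0) :
    ∃ z : K, z ≠ 0 ∧ (∀ i, om (b i) ≤ om z * om (a i)) ∧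
      (z = 1 ∨ (1 < om z ∧ ∃ j, om (b j) = om z * om (a j))) := by
  by_cases h : ∀ i, om (b i) ≤ om (a i)
  · exact ⟨1, one_ne_zero, fun i => by simpa using h i, Or.inl rfl⟩
  · push Not at h
    obtain ⟨i0, hi0⟩ := h
    have : Nonempty (Fin n) := ⟨i0⟩
    obtain ⟨j, hj⟩ := Finite.exists_max (fun i => om (b i / a i))
    have hmul : ∀ i, om (b i) = om (b i / a i) * om (a i) := fun i => by
      rw [← map_mul, div_mul_cancel₀ _ (ha i)]
    have hgt : 1 < om (b i0 / a i0) := by
      have hpos : 0 < om (a i0) := zero_lt_iff.mpr ((Valuation.ne_zero_iff om).mpr (ha i0))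
      rw [map_div₀, lt_div_iff₀ hpos, one_mul]
      exact hi0
    have hgt' : 1 < om (b j / a j) := lt_of_lt_of_le hgt (hj i0)
    refine ⟨b j / a j, ?_, fun i => ?_, Or.inr ⟨hgt', j, hmul j⟩⟩
    · intro h0
      rw [h0, map_zero] at hgt'
      exact absurd hgt' (not_lt.mpr zero_le)
    · rw [hmul i]
      exact mul_le_mul_left (hj i) _

/-- Module ea. PROOF. `Finset.induction_on`; `g 0 = 0` because `g (0 • 0) = 0 ^ d * g 0`. -/
theorem gsum {v : Valuation K Γ} {om : Valuation K D} {n : ℕ} (d : ℕ) (hd : 0 < d)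
    (g : (Fin n → K) → K) (hh : ∀ (t : K) u, g (t • u) = t ^ d * g u)
    (hadd : ∀ u u', Ivec v u → Ivec v u' → om (g u) ≤ 1 → om (g u') ≤ 1 → om (g (u + u')) ≤ 1)
    {ι : Type*} (s : Finset ι) (u : ι → Fin n → K) (hu : ∀ i ∈ s, Ivec v (u i))
    (h : ∀ i ∈ s, om (g (u i)) ≤ 1) : om (g (∑ i ∈ s, u i)) ≤ 1 := by
  classical
  have key : ∀ s : Finset ι, (∀ i ∈ s, Ivec v (u i)) → (∀ i ∈ s, om (g (u i)) ≤ 1) →
      Ivec v (∑ i ∈ s, u i) ∧ om (g (∑ i ∈ s, u i)) ≤ 1 := by
    intro s
    induction s using Finset.induction_on with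
    | empty =>
      intro _ _
      have h0 : g 0 = 0 := by
        have := hh 0 0
        rwa [zero_pow hd.ne', zero_mul, smul_zero] at this
      refine ⟨fun i => by simp, by simp [h0]⟩
    | insert a s ha ih =>
      intro hu h
      obtain ⟨i1, i2⟩ := ih (fun i hi => hu i (Finset.mem_insert_of_mem hi))
        (fun i hi => h i (Finset.mem_insert_of_mem hi))
      rw [Finset.sum_insert ha]
      have hua := hu a (Finset.mem_insert_self a s)
      refine ⟨fun i => ?_, hadd _ _ hua i1 (h a (Finset.mem_insert_self a s)) i2⟩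
      rw [Pi.add_apply]
      exact (v.map_add _ _).trans (max_le (hua i) (i1 i))
  exact (key s hu h).2
/- END ea -/

/- MODULE eb -/
/-- Module eb. Upper bound. PROOF. With `y = ∑ (b i * t i) • e i`: `g y = z ^ d * g (z⁻¹ • y)`,
`z⁻¹ • y = ∑ (z⁻¹ * b i * t i) • e i`. The coefficients `k i = z⁻¹ * b i * t i` are integral
(`z = 1`, or `om z > 1` and then `v z > 1`) and `om (k i) ≤ om (z⁻¹ * b i) ≤ om (a i)`, so
`om (g (k i • e i)) ≤ 1` and `gsum` applies. -/
theorem up {v : Valuation K Γ} {om : Valuation K D} (hc : Crs v om) {n : ℕ} (d : ℕ) (hd : 0 < d)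
    (g : (Fin n → K) → K) (hh : ∀ (t : K) u, g (t • u) = t ^ d * g u)
    (hadd : ∀ u u', Ivec v u → Ivec v u' → om (g u) ≤ 1 → om (g u') ≤ 1 → om (g (u + u')) ≤ 1)
    (e : Fin n → Fin n → K) (he : ∀ i, Ivec v (e i)) (a b : Fin n → K)
    (ha : ∀ i, ∀ t : K, v t ≤ 1 → (om (g (t • e i)) ≤ 1 ↔ om t ≤ om (a i)))
    (hb : Ivec v b) (z : K) (hz0 : z ≠ 0) (hz : ∀ i, om (b i) ≤ om z * om (a i))
    (hz1 : z = 1 ∨ 1 < om z) (t : Fin n → K) (ht : Ivec v t) :
    om (g (∑ i, (b i * t i) • e i)) ≤ om z ^ d := by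
  have hmono1 : ∀ x : K, v x ≤ 1 → om x ≤ 1 := fun x hx => by
    have := hc.mono x 1 (by simpa using hx)
    simpa using this
  have hvz : v z⁻¹ ≤ 1 := by
    rcases hz1 with h | h
    · rw [h]; simp
    · by_contra hcon
      push Not at hcon
      have : v z < 1 := by
        rw [map_inv₀] at hcon
        by_contra h2
        push Not at h2
        exact absurd hcon (not_lt.mpr (inv_le_one_of_one_le₀ h2))
      exact absurd h (not_lt.mpr (hmono1 z this.le))
  have hsum : (∑ i, (b i * t i) • e i) = z • ∑ i, (z⁻¹ * b i * t i) • e i := by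
    rw [Finset.smul_sum]
    refine Finset.sum_congr rfl fun i _ => ?_
    rw [smul_smul]
    congr 1
    field_simp
  have hk : ∀ i, v (z⁻¹ * b i * t i) ≤ 1 := fun i => by
    rw [map_mul, map_mul]
    exact mul_le_one' (mul_le_one' hvz (hb i)) (ht i)
  have hg : om (g (∑ i, (z⁻¹ * b i * t i) • e i)) ≤ 1 := by
    refine gsum (v := v) d hd g hh hadd Finset.univ (fun i => (z⁻¹ * b i * t i) • e i)
      (fun i _ j => ?_) (fun i _ => ?_)
    · change v ((z⁻¹ * b i * t i) * e i j) ≤ 1
      rw [map_mul]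
      exact mul_le_one' (hk i) (he i j)
    · refine (ha i _ (hk i)).mpr ?_
      have hoz : 0 < om z := zero_lt_iff.mpr ((Valuation.ne_zero_iff om).mpr hz0)
      calc om (z⁻¹ * b i * t i) = (om z)⁻¹ * om (b i) * om (t i) := by
            rw [map_mul, map_mul, map_inv₀]
        _ ≤ (om z)⁻¹ * om (b i) * 1 := mul_le_mul_right (hmono1 _ (ht i)) _
        _ = (om z)⁻¹ * om (b i) := mul_one _
        _ ≤ (om z)⁻¹ * (om z * om (a i)) := mul_le_mul_right (hz i) _
        _ = om (a i) := by rw [← mul_assoc, inv_mul_cancel₀ hoz.ne', one_mul]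
  rw [hsum, hh, map_mul, map_pow]
  calc om z ^ d * om (g (∑ i, (z⁻¹ * b i * t i) • e i)) ≤ om z ^ d * 1 := mul_le_mul_right hg _
    _ = om z ^ d := mul_one _
/- END eb -/

/- MODULE ec -/
/-- Module ec. Lower bound. PROOF. Let `y = ∑ (b i * t i) • e i`, suppose
`max 1 (om (g y)) < om z ^ d`. If `om (g y) ≤ 1` put `mu = 1`, otherwise choose `mu` with
`om mu ^ d = (om (g y))⁻¹` (`div`), `om mu < 1`, `v mu < 1`. In both cases `v mu ≤ 1`,
`om (g (mu • y)) ≤ 1`, `om mu ^ d * om z ^ d > 1`, so `om mu * om z > 1`. By `hk` for the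
coefficients `mu * (b i * t i)`: `om (g ((mu * (b j * t j)) • e j)) ≤ 1`, so by `ha`
`om mu * om (b j) ≤ om (a j)` (`om (t j) = 1`), i.e. `om mu * om z * om (a j) ≤ om (a j)`,
`om mu * om z ≤ 1`: contradiction. -/
theorem low {v : Valuation K Γ} {om : Valuation K D} (hc : Crs v om) {n : ℕ} (d : ℕ) (hd : 0 < d)
    (g : (Fin n → K) → K) (hh : ∀ (t : K) u, g (t • u) = t ^ d * g u)
    (e : Fin n → Fin n → K) (a b : Fin n → K) (ha0 : ∀ i, a i ≠ 0)
    (ha : ∀ i, ∀ t : K, v t ≤ 1 → (om (g (t • e i)) ≤ 1 ↔ om t ≤ om (a i)))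
    (hk : ∀ k : Fin n → K, Ivec v k → om (g (∑ i, k i • e i)) ≤ 1 → ∀ i, om (g (k i • e i)) ≤ 1)
    (hb : Ivec v b) (z : K) (hz1 : 1 < om z) (j : Fin n) (hj : om (b j) = om z * om (a j))
    (t : Fin n → K) (ht : ∀ i, v (t i) = 1) :
    om z ^ d ≤ max 1 (om (g (∑ i, (b i * t i) • e i))) := by
  by_contra hcon
  push Not at hcon
  set y := ∑ i, (b i * t i) • e i with hy
  have hmono1 : ∀ x : K, v x ≤ 1 → om x ≤ 1 := fun x hx => by
    have := hc.mono x 1 (by simpa using hx)
    simpa using this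
  have hlt : ∀ x : K, om x < 1 → v x < 1 := fun x hx => by
    by_contra h
    push Not at h
    have := hc.mono 1 x (by simpa using h)
    rw [map_one] at this
    exact absurd hx (not_lt.mpr this)
  -- the multiplier
  obtain ⟨mu, hmu1, hmu2, hmu3⟩ : ∃ mu : K, v mu ≤ 1 ∧ om (g (mu • y)) ≤ 1 ∧ 1 < om mu * om z := by
    by_cases h1 : om (g y) ≤ 1
    · exact ⟨1, by simp, by simpa using h1, by simpa using hz1⟩
    · push Not at h1
      have hg0 : g y ≠ 0 := by
        intro h0
        rw [h0, map_zero] at h1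
        exact absurd h1 (not_lt.mpr zero_le)
      have hog : om (g y) ≠ 0 := (Valuation.ne_zero_iff om).mpr hg0
      obtain ⟨mu, hmu⟩ := hc.div (g y)⁻¹ (inv_ne_zero hg0) d hd
      rw [map_inv₀] at hmu
      have hmu1 : om mu < 1 := by
        by_contra h
        push Not at h
        have h2 : (1 : D) ≤ om mu ^ d := one_le_pow₀ h
        rw [hmu] at h2
        exact absurd h2 (not_le.mpr (inv_lt_one_of_one_lt₀ h1))
      refine ⟨mu, (hlt mu hmu1).le, ?_, ?_⟩
      · rw [hh, map_mul, map_pow, hmu, inv_mul_cancel₀ hog]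
      · have h3 : (1 : D) < (om mu * om z) ^ d := by
          rw [mul_pow, hmu]
          have h4 : om (g y) < om z ^ d := lt_of_le_of_lt (le_max_right _ _) hcon
          have := mul_lt_mul_of_pos_left h4 (inv_pos.mpr (zero_lt_iff.mpr hog))
          rwa [inv_mul_cancel₀ hog] at this
        by_contra h5
        push Not at h5
        exact absurd h3 (not_lt.mpr (pow_le_one₀ zero_le h5))
  have hsum : mu • y = ∑ i, (mu * (b i * t i)) • e i := by
    rw [hy, Finset.smul_sum]
    exact Finset.sum_congr rfl fun i _ => smul_smul _ _ _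
  rw [hsum] at hmu2
  have hki : Ivec v (fun i => mu * (b i * t i)) := fun i => by
    change v (mu * (b i * t i)) ≤ 1
    rw [map_mul, map_mul]
    exact mul_le_one' hmu1 (mul_le_one' (hb i) (ht i).le)
  have h6 := hk (fun i => mu * (b i * t i)) hki hmu2 j
  have h7 := (ha j _ (hki j)).mp h6
  have htj : om (t j) = 1 := by
    have h8 := hc.mono (t j) 1 (by rw [map_one]; exact (ht j).le)
    have h9 := hc.mono 1 (t j) (by rw [map_one]; exact (ht j).ge)
    rw [map_one] at h8 h9
    exact le_antisymm h8 h9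
  rw [map_mul, map_mul, htj, mul_one, hj, ← mul_assoc] at h7
  have haj : 0 < om (a j) := zero_lt_iff.mpr ((Valuation.ne_zero_iff om).mpr (ha0 j))
  have h10 : om mu * om z ≤ 1 := by
    by_contra h11
    push Not at h11
    have := mul_lt_mul_of_pos_right h11 haj
    rw [one_mul] at this
    exact absurd h7 (not_le.mpr this)
  exact absurd hmu3 (not_lt.mpr h10)
/- END ec -/

/- MODULE ed -/
/-- Module ed. THE ENGINE. PROOF. `adapt` gives `e`; write `x j = ∑ i, c i * e i j` with integral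
`c i ∈ L`. By `Imm.val` choose `b i ∈ K` with `v (b i) = w (c i)`; put `z i = c i / b i` if
`c i ≠ 0` and `z i = 1` otherwise (`b i = 0` then): `w (z i) = 1`, `c i = b i * z i`. Let
`F = MvPolynomial.bind₁ (fun j => ∑ i, C (b i * e i j) * X i) f`; `aeval z F = aeval x f` and
`eval t F = eval (∑ i, (b i * t i) • e i) f`. `gauge` gives the `a i`, `zeta` gives `z0`. Apply
`hfin` to `F` and `z`: for `z'` with all `v (z' i) = 1`, `1 ≤ v (eval z' F)` by `h1`;
`om (coeff s F) ≤ om (z0 ^ d)` by `gaussn` and `up` (`om (eval t F) = max 1 (om (g ..))`, and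
`1 ≤ om z0 ^ d`), and `om z0 ^ d ≤ om (eval z' F)` by `low` (or `z0 = 1` and `h1`). -/
theorem engine {v : Valuation K Γ} {om : Valuation K D} {w : Valuation L Γ} (hv : Ext v)
    (hc : Crs v om) (hvw : ∀ a : K, w (algebraMap K L a) = v a) (himm : Imm K w)
    (hfin : FinP v om w) {n : ℕ} (d : ℕ) (hd : 0 < d) (f : MvPolynomial (Fin n) K)
    (g : (Fin n → K) → K) (hg : PF g) (hh : ∀ (t : K) u, g (t • u) = t ^ d * g u)
    (hadd : ∀ u u', Ivec v u → Ivec v u' → om (g u) ≤ 1 → om (g u') ≤ 1 → om (g (u + u')) ≤ 1)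
    (h1 : ∀ u, Ivec v u → 1 ≤ v (MvPolynomial.eval u f))
    (h2 : ∀ u, Ivec v u → om (MvPolynomial.eval u f) = max 1 (om (g u)))
    (x : Fin n → L) (hx : ∀ i, w (x i) ≤ 1) : 1 ≤ w (MvPolynomial.aeval x f) := by
  classical
  obtain ⟨e, he, hx', hk⟩ := adapt hv hc.mono w hvw d hd n g hg hh hadd
  obtain ⟨c, hc1, hc2⟩ := hx' x hx
  choose b hb using fun i => Imm.val hvw himm (c i)
  have hbI : Ivec v b := fun i => by rw [hb i]; exact hc1 i
  have hb0 : ∀ i, c i ≠ 0 → b i ≠ 0 := fun i hi h0 => by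
    have := hb i
    rw [h0, map_zero] at this
    exact hi ((Valuation.zero_iff w).mp this.symm)
  have hinj : Function.Injective (algebraMap K L) := (algebraMap K L).injective
  let z : Fin n → L := fun i => if c i = 0 then 1 else c i / algebraMap K L (b i)
  have hz : ∀ i, w (z i) = 1 := fun i => by
    by_cases h : c i = 0
    · simp [z, h]
    · have h3 : w (c i) ≠ 0 := (Valuation.ne_zero_iff w).mpr h
      simp only [z, h, if_false]
      rw [map_div₀, hvw, hb i, div_self h3]
  have hcb : ∀ i, c i = algebraMap K L (b i) * z i := fun i => by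
    by_cases h : c i = 0
    · have h3 : b i = 0 := by
        have := hb i
        rw [h, map_zero] at this
        exact (Valuation.zero_iff v).mp this
      rw [h, h3, map_zero, zero_mul]
    · have h4 : algebraMap K L (b i) ≠ 0 := by
        rw [Ne, map_eq_zero_iff _ hinj]
        exact hb0 i h
      simp only [z, h, if_false]
      rw [mul_div_cancel₀ _ h4]
  let F : MvPolynomial (Fin n) K :=
    MvPolynomial.bind₁ (fun j => ∑ i, MvPolynomial.C (b i * e i j) * MvPolynomial.X i) f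
  have hF1 : MvPolynomial.aeval z F = MvPolynomial.aeval x f := by
    simp only [F]
    rw [MvPolynomial.aeval_bind₁]
    congr 2
    funext j
    rw [hc2 j, map_sum]
    refine Finset.sum_congr rfl fun i _ => ?_
    rw [map_mul, MvPolynomial.aeval_X, MvPolynomial.aeval_C, map_mul, hcb i]
    ring
  have hF2 : ∀ t : Fin n → K, MvPolynomial.eval t F =
      MvPolynomial.eval (∑ i, (b i * t i) • e i) f := fun t => by
    have h5 : MvPolynomial.aeval t F = MvPolynomial.aeval (∑ i, (b i * t i) • e i) f := by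
      simp only [F]
      rw [MvPolynomial.aeval_bind₁]
      congr 2
      funext j
      rw [map_sum, Finset.sum_apply]
      refine Finset.sum_congr rfl fun i _ => ?_
      rw [map_mul, MvPolynomial.aeval_X, MvPolynomial.aeval_C]
      simp only [Algebra.algebraMap_self, RingHom.id_apply, Pi.smul_apply, smul_eq_mul]
      ring
    rw [MvPolynomial.aeval_eq_eval, MvPolynomial.aeval_eq_eval] at h5
    exact h5
  have hI : ∀ t : Fin n → K, Ivec v t → Ivec v (∑ i, (b i * t i) • e i) := fun t ht j => by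
    rw [Finset.sum_apply]
    refine Valuation.map_sum_le v fun i _ => ?_
    change v ((b i * t i) * e i j) ≤ 1
    rw [map_mul, map_mul]
    exact mul_le_one' (mul_le_one' (hbI i) (ht i)) (he i j)
  choose a ha0 ha using fun i => gauge hc d hd g hh (e i)
  obtain ⟨z0, hz00, hz1, hz2⟩ := zeta (om := om) a b ha0
  have hz2' : z0 = 1 ∨ 1 < om z0 := by
    rcases hz2 with h | h
    · exact Or.inl h
    · exact Or.inr h.1
  have hz1' : 1 ≤ om z0 ^ d := by
    rcases hz2' with h | h
    · rw [h, map_one, one_pow]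
    · exact one_le_pow₀ h.le
  have hco : ∀ s, om (MvPolynomial.coeff s F) ≤ om (z0 ^ d) := by
    refine gaussn hc (z0 ^ d) (pow_ne_zero d hz00) n F fun t ht => ?_
    rw [hF2 t, h2 _ (hI t ht), map_pow]
    exact max_le hz1' (up hc d hd g hh hadd e he a b ha hbI z0 hz00 hz1 hz2' t ht)
  rw [← hF1]
  refine hfin n F z hz fun z' hz' => ?_
  have hz'I : Ivec v z' := fun i => (hz' i).le
  refine ⟨?_, fun s => (hco s).trans ?_⟩
  · rw [hF2]
    exact h1 _ (hI z' hz'I)
  · rw [hF2, h2 _ (hI z' hz'I), map_pow]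
    rcases hz2 with h | ⟨h, j, hj⟩
    · rw [h, map_one, one_pow]
      exact le_max_left _ _
    · exact low hc d hd g hh e a b ha0 ha hk hbI z0 h j hj z' hz'
/- END ed -/

end Pool.Agent.Xtr
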