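import Pool.Agent.Xtr.Ty

set_option autoImplicit false

namespace Pool.Agent.Xtr

open scoped BigOperators

variable {K : Type*} [Field K] {Γ : Type*} [LinearOrderedCommGroupWithZero Γ]
  {D : Type*} [LinearOrderedCommGroupWithZero D]

/- MODULE ga -/
private theorem ga_step {v : Valuation K Γ} {om : Valuation K D} (hc : Crs v om) (r : K) (hr : r ≠ 0) (N : ℕ)
    (ih : ∀ P : Polynomial K, P.natDegree ≤ N → (∀ t : K, v t ≤ 1 → om (P.eval t) ≤ om r) →
      ∀ i, om (P.coeff i) ≤ om r)
    (P : Polynomial K) (hP : P.natDegree ≤ N + 1) (h : ∀ t : K, v t ≤ 1 → om (P.eval t) ≤ om r)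
    (i : ℕ) (hi : i ≤ N) : om (P.coeff i) ≤ om r := by
  by_contra hlt
  rw [not_le] at hlt
  have hr0 : om r ≠ 0 := (om.ne_zero_iff).2 hr
  have hp0 : om (P.coeff i) ≠ 0 := fun h0 => by
    rw [h0] at hlt
    exact not_lt_zero hlt
  have hp : P.coeff i ≠ 0 := (om.ne_zero_iff).1 hp0
  obtain ⟨th, hth⟩ := hc.div (r / P.coeff i) (div_ne_zero hr hp) (i + 1) (Nat.succ_pos i)
  have hq : om (r / P.coeff i) < 1 := by
    rw [map_div₀, div_lt_one₀ (zero_lt_iff.2 hp0)]
    exact hlt
  have hth0 : om th ≠ 0 := fun h0 => by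
    rw [h0, zero_pow (Nat.succ_ne_zero i)] at hth
    exact (om.ne_zero_iff).2 (div_ne_zero hr hp) hth.symm
  have hth1 : om th < 1 := by
    by_contra hge
    rw [not_lt] at hge
    have := one_le_pow₀ hge (n := i + 1)
    rw [hth] at this
    exact absurd hq (not_lt.2 this)
  have hv1 : v th ≤ 1 := (hc.lt_one hth1).le
  have hthN : om (th ^ (N + 1)) ≤ 1 := by
    rw [map_pow]
    exact pow_le_one₀ zero_le hth1.le
  have h2 := ih (P.comp (Polynomial.C th * Polynomial.X) - Polynomial.C (th ^ (N + 1)) * P) ?_ ?_ i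
  · rw [Polynomial.coeff_sub, Polynomial.comp_C_mul_X_coeff, Polynomial.coeff_C_mul] at h2
    have h3 : P.coeff i * th ^ i - th ^ (N + 1) * P.coeff i = (th ^ i - th ^ (N + 1)) * P.coeff i := by ring
    rw [h3, map_mul] at h2
    have h4 : om (th ^ (N + 1)) < om (th ^ i) := by
      rw [map_pow, map_pow]
      exact pow_lt_pow_right_of_lt_one₀ (zero_lt_iff.2 hth0) hth1 (by omega)
    have h5 : om (th ^ i - th ^ (N + 1)) = om (th ^ i) := by
      rw [sub_eq_add_neg]
      exact om.map_add_eq_of_lt_left (by rwa [om.map_neg])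
    rw [h5, map_pow] at h2
    have h6 : om r = om th ^ (i + 1) * om (P.coeff i) := by
      rw [hth, map_div₀, div_mul_cancel₀ _ hp0]
    rw [h6, pow_succ, mul_right_comm] at h2
    have h7 : 0 < om th ^ i * om (P.coeff i) := zero_lt_iff.2 (mul_ne_zero (pow_ne_zero _ hth0) hp0)
    have h8 : om th ^ i * om (P.coeff i) * om th < om th ^ i * om (P.coeff i) * 1 :=
      mul_lt_mul_of_pos_left hth1 h7
    rw [mul_one] at h8
    exact absurd h2 (not_le.2 h8)
  · rw [Polynomial.natDegree_le_iff_coeff_eq_zero]
    intro j hj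
    rw [Polynomial.coeff_sub, Polynomial.comp_C_mul_X_coeff, Polynomial.coeff_C_mul]
    rcases Nat.lt_or_ge (N + 1) j with h8 | h8
    · rw [Polynomial.natDegree_le_iff_coeff_eq_zero.1 hP j h8]
      ring
    · have : j = N + 1 := by omega
      rw [this]
      ring
  · intro t ht
    rw [Polynomial.eval_sub, Polynomial.eval_mul, Polynomial.eval_C, Polynomial.eval_comp, Polynomial.eval_mul,
      Polynomial.eval_C, Polynomial.eval_X]
    refine om.map_sub_le (h _ ?_) ?_
    · rw [map_mul]
      exact mul_le_one' hv1 ht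
    · rw [map_mul]
      exact (mul_le_mul' hthN (h t ht)).trans (by rw [one_mul])

/-- Module ga. Gauss lemma in one variable: a polynomial bounded on the valuation ring of `v` has
bounded coefficients (values for the coarser divisible `om`).
PROOF. Induction on `N` for polynomials with `natDegree ≤ N`. `N = 0`: constant. Step `N + 1`: let
`i ≤ N` and suppose `om (P.coeff i) > om r`. By `div` choose `th` with
`om th ^ (i + 1) = om (r / P.coeff i) < 1`; `om th < 1`, so `v th < 1`. The polynomial
`P2 = P.comp (C th * X) - C (th ^ (N+1)) * P` is bounded by `om r` on the valuation ring, has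
coefficients `(th ^ j - th ^ (N+1)) * P.coeff j` and so `natDegree ≤ N`. By induction
`om (th ^ i - th ^ (N+1)) * om (P.coeff i) ≤ om r`, i.e. `om th ^ i * om (P.coeff i) ≤ om r =
om th ^ (i+1) * om (P.coeff i)`, contradiction. For `i = N + 1`: `P.coeff (N+1) = P.eval 1 -
∑ j ≤ N, P.coeff j`. -/
theorem gauss1 {v : Valuation K Γ} {om : Valuation K D} (hc : Crs v om) (r : K) (hr : r ≠ 0)
    (P : Polynomial K) (h : ∀ t : K, v t ≤ 1 → om (P.eval t) ≤ om r) :
    ∀ i, om (P.coeff i) ≤ om r := by
  have key : ∀ N : ℕ, ∀ P : Polynomial K, P.natDegree ≤ N → (∀ t : K, v t ≤ 1 → om (P.eval t) ≤ om r) →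
      ∀ i, om (P.coeff i) ≤ om r := by
    intro N
    induction N with
    | zero =>
        intro P hP h i
        have h1 : P = Polynomial.C (P.coeff 0) := Polynomial.eq_C_of_natDegree_le_zero hP
        have h2 := h 0 (by simp)
        rw [h1, Polynomial.eval_C] at h2
        rcases Nat.eq_zero_or_pos i with rfl | hi
        · exact h2
        · rw [Polynomial.natDegree_le_iff_coeff_eq_zero.1 hP i hi, map_zero]
          exact zero_le
    | succ N ih =>
        intro P hP h i
        rcases Nat.lt_trichotomy i (N + 1) with hi | hi | hi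
        · exact ga_step hc r hr N ih P hP h i (by omega)
        · have h1 := Polynomial.eval_eq_sum_range' (p := P) (n := N + 2) (by omega) (1 : K)
          rw [Finset.sum_range_succ] at h1
          simp only [one_pow, mul_one] at h1
          have h2 : P.coeff i = P.eval 1 - ∑ j ∈ Finset.range (N + 1), P.coeff j := by
            rw [h1, hi]
            ring
          rw [h2]
          refine om.map_sub_le (h 1 (by simp)) (om.map_sum_le fun j hj => ?_)
          exact ga_step hc r hr N ih P hP h j (by rw [Finset.mem_range] at hj; omega)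
        · rw [Polynomial.natDegree_le_iff_coeff_eq_zero.1 hP i hi, map_zero]
          exact zero_le
  exact key _ P le_rfl h
/- END ga -/

/- MODULE gb -/
/-- Module gb. Gauss lemma in `n` variables. PROOF. Induction on `n` with
`MvPolynomial.finSuccEquiv` (`MvPolynomial.eval_eq_eval_mv_eval'`,
`MvPolynomial.finSuccEquiv_coeff_coeff`): for fixed integral `z'` the one-variable polynomial
`(finSuccEquiv K n F).map (eval z')` is bounded, so by `gauss1` its coefficients
`eval z' ((finSuccEquiv K n F).coeff i)` are bounded; apply the induction hypothesis to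
`(finSuccEquiv K n F).coeff i`. -/
theorem gaussn {v : Valuation K Γ} {om : Valuation K D} (hc : Crs v om) (r : K) (hr : r ≠ 0)
    (n : ℕ) (F : MvPolynomial (Fin n) K)
    (h : ∀ z : Fin n → K, Ivec v z → om (MvPolynomial.eval z F) ≤ om r) :
    ∀ s, om (MvPolynomial.coeff s F) ≤ om r := by
  induction n with
  | zero =>
    intro s
    have h1 := h (fun i => i.elim0) (fun i => i.elim0)
    rw [MvPolynomial.eq_C_of_isEmpty F, MvPolynomial.eval_C] at h1
    rw [Subsingleton.elim s 0]
    exact h1
  | succ n ih =>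
    intro s
    have h1 := ih ((MvPolynomial.finSuccEquiv K n F).coeff (s 0)) (fun z hz => ?_) s.tail
    · rw [MvPolynomial.finSuccEquiv_coeff_coeff, Finsupp.cons_tail] at h1
      exact h1
    · have h2 := gauss1 hc r hr ((MvPolynomial.finSuccEquiv K n F).map (MvPolynomial.eval z))
        (fun t ht => ?_) (s 0)
      · rw [Polynomial.coeff_map] at h2
        exact h2
      · rw [← MvPolynomial.eval_eq_eval_mv_eval']
        refine h _ fun i => ?_
        refine Fin.cases ?_ (fun j => ?_) i
        · rw [Fin.cons_zero]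
          exact ht
        · rw [Fin.cons_succ]
          exact hz j
/- END gb -/

/- MODULE gc -/
private theorem gc_pow {L : Type*} [Field L] (w : Valuation L Γ) {e : Γ} {x y : L} (hx : w x ≤ 1) (hy : w y ≤ 1)
    (h : w (x - y) ≤ e) (k : ℕ) : w (x ^ k - y ^ k) ≤ e := by
  induction k with
  | zero => simp
  | succ k ih =>
      have h1 : x ^ (k + 1) - y ^ (k + 1) = x * (x ^ k - y ^ k) + (x - y) * y ^ k := by ring
      rw [h1]
      refine w.map_add_le ?_ ?_
      · rw [map_mul]
        exact (mul_le_mul' hx ih).trans (by rw [one_mul])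
      · rw [map_mul, map_pow]
        exact (mul_le_mul' h (pow_le_one₀ zero_le hy)).trans (by rw [mul_one])

private theorem gc_prod {L : Type*} [Field L] (w : Valuation L Γ) {e : Γ} {ι : Type*} (T : Finset ι) (x y : ι → L)
    (hx : ∀ i, w (x i) ≤ 1) (hy : ∀ i, w (y i) ≤ 1) (h : ∀ i, w (x i - y i) ≤ e) :
    w (∏ i ∈ T, x i - ∏ i ∈ T, y i) ≤ e ∧ w (∏ i ∈ T, y i) ≤ 1 := by
  classical
  induction T using Finset.induction_on with
  | empty => simp
  | insert i T hi ih =>
      rw [Finset.prod_insert hi, Finset.prod_insert hi]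
      constructor
      · have h1 : x i * ∏ j ∈ T, x j - y i * ∏ j ∈ T, y j =
            x i * (∏ j ∈ T, x j - ∏ j ∈ T, y j) + (x i - y i) * ∏ j ∈ T, y j := by ring
        rw [h1]
        refine w.map_add_le ?_ ?_
        · rw [map_mul]
          exact (mul_le_mul' (hx i) ih.1).trans (by rw [one_mul])
        · rw [map_mul]
          exact (mul_le_mul' (h i) ih.2).trans (by rw [mul_one])
      · rw [map_mul]
        exact mul_le_one' (hy i) ih.2

/-- Module gc. PROOF. `aeval z F = ∑ s ∈ F.support, algebraMap (coeff s F) * ∏ i, z i ^ s i`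
(`MvPolynomial.aeval_eq_sum` or `eval₂_eq'`). The difference of two products of integral elements
whose factors differ by at most `e ≤ 1` is at most `e` (induction on the finite product, and on the
exponent). -/
theorem evb {L : Type*} [Field L] [Algebra K L] {v : Valuation K Γ} (w : Valuation L Γ)
    (hvw : ∀ a : K, w (algebraMap K L a) = v a) {n : ℕ} (F : MvPolynomial (Fin n) K) (C e : Γ)
    (hC : ∀ s, v (MvPolynomial.coeff s F) ≤ C) (he : e ≤ 1) (z z' : Fin n → L)
    (hz : ∀ i, w (z i) ≤ 1) (hz' : ∀ i, w (z' i) ≤ 1) (h : ∀ i, w (z i - z' i) ≤ e) :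
    w (MvPolynomial.aeval z F - MvPolynomial.aeval z' F) ≤ C * e := by
  rw [MvPolynomial.aeval_def, MvPolynomial.aeval_def, MvPolynomial.eval₂_eq', MvPolynomial.eval₂_eq',
    ← Finset.sum_sub_distrib]
  refine w.map_sum_le fun s _ => ?_
  rw [← mul_sub, map_mul, hvw]
  refine mul_le_mul' (hC s) ?_
  refine (gc_prod w Finset.univ (fun i => z i ^ s i) (fun i => z' i ^ s i) ?_ ?_ ?_).1
  · intro i
    rw [map_pow]
    exact pow_le_one₀ zero_le (hz i)
  · intro i
    rw [map_pow]
    exact pow_le_one₀ zero_le (hz' i)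
  · intro i
    exact gc_pow w (hz i) (hz' i) (h i) _
/- END gc -/

end Pool.Agent.Xtr
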