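import Pool.Agent.Xtr.Fn

set_option autoImplicit false

namespace Pool.Agent.Xtr

variable {K : Type*} [Field K] {Γ : Type*} [LinearOrderedCommGroupWithZero Γ]

/- MODULE ra -/
/-- Module ra. Halving. PROOF. Induction on `k`; `k = 0`: `e' = e`. Step: from `e'` with
`v e' < 1` and `v e ≤ v e' ^ (2 ^ k)` and the hypothesis there is `f` with `v e' < v f < 1`. If
`v e' ≤ v f ^ 2` take `f`; otherwise take `e' / f` (`v f ^ 2 < v e'` gives
`v e' < (v e' / v f) ^ 2`). -/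
theorem halve {v : Valuation K Γ} (hno : ∀ e : K, e ≠ 0 → v e < 1 → ∃ f : K, v e < v f ∧ v f < 1)
    (e : K) (he0 : e ≠ 0) (he : v e < 1) (k : ℕ) :
    ∃ e' : K, e' ≠ 0 ∧ v e' < 1 ∧ v e ≤ v e' ^ (2 ^ k) := by
  induction k with
  | zero => exact ⟨e, he0, he, by rw [pow_zero, pow_one]⟩
  | succ k ih =>
    obtain ⟨e', h0, h1, h2⟩ := ih
    obtain ⟨f, hf1, hf2⟩ := hno e' h0 h1
    have hv0 : v e' ≠ 0 := (Valuation.ne_zero_iff v).2 h0
    have hf0 : v f ≠ 0 := fun h => by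
      rw [h] at hf1
      exact not_lt_zero' hf1
    have hfne : f ≠ 0 := (Valuation.ne_zero_iff v).1 hf0
    by_cases h3 : v e' ≤ v f ^ 2
    · refine ⟨f, hfne, hf2, h2.trans ?_⟩
      calc v e' ^ 2 ^ k ≤ (v f ^ 2) ^ 2 ^ k := pow_le_pow_left₀ zero_le h3 _
        _ = v f ^ 2 ^ (k + 1) := by rw [← pow_mul, pow_succ, mul_comm]
    · rw [not_le] at h3
      have hfp : 0 < v f := zero_lt_iff.2 hf0
      have hep : 0 < v e' := zero_lt_iff.2 hv0
      refine ⟨e' / f, div_ne_zero h0 hfne, ?_, ?_⟩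
      · rw [map_div₀]
        exact (div_lt_one₀ hfp).2 hf1
      · have h4 : v e' ≤ v (e' / f) ^ 2 := by
          rw [map_div₀, div_pow, le_div_iff₀ (pow_pos hfp 2), pow_two (v e')]
          exact mul_le_mul_right h3.le _
        refine h2.trans ?_
        calc v e' ^ 2 ^ k ≤ (v (e' / f) ^ 2) ^ 2 ^ k := pow_le_pow_left₀ zero_le h4 _
          _ = v (e' / f) ^ 2 ^ (k + 1) := by rw [← pow_mul, pow_succ, mul_comm]

/-- Module ra. PROOF. Otherwise `halve` (for `e = c⁻¹`, `2 ^ k > N`) gives `e'` with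
`v c⁻¹ ≤ v e' ^ (2 ^ k) < v e' ^ N ≤ v c⁻¹`. (`N ≥ 1`; if there is no maximal value `< 1` then
`hno` of `halve` holds.) -/
theorem exists_pi {v : Valuation K Γ} (c : K) (hc : 1 < v c) (N : ℕ) (hN : 0 < N)
    (h : ∀ e : K, v e < 1 → v c * v e ^ N ≤ 1) :
    ∃ pi : K, pi ≠ 0 ∧ v pi < 1 ∧ ∀ a : K, v a < 1 → v a ≤ v pi := by
  by_contra hcon
  push Not at hcon
  have hc0 : c ≠ 0 := by
    rintro rfl
    rw [map_zero] at hc
    exact not_lt_zero' hc
  have hno : ∀ e : K, e ≠ 0 → v e < 1 → ∃ f : K, v e < v f ∧ v f < 1 := by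
    intro e he0 he
    obtain ⟨a, ha1, ha2⟩ := hcon e he0 he
    exact ⟨a, ha2, ha1⟩
  have hci : v c⁻¹ < 1 := by
    rw [map_inv₀]
    exact inv_lt_one_of_one_lt₀ hc
  obtain ⟨k, hk⟩ : ∃ k : ℕ, N < 2 ^ k := ⟨N, Nat.lt_two_pow_self⟩
  obtain ⟨e', he0, he1, he2⟩ := halve hno c⁻¹ (inv_ne_zero hc0) hci k
  have hep : 0 < v e' := zero_lt_iff.2 ((Valuation.ne_zero_iff v).2 he0)
  have h1 : v e' ^ 2 ^ k < v e' ^ N := pow_lt_pow_right_of_lt_one₀ hep he1 hk
  have h2 := h e' he1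
  have h3 : v e' ^ N ≤ v c⁻¹ := by
    rw [map_inv₀, le_inv_comm₀ (pow_pos hep N) (zero_lt_one.trans hc)]
    rw [← one_div, le_div_iff₀ (pow_pos hep N)]
    exact h2
  exact absurd (he2.trans_lt (h1.trans_le h3)) (lt_irrefl _)

/-- Module ra. PROOF. Induction on `N`: if `v c = 1`, `j = 0`. If `v c > 1`, then `v c⁻¹ ≤ v pi`,
so `1 ≤ v (c * pi)`; apply the induction hypothesis to `c * pi` and `N - 1` (`N = 0` is impossible
if `v c > 1`). -/
theorem exists_pow {v : Valuation K Γ} (pi : K) (h0 : pi ≠ 0) (hpi : v pi < 1)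
    (hmax : ∀ a : K, v a < 1 → v a ≤ v pi) (N : ℕ) :
    ∀ c : K, 1 ≤ v c → v c * v pi ^ N ≤ 1 → ∃ j : ℕ, v c * v pi ^ j = 1 := by
  induction N with
  | zero =>
    intro c h1 h2
    rw [pow_zero, mul_one] at h2
    exact ⟨0, by rw [pow_zero, mul_one]; exact le_antisymm h2 h1⟩
  | succ N ih =>
    intro c h1 h2
    rcases h1.eq_or_lt with h | h
    · exact ⟨0, by rw [pow_zero, mul_one]; exact h.symm⟩
    · have hcp : 0 < v c := zero_lt_one.trans h
      have h3 : v c⁻¹ ≤ v pi := hmax _ (by rw [map_inv₀]; exact inv_lt_one_of_one_lt₀ h)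
      have h4 : 1 ≤ v (c * pi) := by
        rw [map_mul]
        rw [map_inv₀] at h3
        calc (1 : Γ) = v c * (v c)⁻¹ := (mul_inv_cancel₀ hcp.ne').symm
          _ ≤ v c * v pi := mul_le_mul_right h3 _
      obtain ⟨j, hj⟩ := ih (c * pi) h4 (by
        rw [map_mul, mul_assoc, ← pow_succ']
        exact h2)
      refine ⟨j + 1, ?_⟩
      rw [map_mul, mul_assoc, ← pow_succ'] at hj
      exact hj
/- END ra -/

/- MODULE rb -/
/-- Module rb. PROOF. Two nonzero elements `A`, `a * B` with `v A ^ n = v a * v B ^ n` give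
`v (A / B) ^ n = v a`. So the values of `A ^ n` and `a * B ^ n` are different (or both zero):
`Valuation.map_add_eq_of_lt_left` etc. -/
theorem two_val {v : Valuation K Γ} (n : ℕ) (hn : 0 < n) (a : K) (ha : a ≠ 0)
    (hno : ¬ ∃ b : K, v b ^ n = v a) (A B : K) :
    v (A ^ n + a * B ^ n) = max (v A ^ n) (v a * v B ^ n) := by
  have e1 : v (A ^ n) = v A ^ n := map_pow v A n
  have e2 : v (a * B ^ n) = v a * v B ^ n := by rw [map_mul, map_pow]
  rcases lt_trichotomy (v (A ^ n)) (v (a * B ^ n)) with h | h | h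
  · rw [Valuation.map_add_eq_of_lt_right v h, ← e1, ← e2, max_eq_right h.le]
  · by_cases hB : B = 0
    · subst hB
      have h0 : (0 : K) ^ n = 0 := zero_pow hn.ne'
      rw [h0, mul_zero, map_zero] at h
      have hA : A ^ n = 0 := (v.zero_iff).1 h
      have h1 : v (0 : K) = 0 := map_zero v
      rw [hA, h0, mul_zero, add_zero, h1, zero_pow hn.ne', mul_zero, ← e1, hA, h1, max_self]
    · exfalso
      refine hno ⟨A / B, ?_⟩
      have hvB : v B ≠ 0 := (v.ne_zero_iff).2 hB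
      rw [map_div₀, div_pow, ← e1, h, e2, mul_div_assoc, div_self (pow_ne_zero n hvB), mul_one]
  · rw [Valuation.map_add_eq_of_lt_left v h, ← e1, ← e2, max_eq_left h.le]

/-- Module rb. The optimisation. PROOF. Let `P (X, Y) = A ^ n + a * B ^ n` with
`A = a⁻¹ * (X * Y - a)`, `B = X ^ n + a * Y ^ n`. By `two_val` (twice)
`v P = max (v A ^ n) (v a * (max (v X ^ n) (v a * v Y ^ n)) ^ n)`. Let `(X, Y)` be a minimum over
integral pairs (`Ext.min` for `Fin 2`, or `Ext`). At `(a, 1)` (`A = 0`) the value is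
`≤ v a < 1`. So `v A < 1`, `v (X Y - a) < v a`, `v X * v Y = v a`, and for every `X'` with
`v a ≤ v X' ≤ 1` the pair `(X', a / X')` has `A = 0`, so
`max (v X ^ n) (v a * v Y ^ n) ≤ max (v X' ^ n) (v a * v (a / X') ^ n)`. -/
theorem opt {v : Valuation K Γ} (hv : Ext v) (n : ℕ) (hn : 0 < n) (a : K) (ha : a ≠ 0)
    (ha1 : v a < 1) (hno : ¬ ∃ b : K, v b ^ n = v a) :
    ∃ X : K, v a ≤ v X ∧ v X ≤ 1 ∧ ∀ X' : K, v a ≤ v X' → v X' ≤ 1 →
      max (v X ^ n) (v a * v (a / X) ^ n) ≤ max (v X' ^ n) (v a * v (a / X') ^ n) := by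
  have hva : v a ≠ 0 := (v.ne_zero_iff).2 ha
  have hva0 : 0 < v a := zero_lt_iff.2 hva
  obtain ⟨z, hz1, hz2⟩ := hv 2 ((MvPolynomial.C a⁻¹ * (MvPolynomial.X 0 * MvPolynomial.X 1 - MvPolynomial.C a)) ^ n +
    MvPolynomial.C a * (MvPolynomial.X 0 ^ n + MvPolynomial.C a * MvPolynomial.X 1 ^ n) ^ n)
  have hev : ∀ y : Fin 2 → K, v (MvPolynomial.eval y ((MvPolynomial.C a⁻¹ * (MvPolynomial.X 0 * MvPolynomial.X 1 - MvPolynomial.C a)) ^ n +
      MvPolynomial.C a * (MvPolynomial.X 0 ^ n + MvPolynomial.C a * MvPolynomial.X 1 ^ n) ^ n)) =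
      max (v (a⁻¹ * (y 0 * y 1 - a)) ^ n) (v a * (max (v (y 0) ^ n) (v a * v (y 1) ^ n)) ^ n) := by
    intro y
    have h1 : MvPolynomial.eval y ((MvPolynomial.C a⁻¹ * (MvPolynomial.X 0 * MvPolynomial.X 1 - MvPolynomial.C a)) ^ n +
        MvPolynomial.C a * (MvPolynomial.X 0 ^ n + MvPolynomial.C a * MvPolynomial.X 1 ^ n) ^ n) =
        (a⁻¹ * (y 0 * y 1 - a)) ^ n + a * (y 0 ^ n + a * y 1 ^ n) ^ n := by
      simp only [map_add, map_mul, map_pow, map_sub, MvPolynomial.eval_C, MvPolynomial.eval_X]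
    rw [h1, two_val n hn a ha hno, two_val n hn a ha hno]
  set X := z 0 with hX
  set Y := z 1 with hY
  have hzz := hev z
  rw [← hX, ← hY] at hzz
  -- comparison with the pair `(X', a / X')`
  have hcmp : ∀ X' : K, v a ≤ v X' → v X' ≤ 1 →
      max (v (a⁻¹ * (X * Y - a)) ^ n) (v a * (max (v X ^ n) (v a * v Y ^ n)) ^ n) ≤
        v a * (max (v X' ^ n) (v a * v (a / X') ^ n)) ^ n := by
    intro X' h1 h2
    have hX0 : v X' ≠ 0 := fun h => hva (le_antisymm (h ▸ h1) zero_le)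
    have hX' : X' ≠ 0 := (v.ne_zero_iff).1 hX0
    have h3 := hz2 ![X', a / X'] (by
      intro i
      fin_cases i
      · exact h2
      · show v (a / X') ≤ 1
        rw [map_div₀]
        exact (div_le_one₀ (zero_lt_iff.2 hX0)).2 h1)
    rw [hzz, hev] at h3
    refine le_trans h3 (le_of_eq ?_)
    have h4 : a⁻¹ * ((![X', a / X'] : Fin 2 → K) 0 * (![X', a / X'] : Fin 2 → K) 1 - a) = 0 := by
      simp only [Matrix.cons_val_zero, Matrix.cons_val_one]
      field_simp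
      ring
    rw [h4, map_zero, zero_pow hn.ne']
    exact max_eq_right zero_le
  have h1 := hcmp a le_rfl ha1.le
  have h2 : v a * (max (v a ^ n) (v a * v (a / a) ^ n)) ^ n < 1 := by
    have h3 : max (v a ^ n) (v a * v (a / a) ^ n) ≤ 1 := by
      rw [div_self ha, map_one, one_pow, mul_one]
      exact max_le (pow_le_one₀ zero_le ha1.le) ha1.le
    exact mul_lt_one_of_nonneg_of_lt_one_left zero_le ha1 (pow_le_one₀ zero_le h3)
  have h3 : v (a⁻¹ * (X * Y - a)) < 1 := by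
    have h4 := lt_of_le_of_lt (le_trans (le_max_left _ _) h1) h2
    by_contra hcon
    exact absurd h4 (not_lt.2 (one_le_pow₀ (not_lt.1 hcon)))
  have h4 : v (X * Y - a) < v a := by
    rw [map_mul, map_inv₀] at h3
    have h5 := mul_lt_mul_of_pos_left h3 hva0
    rwa [mul_inv_cancel_left₀ hva, mul_one] at h5
  have h5 : v X * v Y = v a := by
    have h6 : X * Y = (X * Y - a) + a := by ring
    rw [← map_mul, h6]
    exact Valuation.map_add_eq_of_lt_right v h4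
  have hY1 : v Y ≤ 1 := hz1 1
  have hX1 : v X ≤ 1 := hz1 0
  have hvX : v X ≠ 0 := by
    intro h
    rw [h, zero_mul] at h5
    exact hva h5.symm
  have hYX : v Y = v (a / X) := by
    rw [map_div₀, ← h5, mul_comm, mul_div_assoc, div_self hvX, mul_one]
  refine ⟨X, ?_, hX1, fun X' h6 h7 => ?_⟩
  · rw [← h5]
    exact mul_le_of_le_one_right' hY1
  · have h8 := le_trans (le_max_right _ _) (hcmp X' h6 h7)
    have h9 := (mul_le_mul_iff_right₀ hva0).1 h8
    have h10 := (pow_le_pow_iff_left₀ zero_le zero_le hn.ne').1 h9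
    rwa [hYX] at h10
/- END rb -/

/- MODULE rc -/
/-- the last step: choose `pi` -/
private theorem rc_fin {v : Valuation K Γ} (c : K) (hc : 1 < v c) (N : ℕ) (hN : 0 < N)
    (h : ∀ e : K, e ≠ 0 → v e < 1 → v c * v e ^ N ≤ 1) :
    ∃ pi : K, pi ≠ 0 ∧ v pi < 1 ∧ (∀ a : K, v a < 1 → v a ≤ v pi) ∧ ∃ j : ℕ, v c * v pi ^ j = 1 := by
  have h' : ∀ e : K, v e < 1 → v c * v e ^ N ≤ 1 := by
    intro e he
    by_cases h0 : e = 0
    · rw [h0, map_zero, zero_pow hN.ne', mul_zero]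
      exact zero_le
    · exact h e h0 he
  obtain ⟨pi, h0, h1, h2⟩ := exists_pi c hc N hN h'
  obtain ⟨j, hj⟩ := exists_pow pi h0 h1 h2 N c hc.le (h' pi h1)
  exact ⟨pi, h0, h1, h2, j, hj⟩

private theorem rc_eq {p q : Γ} (n : ℕ) : p * (p / q) ^ n = p ^ (n + 1) / q ^ n := by
  rw [div_pow, ← mul_div_assoc, ← pow_succ']

private theorem rc_lt {p e : Γ} {n : ℕ} (hp : p ≠ 0) (he : e < 1) (hn : n ≠ 0) : p * e ^ n < p := by
  have h1 := mul_lt_mul_of_pos_left (pow_lt_one₀ zero_le he hn) (zero_lt_iff.2 hp)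
  rwa [mul_one] at h1

/-- Module rc. PROOF. Let `X` be as in `opt`, `X ≠ 0`.
`v X ^ n = v a * v (a / X) ^ n` is impossible: then `v (X ^ 2 / a) ^ n = v a`.
Case `v X ^ n > v a * v (a / X) ^ n`: put `c = X ^ (2 n) / a ^ (n + 1)`, `v c > 1`. Claim
`v c * v e ^ (2 n) ≤ 1` for `v e < 1`: `e = 0` trivial. If `v a ≤ v (X e)`, `opt` for `X' = X e`
gives `v X ^ n ≤ v a * v (a / (X e)) ^ n` (the other term is smaller than `v X ^ n`), i.e.
`v c * v e ^ n ≤ 1`, and `v e ^ (2 n) ≤ v e ^ n`. If `v (X e) < v a`: `v X ^ (2n) * v e ^ (2n) ≤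
v a ^ (2n) ≤ v a ^ (n+1)`. `exists_pi` gives `pi`, `exists_pow` gives `j` with
`v c * v pi ^ j = 1`, i.e. `v (X ^ 2 / a) ^ n * v pi ^ j = v a`.
Case `v X ^ n < v a * v (a / X) ^ n`: put `c = a ^ (n + 1) / X ^ (2 n)`; claim
`v c * v e ^ (2 n) ≤ 1`: if `v X ≤ v e`, `opt` for `X' = X / e` gives
`v a * v (a / X) ^ n ≤ v X ^ n / v e ^ n`; if `v e < v X`: `v c * v e ^ (2 n) ≤ v a ^ (n+1) ≤ 1`.
`exists_pow`: `v c * v pi ^ j = 1`, i.e. `v a ^ (n+1) * v pi ^ j = v X ^ (2 n)`, so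
`v a = v (X ^ 2 / a * pi⁻¹ ^ j) ^ n * v pi ^ ((n - 1) * j)`. -/
theorem lemG1 {v : Valuation K Γ} (hv : Ext v) (n : ℕ) (hn : 0 < n) (a : K) (ha : a ≠ 0)
    (ha1 : v a < 1) (hno : ¬ ∃ b : K, v b ^ n = v a) :
    ∃ pi : K, pi ≠ 0 ∧ v pi < 1 ∧ (∀ a : K, v a < 1 → v a ≤ v pi) ∧
      ∃ (b : K) (j : ℕ), b ≠ 0 ∧ v b ^ n * v pi ^ j = v a := by
  obtain ⟨X, hX1, hX2, hopt⟩ := opt hv n hn a ha ha1 hno
  have hva : v a ≠ 0 := (v.ne_zero_iff).2 ha
  have hva0 : 0 < v a := zero_lt_iff.2 hva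
  have hvX : v X ≠ 0 := fun h => hva (le_antisymm (h ▸ hX1) zero_le)
  have hvX0 : 0 < v X := zero_lt_iff.2 hvX
  have hX : X ≠ 0 := (v.ne_zero_iff).1 hvX
  have hXn : v X ^ n ≠ 0 := pow_ne_zero n hvX
  have hXn0 : 0 < v X ^ n := zero_lt_iff.2 hXn
  have hE : v a ^ (n + 1) ≠ 0 := pow_ne_zero _ hva
  have hE0 : 0 < v a ^ (n + 1) := zero_lt_iff.2 hE
  have hp2 : 2 * n = n + n := by ring
  simp only [map_div₀, rc_eq] at hopt
  rcases lt_trichotomy (v X ^ n) (v a ^ (n + 1) / v X ^ n) with h | h | h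
  · -- case B
    have h' : v X ^ (2 * n) < v a ^ (n + 1) := by
      rw [hp2, pow_add]
      exact (lt_div_iff₀ hXn0).1 h
    have hc : 1 < v (a ^ (n + 1) / X ^ (2 * n)) := by
      rw [map_div₀, map_pow, map_pow, one_lt_div₀ (pow_pos hvX0 _)]
      exact h'
    obtain ⟨pi, p0, p1, p2, j, hj⟩ := rc_fin _ hc (2 * n) (by omega) (by
      intro e he0 he1
      have hve : v e ≠ 0 := (v.ne_zero_iff).2 he0
      have hve0 : 0 < v e := zero_lt_iff.2 hve
      have hen : v e ^ n ≤ 1 := pow_le_one₀ zero_le he1.le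
      rw [map_div₀, map_pow, map_pow, div_mul_eq_mul_div, div_le_one₀ (pow_pos hvX0 _)]
      rcases le_or_gt (v X) (v e) with h1 | h1
      · have h2 := hopt (X / e) (by
          rw [map_div₀, le_div_iff₀ hve0]
          exact le_trans (mul_le_of_le_one_right' he1.le) hX1) (by
          rw [map_div₀]
          exact (div_le_one₀ hve0).2 h1)
        rw [map_div₀] at h2
        have h3 := le_trans (le_max_right _ _) h2
        have h5 : v a ^ (n + 1) / v X ^ n ≤ (v X / v e) ^ n := by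
          rcases le_max_iff.1 h3 with h6 | h6
          · exact h6
          · exfalso
            refine absurd h6 (not_le.2 ?_)
            have h7 : v a ^ (n + 1) / (v X / v e) ^ n = v a ^ (n + 1) / v X ^ n * v e ^ n := by
              rw [div_pow, div_div_eq_mul_div, mul_div_right_comm]
            rw [h7]
            exact rc_lt (div_ne_zero hE hXn) he1 hn.ne'
        rw [div_pow, div_le_div_iff₀ hXn0 (pow_pos hve0 n), ← pow_add, ← hp2] at h5
        refine le_trans ?_ h5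
        rw [hp2, pow_add (v e), ← mul_assoc]
        exact mul_le_of_le_one_right' hen
      · have h2 : v e ^ (2 * n) ≤ v X ^ (2 * n) := pow_le_pow_left' h1.le _
        exact le_trans (mul_le_of_le_one_left' (pow_le_one₀ zero_le ha1.le)) h2)
    refine ⟨pi, p0, p1, p2, X ^ 2 / a * (pi ^ j)⁻¹, (n - 1) * j, ?_, ?_⟩
    · exact mul_ne_zero (div_ne_zero (pow_ne_zero 2 hX) ha) (inv_ne_zero (pow_ne_zero j p0))
    · have hvp : v pi ≠ 0 := (v.ne_zero_iff).2 p0
      rw [map_div₀, map_pow, map_pow, div_mul_eq_mul_div, div_eq_one_iff_eq (pow_ne_zero _ hvX)] at hj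
      rw [map_mul, map_div₀, map_inv₀, map_pow, map_pow, mul_pow, div_pow, inv_pow, ← pow_mul, ← pow_mul]
      rw [← hj]
      have h8 : v pi ^ (j * n) = v pi ^ j * v pi ^ ((n - 1) * j) := by
        rw [← pow_add]
        congr 1
        obtain ⟨k, rfl⟩ : ∃ k, n = k + 1 := ⟨n - 1, by omega⟩
        rw [Nat.add_sub_cancel]
        ring
      rw [h8]
      have h9 : v pi ^ j ≠ 0 := pow_ne_zero _ hvp
      have h10 : v pi ^ ((n - 1) * j) ≠ 0 := pow_ne_zero _ hvp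
      have h11 : v a ^ n ≠ 0 := pow_ne_zero _ hva
      rw [pow_succ]
      field_simp
  · exfalso
    refine hno ⟨X ^ 2 / a, ?_⟩
    rw [eq_div_iff hXn, ← pow_add, ← hp2] at h
    rw [map_div₀, map_pow, div_pow, ← pow_mul, h, pow_succ, mul_comm, mul_div_assoc, div_self (pow_ne_zero n hva), mul_one]
  · -- case A
    have h' : v a ^ (n + 1) < v X ^ (2 * n) := by
      rw [hp2, pow_add (v X)]
      exact (div_lt_iff₀ hXn0).1 h
    have hc : 1 < v (X ^ (2 * n) / a ^ (n + 1)) := by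
      rw [map_div₀, map_pow, map_pow, one_lt_div₀ hE0]
      exact h'
    obtain ⟨pi, p0, p1, p2, j, hj⟩ := rc_fin _ hc (2 * n) (by omega) (by
      intro e he0 he1
      have hve : v e ≠ 0 := (v.ne_zero_iff).2 he0
      have hve0 : 0 < v e := zero_lt_iff.2 hve
      have hen : v e ^ n ≤ 1 := pow_le_one₀ zero_le he1.le
      rw [map_div₀, map_pow, map_pow, div_mul_eq_mul_div, div_le_one₀ hE0]
      rcases le_or_gt (v a) (v (X * e)) with h1 | h1
      · have h2 := hopt (X * e) h1 (by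
          rw [map_mul]
          exact mul_le_one' hX2 he1.le)
        rw [map_mul] at h2
        have h3 := le_trans (le_max_left _ _) h2
        have h5 : v X ^ n ≤ v a ^ (n + 1) / (v X * v e) ^ n := by
          rcases le_max_iff.1 h3 with h6 | h6
          · exfalso
            refine absurd h6 (not_le.2 ?_)
            rw [mul_pow]
            exact rc_lt hXn he1 hn.ne'
          · exact h6
        rw [le_div_iff₀ (pow_pos (mul_pos hvX0 hve0) n), mul_pow, ← mul_assoc, ← pow_add, ← hp2] at h5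
        refine le_trans ?_ h5
        rw [hp2, pow_add (v e), ← mul_assoc]
        exact mul_le_of_le_one_right' hen
      · rw [map_mul] at h1
        have h2 : (v X * v e) ^ (2 * n) ≤ v a ^ (2 * n) := pow_le_pow_left' h1.le _
        rw [mul_pow] at h2
        refine le_trans h2 ?_
        have h3 : 2 * n = (n + 1) + (n - 1) := by omega
        rw [h3, pow_add]
        exact mul_le_of_le_one_right' (pow_le_one₀ zero_le ha1.le))
    refine ⟨pi, p0, p1, p2, X ^ 2 / a, j, div_ne_zero (pow_ne_zero 2 hX) ha, ?_⟩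
    rw [map_div₀, map_pow, map_pow, div_mul_eq_mul_div, div_eq_one_iff_eq hE] at hj
    rw [map_div₀, map_pow, div_pow, ← pow_mul, div_mul_eq_mul_div, hj, pow_succ, mul_comm, mul_div_assoc,
      div_self (pow_ne_zero n hva), mul_one]
/- END rc -/

/- MODULE rd -/
/-- Module rd. The general case. PROOF. `n = 1` is impossible (`b = a`), `v a = 1` too (`b = 1`).
If `v a > 1` apply `lemG1` to `a * a⁻¹ ^ n`, whose value is `< 1`; `v b ^ n = v (a * a⁻¹ ^ n)`
gives `v (b * a) ^ n = v a`. -/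
theorem lemG {v : Valuation K Γ} (hv : Ext v) (n : ℕ) (hn : 0 < n) (a : K) (ha : a ≠ 0)
    (hno : ¬ ∃ b : K, v b ^ n = v a) :
    ∃ pi : K, pi ≠ 0 ∧ v pi < 1 ∧ (∀ a : K, v a < 1 → v a ≤ v pi) ∧
      ∃ (b : K) (j : ℕ), b ≠ 0 ∧ v b ^ n * v pi ^ j = v a := by
  have ha0 : v a ≠ 0 := (Valuation.ne_zero_iff v).2 ha
  have hn1 : n ≠ 1 := by
    rintro rfl
    exact hno ⟨a, pow_one _⟩
  have hn2 : 2 ≤ n := by omega
  rcases lt_trichotomy (v a) 1 with h | h | h
  · exact lemG1 hv n hn a ha h hno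
  · exact absurd ⟨1, by rw [map_one, one_pow, h]⟩ hno
  · have hinv : v a⁻¹ < 1 := by
      rw [map_inv₀]
      exact inv_lt_one_of_one_lt₀ h
    have hval : v (a * a⁻¹ ^ n) < 1 := by
      obtain ⟨m, rfl⟩ : ∃ m, n = m + 2 := ⟨n - 2, by omega⟩
      have h2 : a * a⁻¹ ^ (m + 2) = a⁻¹ ^ (m + 1) := by
        rw [pow_succ a⁻¹ (m + 1), mul_comm (a⁻¹ ^ (m + 1)) a⁻¹, ← mul_assoc,
          mul_inv_cancel₀ ha, one_mul]
      rw [h2, map_pow]
      exact pow_lt_one₀ zero_le hinv (by omega)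
    have hne : a * a⁻¹ ^ n ≠ 0 := mul_ne_zero ha (pow_ne_zero _ (inv_ne_zero ha))
    have hroot : ∀ b : K, v b ^ n * 1 = v (a * a⁻¹ ^ n) → v (b * a) ^ n = v a := by
      intro b hb
      rw [mul_one] at hb
      rw [map_mul, mul_pow, hb, map_mul, map_pow, map_inv₀, mul_assoc, ← mul_pow,
        inv_mul_cancel₀ ha0, one_pow, mul_one]
    obtain ⟨pi, h0, hpi, hmax, b, j, hb, hbj⟩ := lemG1 hv n hn (a * a⁻¹ ^ n) hne hval (by
      rintro ⟨b, hb⟩
      exact hno ⟨b * a, hroot b (by rw [mul_one]; exact hb)⟩)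
    refine ⟨pi, h0, hpi, hmax, b * a, j, mul_ne_zero hb ha, ?_⟩
    rw [map_mul, mul_pow, mul_assoc, mul_comm (v a ^ n) (v pi ^ j), ← mul_assoc, hbj, map_mul,
      map_pow, map_inv₀, mul_assoc, ← mul_pow, inv_mul_cancel₀ ha0, one_pow, mul_one]

/-- Module rd. The value group of an extremal field is divisible or a `ℤ`-group. PROOF. If the
first alternative fails for some `a`, `m`, `lemG` gives `pi`. For arbitrary `a`, `m`: if
`v b ^ m = v a` take `j = 0`; otherwise `lemG` again, with `pi'` of the same value as `pi`. -/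
theorem dich {v : Valuation K Γ} (hv : Ext v) :
    (∀ a : K, a ≠ 0 → ∀ m : ℕ, 0 < m → ∃ b : K, v b ^ m = v a) ∨
      ∃ pi : K, pi ≠ 0 ∧ v pi < 1 ∧ (∀ a : K, v a < 1 → v a ≤ v pi) ∧
        ∀ a : K, a ≠ 0 → ∀ m : ℕ, 0 < m →
          ∃ (b : K) (j : ℕ), b ≠ 0 ∧ v b ^ m * v pi ^ j = v a := by
  by_cases H : ∀ a : K, a ≠ 0 → ∀ m : ℕ, 0 < m → ∃ b : K, v b ^ m = v a
  · exact Or.inl H
  · right
    push Not at H
    obtain ⟨a, ha, m, hm, hno⟩ := H
    obtain ⟨pi, h0, hpi, hmax, -⟩ := lemG hv m hm a ha (by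
      rintro ⟨b, hb⟩
      exact hno b hb)
    refine ⟨pi, h0, hpi, hmax, ?_⟩
    intro a' ha' m' hm'
    by_cases hr : ∃ b : K, v b ^ m' = v a'
    · obtain ⟨b, hb⟩ := hr
      refine ⟨b, 0, ?_, by rw [pow_zero, mul_one, hb]⟩
      rintro rfl
      rw [map_zero, zero_pow hm'.ne'] at hb
      exact (Valuation.ne_zero_iff v).2 ha' hb.symm
    · obtain ⟨pi', h0', hpi', hmax', b, j, hb, hbj⟩ := lemG hv m' hm' a' ha' hr
      refine ⟨b, j, hb, ?_⟩
      have : v pi' = v pi := le_antisymm (hmax _ hpi') (hmax' _ hpi)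
      rw [← this]
      exact hbj
/- END rd -/

end Pool.Agent.Xtr
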