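import Pool.Agent.Xtr.Pf

set_option autoImplicit false

namespace Pool.Agent.Xtr

variable {K : Type*} [Field K] {Γ : Type*} [LinearOrderedCommGroupWithZero Γ]

/- MODULE ha -/
/-- Module ha. PROOF. By `Ext.min` (for `n = 1`, or directly from `Ext`) let `m` with `v m ≤ 1`
minimise `v (1 + m + e2 m^2 + e3 m^3)`, call the value `r` (`v r ≤ 1`).
If `r ≠ 0`, then `m - r` is integral and the polynomial at `m - r` equals
`- r (2 e2 m + 3 e3 m^2) + r^2 (e2 + 3 e3 m) - r^3 e3`, of value `< v r`. Contradiction. -/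
theorem hen3_aux {v : Valuation K Γ} (hv : Ext v) (e2 e3 : K) (h2 : v e2 < 1) (h3 : v e3 < 1) :
    ∃ m : K, v m ≤ 1 ∧ 1 + m + e2 * m ^ 2 + e3 * m ^ 3 = 0 := by
  have hPF : PF (fun y : Fin 1 → K => 1 + y 0 + e2 * (y 0 * y 0) + e3 * (y 0 * (y 0 * y 0))) :=
    PF.add (PF.add (PF.add (PF.const 1) (PF.coord 0))
      (PF.mul (PF.const e2) (PF.mul (PF.coord 0) (PF.coord 0))))
      (PF.mul (PF.const e3) (PF.mul (PF.coord 0) (PF.mul (PF.coord 0) (PF.coord 0))))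
  obtain ⟨a, ha, hmin⟩ := Ext.min hv hPF
  have hm : a 0 ∈ v.integer := ha 0
  have h2' : e2 ∈ v.integer := h2.le
  have h3' : e3 ∈ v.integer := h3.le
  generalize a 0 = m at hm hmin
  refine ⟨m, hm, ?_⟩
  by_contra hr
  have hrO : 1 + m + e2 * m ^ 2 + e3 * m ^ 3 ∈ v.integer :=
    add_mem (add_mem (add_mem (one_mem _) hm) (mul_mem h2' (pow_mem hm 2)))
      (mul_mem h3' (pow_mem hm 3))
  have h1 := hmin (fun _ => m - (1 + m + e2 * m ^ 2 + e3 * m ^ 3)) (fun _ => sub_mem hm hrO)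
  have e1 : 1 + m + e2 * (m * m) + e3 * (m * (m * m)) =
      1 + m + e2 * m ^ 2 + e3 * m ^ 3 := by ring
  simp only [e1] at h1
  generalize hrr : 1 + m + e2 * m ^ 2 + e3 * m ^ 3 = r at h1 hr hrO
  have e2' : 1 + (m - r) + e2 * ((m - r) * (m - r)) + e3 * ((m - r) * ((m - r) * (m - r))) =
      r * (e2 * (r - 2 * m) + e3 * (3 * r * m - 3 * m ^ 2 - r ^ 2)) := by
    have : 1 = r - m - e2 * m ^ 2 - e3 * m ^ 3 := by
      rw [← hrr]
      ring
    rw [this]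
    ring
  rw [e2', map_mul] at h1
  have hlt : v (e2 * (r - 2 * m) + e3 * (3 * r * m - 3 * m ^ 2 - r ^ 2)) < 1 := by
    apply Valuation.map_add_lt
    · rw [map_mul]
      have : r - 2 * m ∈ v.integer := sub_mem hrO (mul_mem (ofNat_mem v.integer 2) hm)
      exact mul_lt_one_of_lt_of_le h2 this
    · rw [map_mul]
      have : 3 * r * m - 3 * m ^ 2 - r ^ 2 ∈ v.integer :=
        sub_mem (sub_mem (mul_mem (mul_mem (ofNat_mem v.integer 3) hrO) hm)
          (mul_mem (ofNat_mem v.integer 3) (pow_mem hm 2))) (pow_mem hrO 2)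
      exact mul_lt_one_of_lt_of_le h3 this
  have hvr : 0 < v r := zero_lt_iff.2 ((Valuation.ne_zero_iff v).2 hr)
  exact absurd h1 (not_le.2 (mul_lt_of_lt_one_right hvr hlt))

/-- Module ha. Hensel's lemma for polynomials of degree 3 (first slope of length one).
PROOF. `p0 = 0`: take `l = 0`. Otherwise `hen3_aux` with `e2 = p0 p2 / p1^2`,
`e3 = p0^2 p3 / p1^3` and `l = (p0 / p1) m`. -/
theorem hen3 {v : Valuation K Γ} (hv : Ext v) (p0 p1 p2 p3 : K) (h1 : p1 ≠ 0)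
    (h01 : v p0 ≤ v p1) (h02 : v (p0 * p2) < v (p1 ^ 2)) (h03 : v (p0 ^ 2 * p3) < v (p1 ^ 3)) :
    ∃ t : K, v t ≤ 1 ∧ p0 + p1 * t + p2 * t ^ 2 + p3 * t ^ 3 = 0 := by
  by_cases h0 : p0 = 0
  · refine ⟨0, by rw [map_zero]; exact zero_le', ?_⟩
    rw [h0]
    ring
  · have hv1 : 0 < v p1 := zero_lt_iff.2 ((Valuation.ne_zero_iff v).2 h1)
    obtain ⟨m, hm, hm0⟩ := hen3_aux hv (p0 * p2 / p1 ^ 2) (p0 ^ 2 * p3 / p1 ^ 3)
      (by
        rw [map_div₀]
        exact (div_lt_one₀ (by rw [map_pow]; exact pow_pos hv1 2)).2 h02)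
      (by
        rw [map_div₀]
        exact (div_lt_one₀ (by rw [map_pow]; exact pow_pos hv1 3)).2 h03)
    refine ⟨p0 / p1 * m, ?_, ?_⟩
    · rw [map_mul, map_div₀]
      exact mul_le_one' ((div_le_one₀ hv1).2 h01) hm
    · have : p0 + p1 * (p0 / p1 * m) + p2 * (p0 / p1 * m) ^ 2 + p3 * (p0 / p1 * m) ^ 3 =
          p0 * (1 + m + p0 * p2 / p1 ^ 2 * m ^ 2 + p0 ^ 2 * p3 / p1 ^ 3 * m ^ 3) := by
        field_simp
      rw [this, hm0, mul_zero]
/- END ha -/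

/- MODULE hb -/
private theorem hb_pow {n : ℕ} {g : (Fin n → K) → K} (hg : PF g) (q : ℕ) :
    PF (fun y => g y ^ q) := by
  induction q with
  | zero =>
    simp only [pow_zero]
    exact PF.const 1
  | succ q ih =>
    simp only [pow_succ]
    exact PF.mul ih hg

/-- Module hb. PROOF. Let `m` minimise `v (1 + m + e m^q)` over `v m ≤ 1` and let `r` be the value
at `m`. If `r ≠ 0` then, `r ↦ r^q` being additive (`sub_pow_char_pow` or `sub_pow_expChar_pow`),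
the value at `m - r` is `- e r^q`, and `v (e r^q) < v r` because `v r ≤ 1`, `q ≥ 1`. -/
theorem henq_aux {v : Valuation K Γ} (hv : Ext v) (p : ℕ) [Fact p.Prime] [CharP K p] (k : ℕ)
    (e : K) (he : v e < 1) : ∃ m : K, v m ≤ 1 ∧ 1 + m + e * m ^ (p ^ k) = 0 := by
  have hPF : PF (fun y : Fin 1 → K => 1 + y 0 + e * y 0 ^ (p ^ k)) :=
    PF.add (PF.add (PF.const 1) (PF.coord 0)) (PF.mul (PF.const e) (hb_pow (PF.coord 0) _))
  obtain ⟨a, ha, hmin⟩ := Ext.min hv hPF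
  have hm : a 0 ∈ v.integer := ha 0
  have he' : e ∈ v.integer := he.le
  generalize a 0 = m at hm hmin
  refine ⟨m, hm, ?_⟩
  by_contra hr
  have hrO : 1 + m + e * m ^ (p ^ k) ∈ v.integer :=
    add_mem (add_mem (one_mem _) hm) (mul_mem he' (pow_mem hm _))
  have h1 := hmin (fun _ => m - (1 + m + e * m ^ (p ^ k))) (fun _ => sub_mem hm hrO)
  generalize hrr : 1 + m + e * m ^ (p ^ k) = r at h1 hr hrO
  have e2' : 1 + (m - r) + e * (m - r) ^ (p ^ k) = -(e * r ^ (p ^ k)) := by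
    have : 1 = r - m - e * m ^ (p ^ k) := by
      rw [← hrr]
      ring
    rw [sub_pow_char_pow, this]
    ring
  rw [e2', Valuation.map_neg, map_mul, map_pow] at h1
  have hvr : 0 < v r := zero_lt_iff.2 ((Valuation.ne_zero_iff v).2 hr)
  have hq : p ^ k ≠ 0 := pow_ne_zero _ (Fact.out : p.Prime).ne_zero
  have h2 : v r ^ (p ^ k) ≤ v r := pow_le_of_le_one zero_le' hrO hq
  have h3 : v e * v r ^ (p ^ k) ≤ v e * v r := mul_le_mul_right h2 _
  exact absurd (h1.trans h3) (not_le.2 (mul_lt_of_lt_one_left hvr he))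

/-- Module hb. PROOF. `henq_aux` with `e = c / l^q`, `t = m / l`. -/
theorem henq {v : Valuation K Γ} (hv : Ext v) (p : ℕ) [Fact p.Prime] [CharP K p] (k : ℕ)
    (l c : K) (hl : 1 ≤ v l) (hc : v c < v l ^ (p ^ k)) :
    ∃ t : K, v t ≤ 1 ∧ 1 + l * t + c * t ^ (p ^ k) = 0 := by
  have hv1 : 0 < v l := lt_of_lt_of_le zero_lt_one hl
  have hl0 : l ≠ 0 := (Valuation.ne_zero_iff v).1 hv1.ne'
  obtain ⟨m, hm, hm0⟩ := henq_aux hv p k (c / l ^ (p ^ k)) (by
    rw [map_div₀, map_pow]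
    exact (div_lt_one₀ (pow_pos hv1 _)).2 hc)
  refine ⟨m / l, ?_, ?_⟩
  · rw [map_div₀]
    exact (div_le_one₀ hv1).2 (hm.trans hl)
  · rw [← hm0, div_pow]
    field_simp
/- END hb -/

end Pool.Agent.Xtr
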