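import Pool.Agent.Xtr.Mix

set_option autoImplicit false

namespace Pool.Agent.Xtr

variable {K : Type*} [Field K] {Γ : Type*} [LinearOrderedCommGroupWithZero Γ]
  {D : Type*} [LinearOrderedCommGroupWithZero D] {n : ℕ}

/- MODULE va -/
/-- Module va. -/
theorem Ivec.add {v : Valuation K Γ} {u u' : Fin n → K} (h : Ivec v u) (h' : Ivec v u') :
    Ivec v (u + u') := by
  intro i
  exact (v.map_add (u i) (u' i)).trans (max_le (h i) (h' i))

/-- Module va. -/
theorem Ivec.smul {v : Valuation K Γ} {u : Fin n → K} (h : Ivec v u) {t : K} (ht : v t ≤ 1) :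
    Ivec v (t • u) := by
  intro i
  rw [Pi.smul_apply, smul_eq_mul, map_mul]
  exact mul_le_one' ht (h i)

/-- Module va. -/
theorem Ivec.sum {v : Valuation K Γ} {ι : Type*} (s : Finset ι) (u : ι → Fin n → K)
    (h : ∀ i ∈ s, Ivec v (u i)) : Ivec v (∑ i ∈ s, u i) := by
  intro i
  rw [Finset.sum_apply]
  exact Valuation.map_sum_le v fun j hj => h j hj i

/-- Module va. The cubic function on the plane spanned by `u` and `u'`. PROOF. Linearity
(`map_add`, `map_smul`, `LinearMap.add_apply`, `LinearMap.smul_apply`), `ring`. -/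
theorem fc_plane (l : (Fin n → K) →ₗ[K] K) (Q : (Fin n → K) →ₗ[K] (Fin n → K) →ₗ[K] K)
    (T : (Fin n → K) →ₗ[K] (Fin n → K) →ₗ[K] (Fin n → K) →ₗ[K] K) (u u' : Fin n → K) (x y : K) :
    1 + l (x • u + y • u') + Q (x • u + y • u') (x • u + y • u')
        + T (x • u + y • u') (x • u + y • u') (x • u + y • u') =
      F9 (l u) (l u') (Q u u) (Q u u' + Q u' u) (Q u' u') (T u u u)
        (T u u u' + T u u' u + T u' u u) (T u u' u' + T u' u u' + T u' u' u) (T u' u' u') x y := by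
  simp only [map_add, map_smul, LinearMap.add_apply, LinearMap.smul_apply, smul_eq_mul, F9]
  ring
/- END va -/

/- MODULE vb -/
/-- Module vb. The vectors on which all parts are small form a submodule (sum).
PROOF. `fc_plane` and `mix` for the plane of `u`, `u'` (the hypothesis `h` of `mix` from `hf` and
`Ivec.add`, `Ivec.smul`); `Q (u+u') (u+u') = Q u u + (Q u u' + Q u' u) + Q u' u'` and the same for
`T`. -/
theorem gd_add {v : Valuation K Γ} {om : Valuation K D} (hv : Ext v) (hc : Crs v om)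
    (l : (Fin n → K) →ₗ[K] K) (Q : (Fin n → K) →ₗ[K] (Fin n → K) →ₗ[K] K)
    (T : (Fin n → K) →ₗ[K] (Fin n → K) →ₗ[K] (Fin n → K) →ₗ[K] K)
    (hf : ∀ u, Ivec v u → 1 ≤ v (1 + l u + Q u u + T u u u)) (u u' : Fin n → K)
    (hu : Ivec v u) (hu' : Ivec v u')
    (h1 : om (l u) ≤ 1) (h2 : om (Q u u) ≤ 1) (h3 : om (T u u u) ≤ 1)
    (h1' : om (l u') ≤ 1) (h2' : om (Q u' u') ≤ 1) (h3' : om (T u' u' u') ≤ 1) :
    om (l (u + u')) ≤ 1 ∧ om (Q (u + u') (u + u')) ≤ 1 ∧
      om (T (u + u') (u + u') (u + u')) ≤ 1 := by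
  have hm := mix hv hc (l u) (l u') (Q u u) (Q u u' + Q u' u) (Q u' u') (T u u u)
    (T u u u' + T u u' u + T u' u u) (T u u' u' + T u' u u' + T u' u' u) (T u' u' u')
    (by
      intro x y hx hy
      rw [← fc_plane]
      exact hf _ ((hu.smul hx).add (hu'.smul hy)))
    h1 h1' h2 h2' h3 h3'
  obtain ⟨hb, hg, hg'⟩ := hm
  have hadd : ∀ x y : K, om x ≤ 1 → om y ≤ 1 → om (x + y) ≤ 1 := fun x y hx hy =>
    (om.map_add x y).trans (max_le hx hy)
  refine ⟨?_, ?_, ?_⟩
  · rw [map_add]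
    exact hadd _ _ h1 h1'
  · have e : Q (u + u') (u + u') = Q u u + (Q u u' + Q u' u) + Q u' u' := by
      simp only [map_add, LinearMap.add_apply]
      ring
    rw [e]
    exact hadd _ _ (hadd _ _ h2 hb) h2'
  · have e : T (u + u') (u + u') (u + u') = T u u u + (T u u u' + T u u' u + T u' u u) +
        (T u u' u' + T u' u u' + T u' u' u) + T u' u' u' := by
      simp only [map_add, LinearMap.add_apply]
      ring
    rw [e]
    exact hadd _ _ (hadd _ _ (hadd _ _ h3 hg) hg') h3'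

/-- Module vb. The types of a vector. PROOF. `tyw` with `l u`, `Q u u`, `T u u u`; the hypothesis
is `hf (t • u)`. -/
theorem vty {v : Valuation K Γ} {om : Valuation K D} (hv : Ext v) (hc : Crs v om)
    (l : (Fin n → K) →ₗ[K] K) (Q : (Fin n → K) →ₗ[K] (Fin n → K) →ₗ[K] K)
    (T : (Fin n → K) →ₗ[K] (Fin n → K) →ₗ[K] (Fin n → K) →ₗ[K] K)
    (hf : ∀ u, Ivec v u → 1 ≤ v (1 + l u + Q u u + T u u u)) (u : Fin n → K) (hu : Ivec v u) :
    (om (l u) ≤ 1 ∧ om (Q u u) ≤ 1 ∧ om (T u u u) ≤ 1 ∧ om (1 + l u + Q u u + T u u u) = 1) ∨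
      (1 < om (Q u u) ∧ om (T u u u) ≤ om (Q u u) ∧ om (l u) ^ 2 ≤ om (Q u u) ∧
        om (1 + l u + Q u u + T u u u) = om (Q u u)) ∨
      (1 < om (T u u u) ∧ om (l u) ^ 3 ≤ om (T u u u) ∧ om (Q u u) ^ 3 ≤ om (T u u u) ^ 2 ∧
        om (1 + l u + Q u u + T u u u) = om (T u u u)) := by
  refine tyw hv hc (l u) (Q u u) (T u u u) fun t ht => ?_
  have h := hf (t • u) (hu.smul ht)
  have e : 1 + l (t • u) + Q (t • u) (t • u) + T (t • u) (t • u) (t • u) =
      1 + l u * t + Q u u * t ^ 2 + T u u u * t ^ 3 := by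
    simp only [map_smul, LinearMap.smul_apply, smul_eq_mul]
    ring
  rw [e] at h
  exact h
/- END vb -/

/- MODULE vc -/
/-- Module vc. PROOF. By `coex` (and `fc_plane`) it is impossible that there are integral vectors
`u` of type 2 and `u'` of type 3 (second and third alternative of `vty`). If there is no integral
vector of type 3, take `d = 2`, `g u = Q u u`: then `om (g u) ≤ 1` is equivalent to the first
alternative. Otherwise there is no vector of type 2: `d = 3`, `g u = T u u u` (in the third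
alternative `om (g u) > 1`). The last clause is `gd_add`. -/
theorem cub_data {v : Valuation K Γ} {om : Valuation K D} (hv : Ext v) (hc : Crs v om)
    (l : (Fin n → K) →ₗ[K] K) (Q : (Fin n → K) →ₗ[K] (Fin n → K) →ₗ[K] K)
    (T : (Fin n → K) →ₗ[K] (Fin n → K) →ₗ[K] (Fin n → K) →ₗ[K] K)
    (hf : ∀ u, Ivec v u → 1 ≤ v (1 + l u + Q u u + T u u u)) :
    ∃ (d : ℕ) (g : (Fin n → K) → K), 0 < d ∧ PF g ∧ (∀ (t : K) u, g (t • u) = t ^ d * g u) ∧
      (∀ u, Ivec v u → om (1 + l u + Q u u + T u u u) = max 1 (om (g u))) ∧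
      (∀ u u', Ivec v u → Ivec v u' → om (g u) ≤ 1 → om (g u') ≤ 1 → om (g (u + u')) ≤ 1) := by
  by_cases h3 : ∃ u, Ivec v u ∧ 1 < om (T u u u) ∧ om (l u) ^ 3 ≤ om (T u u u) ∧
      om (Q u u) ^ 3 ≤ om (T u u u) ^ 2
  · obtain ⟨u', hu', hT, hl', hQ'⟩ := h3
    have h2 : ∀ u, Ivec v u → 1 < om (Q u u) → om (T u u u) ≤ om (Q u u) →
        om (l u) ^ 2 ≤ om (Q u u) → False := by
      intro u hu hq ht hl
      refine coex hv hc (l u) (l u') (Q u u) (Q u u' + Q u' u) (Q u' u') (T u u u)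
        (T u u u' + T u u' u + T u' u u) (T u u' u' + T u' u u' + T u' u' u) (T u' u' u')
        (fun x y hx hy => ?_) hq ht hl hT hl' hQ'
      rw [← fc_plane]
      exact hf _ (Ivec.add (Ivec.smul hu hx) (Ivec.smul hu' hy))
    refine ⟨3, fun u => T u u u, by norm_num, PF.cubic T, fun t u => ?_, fun u hu => ?_,
      fun u w hu hw hgu hgw => ?_⟩
    · simp only [map_smul, LinearMap.smul_apply, smul_eq_mul]
      ring
    · rcases vty hv hc l Q T hf u hu with h | h | h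
      · rw [h.2.2.2, max_eq_left h.2.2.1]
      · exact (h2 u hu h.1 h.2.1 h.2.2.1).elim
      · rw [h.2.2.2, max_eq_right h.1.le]
    · have hu1 : om (l u) ≤ 1 ∧ om (Q u u) ≤ 1 ∧ om (T u u u) ≤ 1 := by
        rcases vty hv hc l Q T hf u hu with h | h | h
        · exact ⟨h.1, h.2.1, h.2.2.1⟩
        · exact (h2 u hu h.1 h.2.1 h.2.2.1).elim
        · exact (not_lt.2 hgu h.1).elim
      have hw1 : om (l w) ≤ 1 ∧ om (Q w w) ≤ 1 ∧ om (T w w w) ≤ 1 := by
        rcases vty hv hc l Q T hf w hw with h | h | h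
        · exact ⟨h.1, h.2.1, h.2.2.1⟩
        · exact (h2 w hw h.1 h.2.1 h.2.2.1).elim
        · exact (not_lt.2 hgw h.1).elim
      exact (gd_add hv hc l Q T hf u w hu hw hu1.1 hu1.2.1 hu1.2.2 hw1.1 hw1.2.1 hw1.2.2).2.2
  · refine ⟨2, fun u => Q u u, by norm_num, PF.quad Q, fun t u => ?_, fun u hu => ?_,
      fun u w hu hw hgu hgw => ?_⟩
    · simp only [map_smul, LinearMap.smul_apply, smul_eq_mul]
      ring
    · rcases vty hv hc l Q T hf u hu with h | h | h
      · rw [h.2.2.2, max_eq_left h.2.1]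
      · rw [h.2.2.2, max_eq_right h.1.le]
      · exact (h3 ⟨u, hu, h.1, h.2.1, h.2.2.1⟩).elim
    · have hu1 : om (l u) ≤ 1 ∧ om (Q u u) ≤ 1 ∧ om (T u u u) ≤ 1 := by
        rcases vty hv hc l Q T hf u hu with h | h | h
        · exact ⟨h.1, h.2.1, h.2.2.1⟩
        · exact (not_lt.2 hgu h.1).elim
        · exact (h3 ⟨u, hu, h.1, h.2.1, h.2.2.1⟩).elim
      have hw1 : om (l w) ≤ 1 ∧ om (Q w w) ≤ 1 ∧ om (T w w w) ≤ 1 := by
        rcases vty hv hc l Q T hf w hw with h | h | h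
        · exact ⟨h.1, h.2.1, h.2.2.1⟩
        · exact (not_lt.2 hgw h.1).elim
        · exact (h3 ⟨w, hw, h.1, h.2.1, h.2.2.1⟩).elim
      exact (gd_add hv hc l Q T hf u w hu hw hu1.1 hu1.2.1 hu1.2.2 hw1.1 hw1.2.1 hw1.2.2).2.1
/- END vc -/

end Pool.Agent.Xtr
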