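import Pool.Agent.Xtr.En
import Pool.Agent.Xtr.Vec
import Pool.Agent.Xtr.Co
import Pool.Agent.Xtr.Dc

set_option autoImplicit false

namespace Pool.Agent.Xtr

open scoped BigOperators

section

variable {K : Type*} [Field K] {Γ : Type*} [LinearOrderedCommGroupWithZero Γ]
  {L : Type*} [Field L] [Algebra K L] {v : Valuation K Γ} {w : Valuation L Γ}

/- MODULE na -/
private theorem na_norm3 {D : Type*} [LinearOrderedCommGroupWithZero D] {om : Valuation K D}
    (hc : Crs v om) (hfin : FinP v om w)
    (hv : Ext v) (hvw : ∀ a : K, w (algebraMap K L a) = v a) (himm : Imm K w) {n : ℕ}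
    (f : MvPolynomial (Fin n) K) (hcub : Cub (fun u => MvPolynomial.eval u f))
    (h0 : MvPolynomial.eval 0 f = 1) (h1 : ∀ u, Ivec v u → 1 ≤ v (MvPolynomial.eval u f))
    (x : Fin n → L) (hx : ∀ i, w (x i) ≤ 1) : 1 ≤ w (MvPolynomial.aeval x f) := by
  obtain ⟨c, l, Q, T, hcl⟩ := hcub
  have hc1 : c = 1 := by
    have := hcl 0
    simp only [h0, map_zero, add_zero] at this
    exact this.symm
  subst hc1
  obtain ⟨d, g, hd, hg, hh, h2, hadd⟩ := cub_data hv hc l Q T (by
    intro u hu
    rw [← hcl]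
    exact h1 u hu)
  refine engine hv hc hvw himm hfin d hd f g hg hh hadd h1 ?_ x hx
  intro u hu
  rw [← h2 u hu, ← hcl]

/-- Module na. Normalised form. PROOF. By `exists_crs` there is `om` (two cases, `om = v` in the
first). `hcub` gives `c, l, Q, T`; `c = 1` by `h0` (evaluate at `0`). `cub_data` gives `d`, `g`;
apply `engine`. -/
theorem norm3 (hv : Ext v) (hvw : ∀ a : K, w (algebraMap K L a) = v a) (himm : Imm K w) {n : ℕ}
    (f : MvPolynomial (Fin n) K) (hcub : Cub (fun u => MvPolynomial.eval u f))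
    (h0 : MvPolynomial.eval 0 f = 1) (h1 : ∀ u, Ivec v u → 1 ≤ v (MvPolynomial.eval u f))
    (x : Fin n → L) (hx : ∀ i, w (x i) ≤ 1) : 1 ≤ w (MvPolynomial.aeval x f) := by
  rcases exists_crs hv hvw himm with ⟨hc, hfin⟩ | ⟨D, _, om, hc, hfin⟩
  · exact na_norm3 hc hfin hv hvw himm f hcub h0 h1 x hx
  · exact na_norm3 hc hfin hv hvw himm f hcub h0 h1 x hx

private theorem na_normq {D : Type*} [LinearOrderedCommGroupWithZero D] {om : Valuation K D}
    (hc : Crs v om) (hfin : FinP v om w)
    (hv : Ext v) (hvw : ∀ a : K, w (algebraMap K L a) = v a) (himm : Imm K w) (p : ℕ)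
    [Fact p.Prime] [CharP K p] (k : ℕ) (hk : 0 < k) {n : ℕ} (a b : Fin n → K)
    (f : MvPolynomial (Fin n) K)
    (hf : ∀ u, MvPolynomial.eval u f = 1 + ∑ i, a i * u i + ∑ i, b i * u i ^ (p ^ k))
    (h1 : ∀ u, Ivec v u → 1 ≤ v (MvPolynomial.eval u f))
    (x : Fin n → L) (hx : ∀ i, w (x i) ≤ 1) : 1 ≤ w (MvPolynomial.aeval x f) := by
  have hq : 0 < p ^ k := pow_pos (Fact.out : p.Prime).pos k
  set g : (Fin n → K) → K := fun u => ∑ i, b i * u i ^ (p ^ k) with hg
  have hPF : PF g := ⟨∑ i, MvPolynomial.C (b i) * MvPolynomial.X i ^ (p ^ k), by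
    intro y
    simp [hg]⟩
  have hh : ∀ (t : K) u, g (t • u) = t ^ (p ^ k) * g u := by
    intro t u
    simp only [hg, Pi.smul_apply, smul_eq_mul, mul_pow, Finset.mul_sum]
    refine Finset.sum_congr rfl fun i _ => ?_
    ring
  have hadd' : ∀ u u', g (u + u') = g u + g u' := by
    intro u u'
    simp only [hg, Pi.add_apply, ← Finset.sum_add_distrib]
    refine Finset.sum_congr rfl fun i _ => ?_
    rw [add_pow_char_pow]
    ring
  refine engine hv hc hvw himm hfin (p ^ k) hq f g hPF hh ?_ h1 ?_ x hx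
  · intro u u' _ _ h h'
    rw [hadd']
    exact le_trans (om.map_add _ _) (max_le h h')
  · intro u hu
    have ht := tyq hv p k hk (∑ i, a i * u i) (g u) (by
      intro t ht
      have h3 := h1 (t • u) (by
        intro i
        simp only [Pi.smul_apply, smul_eq_mul, map_mul]
        exact mul_le_one' ht (hu i))
      rw [hf] at h3
      have h4 : (1 : K) + ∑ i, a i * (t • u) i + ∑ i, b i * (t • u) i ^ (p ^ k)
          = 1 + (∑ i, a i * u i) * t + g u * t ^ (p ^ k) := by
        have h5 := hh t u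
        simp only [hg] at h5 ⊢
        rw [h5]
        have h6 : ∑ i, a i * (t • u) i = (∑ i, a i * u i) * t := by
          rw [Finset.sum_mul]
          refine Finset.sum_congr rfl fun i _ => ?_
          simp only [Pi.smul_apply, smul_eq_mul]
          ring
        rw [h6]
        ring
      rw [h4] at h3
      exact h3)
    have hfu : MvPolynomial.eval u f = 1 + ∑ i, a i * u i + g u := hf u
    rcases ht with ⟨hl, hcc⟩ | ⟨hcc, hlc⟩
    · have h7 : om (MvPolynomial.eval u f) = 1 := by
        apply le_antisymm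
        · apply hc.le_one
          rw [hfu]
          refine le_trans (v.map_add _ _) (max_le (le_trans (v.map_add _ _) (max_le ?_ hl)) hcc)
          rw [map_one]
        · exact hc.one_le (h1 u hu)
      rw [h7, max_eq_left (hc.le_one hcc)]
    · have h8 : v (MvPolynomial.eval u f) = v (g u) := by
        rw [hfu]
        apply Valuation.map_add_eq_of_lt_right
        refine lt_of_le_of_lt (v.map_add _ _) (max_lt ?_ hlc)
        rw [map_one]
        exact hcc
      rw [hc.eq h8, max_eq_right (hc.one_le hcc.le)]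

/-- Module na. Normalised form for additive polynomials. PROOF. `exists_crs`; `d = p ^ k`,
`g u = ∑ i, b i * u i ^ (p ^ k)` (additive by `add_pow_char_pow`, `PF`); for integral `u` apply
`tyq` to `l = ∑ i, a i * u i`, `c = g u` (hypothesis from `h1 (t • u)`): in the first alternative
`om (1 + l + c) ≤ 1` and `≥ 1`, `om c ≤ 1`; in the second `v (1 + l + c) = v c`, so
`om (1 + l + c) = om c ≥ 1`. Apply `engine`. -/
theorem normq (hv : Ext v) (hvw : ∀ a : K, w (algebraMap K L a) = v a) (himm : Imm K w) (p : ℕ)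
    [Fact p.Prime] [CharP K p] (k : ℕ) (hk : 0 < k) {n : ℕ} (a b : Fin n → K)
    (f : MvPolynomial (Fin n) K)
    (hf : ∀ u, MvPolynomial.eval u f = 1 + ∑ i, a i * u i + ∑ i, b i * u i ^ (p ^ k))
    (h1 : ∀ u, Ivec v u → 1 ≤ v (MvPolynomial.eval u f))
    (x : Fin n → L) (hx : ∀ i, w (x i) ≤ 1) : 1 ≤ w (MvPolynomial.aeval x f) := by
  rcases exists_crs hv hvw himm with ⟨hc, hfin⟩ | ⟨D, _, om, hc, hfin⟩
  · exact na_normq hc hfin hv hvw himm p k hk a b f hf h1 x hx
  · exact na_normq hc hfin hv hvw himm p k hk a b f hf h1 x hx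
/- END na -/

/- MODULE nb -/
theorem reduce (hv : Ext v) (hvw : ∀ a : K, w (algebraMap K L a) = v a) {n : ℕ}
    (f : MvPolynomial (Fin n) K) (c r : Fin n → K)
    (hQ : ∀ (f' : MvPolynomial (Fin n) K) (t : K) (z0 : Fin n → K), t ≠ 0 →
      (∀ u : Fin n → K, MvPolynomial.eval u f' =
        t⁻¹ * MvPolynomial.eval (fun i => (c i + r i * z0 i) + r i * u i) f) →
      t = MvPolynomial.eval (fun i => c i + r i * z0 i) f →
      (∀ u, Ivec v u → 1 ≤ v (MvPolynomial.eval u f')) →
      ∀ x : Fin n → L, (∀ i, w (x i) ≤ 1) → 1 ≤ w (MvPolynomial.aeval x f'))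
    (x : Fin n → L) (hx : ∀ i, w (x i - algebraMap K L (c i)) ≤ w (algebraMap K L (r i))) :
    ∃ y : Fin n → K, (∀ i, v (y i - c i) ≤ v (r i)) ∧
      w (algebraMap K L (MvPolynomial.eval y f)) ≤ w (MvPolynomial.aeval x f) := by
  classical
  -- the substituted polynomial
  set F : MvPolynomial (Fin n) K :=
    MvPolynomial.bind₁ (fun i => MvPolynomial.C (c i) + MvPolynomial.C (r i) * MvPolynomial.X i) f
    with hF
  have hFe : ∀ u : Fin n → K, MvPolynomial.eval u F
      = MvPolynomial.eval (fun i => c i + r i * u i) f := by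
    intro u
    rw [hF, ← MvPolynomial.coe_aeval_eq_eval, ← MvPolynomial.coe_aeval_eq_eval]
    simp only [RingHom.coe_coe]
    rw [MvPolynomial.aeval_bind₁]
    congr 1
    simp
  -- scaled coordinates
  let z : Fin n → L := fun i =>
    if r i = 0 then 0 else (x i - algebraMap K L (c i)) / algebraMap K L (r i)
  have hzx : ∀ i, algebraMap K L (c i) + algebraMap K L (r i) * z i = x i := by
    intro i
    by_cases hr : r i = 0
    · have h1 := hx i
      rw [hr, map_zero, map_zero] at h1
      have h2 : x i - algebraMap K L (c i) = 0 := by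
        have := le_antisymm h1 zero_le
        exact (map_eq_zero w).1 this
      simp only [z, hr, if_true, map_zero, zero_mul, add_zero]
      exact (sub_eq_zero.1 h2).symm
    · have hr' : algebraMap K L (r i) ≠ 0 := by
        simpa using hr
      simp only [z, hr, if_false]
      field_simp
      ring
  have hz : ∀ i, w (z i) ≤ 1 := by
    intro i
    by_cases hr : r i = 0
    · simp only [z, hr, if_true, map_zero]
      exact zero_le
    · have hr' : algebraMap K L (r i) ≠ 0 := by
        simpa using hr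
      simp only [z, hr, if_false]
      rw [map_div₀]
      exact div_le_one_of_le₀ (hx i) zero_le
  have hFa : MvPolynomial.aeval z F = MvPolynomial.aeval x f := by
    rw [hF, MvPolynomial.aeval_bind₁]
    congr 1
    ext i
    simp [hzx]
  -- the minimum
  obtain ⟨z0, hz0, hmin⟩ := hv n F
  by_cases ht : MvPolynomial.eval z0 F = 0
  · refine ⟨fun i => c i + r i * z0 i, ?_, ?_⟩
    · intro i
      rw [add_sub_cancel_left, map_mul]
      exact mul_le_of_le_one_right' (hz0 i)
    · rw [← hFe, ht, map_zero, map_zero]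
      exact zero_le
  · set t := MvPolynomial.eval z0 F with htdef
    set f' : MvPolynomial (Fin n) K :=
      MvPolynomial.C t⁻¹ * MvPolynomial.bind₁
        (fun i => MvPolynomial.C (z0 i) + MvPolynomial.X i) F with hf'
    have hfe : ∀ u : Fin n → K, MvPolynomial.eval u f'
        = t⁻¹ * MvPolynomial.eval (fun i => z0 i + u i) F := by
      intro u
      rw [hf', map_mul, MvPolynomial.eval_C]
      congr 1
      rw [← MvPolynomial.coe_aeval_eq_eval, ← MvPolynomial.coe_aeval_eq_eval]
      simp only [RingHom.coe_coe]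
      rw [MvPolynomial.aeval_bind₁]
      congr 1
      simp
    have hfe' : ∀ u : Fin n → K, MvPolynomial.eval u f' =
        t⁻¹ * MvPolynomial.eval (fun i => (c i + r i * z0 i) + r i * u i) f := by
      intro u
      rw [hfe, hFe]
      congr 3
      funext i
      ring
    have hvt : v t ≠ 0 := (Valuation.ne_zero_iff v).2 ht
    have h1 : ∀ u, Ivec v u → 1 ≤ v (MvPolynomial.eval u f') := by
      intro u hu
      rw [hfe, map_mul, map_inv₀]
      have h2 : v t ≤ v (MvPolynomial.eval (fun i => z0 i + u i) F) := by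
        apply hmin
        intro i
        exact le_trans (v.map_add _ _) (max_le (hz0 i) (hu i))
      calc (1 : Γ) = (v t)⁻¹ * v t := (inv_mul_cancel₀ hvt).symm
        _ ≤ _ := mul_le_mul_right h2 _
    have h3 := hQ f' t z0 ht hfe' (by rw [htdef, hFe]) h1
      (fun i => z i - algebraMap K L (z0 i)) (by
        intro i
        refine le_trans (w.map_sub _ _) (max_le (hz i) ?_)
        rw [hvw]
        exact hz0 i)
    have h4 : MvPolynomial.aeval (fun i => z i - algebraMap K L (z0 i)) f'
        = algebraMap K L t⁻¹ * MvPolynomial.aeval x f := by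
      rw [hf', map_mul, MvPolynomial.aeval_C, MvPolynomial.aeval_bind₁, ← hFa]
      congr 2
      ext i
      simp
    rw [h4, map_mul, hvw, map_inv₀] at h3
    refine ⟨fun i => c i + r i * z0 i, ?_, ?_⟩
    · intro i
      rw [add_sub_cancel_left, map_mul]
      exact mul_le_of_le_one_right' (hz0 i)
    · rw [← hFe, hvw]
      have h5 : v t * 1 ≤ v t * ((v t)⁻¹ * w (MvPolynomial.aeval x f)) := mul_le_mul_right h3 _
      rw [mul_one, ← mul_assoc, mul_inv_cancel₀ hvt, one_mul] at h5
      exact h5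
/- END nb -/

end

/- MODULE nc -/
/-- equivalent valuations -/
private theorem nc_ext {K : Type} [Field K] {Γ₀ Γ₁ : Type} [LinearOrderedCommGroupWithZero Γ₀]
    [LinearOrderedCommGroupWithZero Γ₁] {v : Valuation K Γ₀} {v' : Valuation K Γ₁} (h : v'.IsEquiv v)
    (hext : Ext v) : Ext v' := by
  intro n f
  obtain ⟨a, h1, h2⟩ := hext n f
  have h3 : ∀ x : K, v' x ≤ 1 ↔ v x ≤ 1 := by
    intro x
    have := h x 1
    rwa [map_one, map_one] at this
  exact ⟨a, fun i => (h3 _).2 (h1 i), fun b hb => (h _ _).2 (h2 b (fun i => (h3 _).1 (hb i)))⟩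

/-- the common part -/
private theorem nc_red (K : Type) [Field K] (Γ₀ : Type) [LinearOrderedCommGroupWithZero Γ₀]
    (v : Valuation K Γ₀) (hext : Ext v)
    (L : Type) [Field L] [Algebra K L] (Γ₁ : Type) [LinearOrderedCommGroupWithZero Γ₁]
    (w : Valuation L Γ₁) (hvw : (w.comap (algebraMap K L)).IsEquiv v)
    (n : ℕ) (f : MvPolynomial (Fin n) K) (c r : Fin n → K)
    (hQ : ∀ (f' : MvPolynomial (Fin n) K) (t : K) (z0 : Fin n → K), t ≠ 0 →
      (∀ u : Fin n → K, MvPolynomial.eval u f' =
        t⁻¹ * MvPolynomial.eval (fun i => (c i + r i * z0 i) + r i * u i) f) →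
      t = MvPolynomial.eval (fun i => c i + r i * z0 i) f →
      (∀ u, Ivec (w.comap (algebraMap K L)) u → 1 ≤ (w.comap (algebraMap K L)) (MvPolynomial.eval u f')) →
      ∀ x : Fin n → L, (∀ i, w (x i) ≤ 1) → 1 ≤ w (MvPolynomial.aeval x f'))
    (x : Fin n → L) (hx : ∀ i, w (x i - algebraMap K L (c i)) ≤ w (algebraMap K L (r i))) :
    ∃ y : Fin n → K, (∀ i, v (y i - c i) ≤ v (r i)) ∧
      w (algebraMap K L (MvPolynomial.eval y f)) ≤ w (MvPolynomial.aeval x f) := by
  obtain ⟨y, h1, h2⟩ := reduce (v := w.comap (algebraMap K L)) (w := w) (nc_ext hvw hext) (fun _ => rfl) f c r hQ x hx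
  exact ⟨y, fun i => (hvw _ _).1 (h1 i), h2⟩

/-- Module nc. PROOF. Replace `v` by `w.comap (algebraMap K L)` (`hvw : IsEquiv`; `Ext` and the
conclusion only use comparisons `v a ≤ v b`), then `reduce`, `cub_of_totalDegree` (with
`l i = r i • proj i`), `norm3`. -/
theorem cubic_result (K : Type) [Field K] (Γ₀ : Type) [LinearOrderedCommGroupWithZero Γ₀]
    (v : Valuation K Γ₀) (hext : Ext v)
    (L : Type) [Field L] [Algebra K L] (Γ₁ : Type) [LinearOrderedCommGroupWithZero Γ₁]
    (w : Valuation L Γ₁) (hvw : (w.comap (algebraMap K L)).IsEquiv v)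
    (himm : ∀ y : L, y ≠ 0 → ∃ x : K, w (y - algebraMap K L x) < w y)
    (n : ℕ) (f : MvPolynomial (Fin n) K) (hf : f.totalDegree ≤ 3) (c r : Fin n → K)
    (x : Fin n → L) (hx : ∀ i, w (x i - algebraMap K L (c i)) ≤ w (algebraMap K L (r i))) :
    ∃ y : Fin n → K, (∀ i, v (y i - c i) ≤ v (r i)) ∧
      w (algebraMap K L (MvPolynomial.eval y f)) ≤ w (MvPolynomial.aeval x f) := by
  refine nc_red K Γ₀ v hext L Γ₁ w hvw n f c r ?_ x hx
  intro f' t z0 ht hf' htt h1 x' hx'
  refine norm3 (v := w.comap (algebraMap K L)) (w := w) (nc_ext hvw hext) (fun _ => rfl) himm f' ?_ ?_ h1 x' hx'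
  · have h2 := (cub_of_totalDegree f hf (fun i => c i + r i * z0 i)
      (fun i => r i • LinearMap.proj i)).smul t⁻¹
    have h3 : (fun u : Fin n → K => MvPolynomial.eval u f') = fun u => t⁻¹ *
        MvPolynomial.eval (fun i => (c i + r i * z0 i) + (r i • (LinearMap.proj i : (Fin n → K) →ₗ[K] K)) u) f := by
      funext u
      rw [hf' u]
      rfl
    rw [h3]
    exact h2
  · rw [hf' 0]
    have h2 : (fun i => (c i + r i * z0 i) + r i * (0 : Fin n → K) i) = fun i => c i + r i * z0 i := by
      funext i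
      simp
    rw [h2, ← htt, inv_mul_cancel₀ ht]

/-- Module nc. The same for additive polynomials of two layers: PROOF. As before with `normq`: for
`z0`, `t = eval (c + r z0) f`, `eval u f' = 1 + ∑ (t⁻¹ a i r i) u i + ∑ (t⁻¹ b i r i ^ q) u i ^ q`
(`add_pow_char_pow`). If `k = 0` the function is affine: use `cubic_result`. -/
theorem additive_result (K : Type) [Field K] (Γ₀ : Type) [LinearOrderedCommGroupWithZero Γ₀]
    (v : Valuation K Γ₀) (hext : Ext v)
    (L : Type) [Field L] [Algebra K L] (Γ₁ : Type) [LinearOrderedCommGroupWithZero Γ₁]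
    (w : Valuation L Γ₁) (hvw : (w.comap (algebraMap K L)).IsEquiv v)
    (himm : ∀ y : L, y ≠ 0 → ∃ x : K, w (y - algebraMap K L x) < w y)
    (p : ℕ) [Fact p.Prime] [CharP K p] (k : ℕ) (n : ℕ) (a b : Fin n → K) (d : K)
    (c r : Fin n → K)
    (x : Fin n → L) (hx : ∀ i, w (x i - algebraMap K L (c i)) ≤ w (algebraMap K L (r i))) :
    ∃ y : Fin n → K, (∀ i, v (y i - c i) ≤ v (r i)) ∧
      w (algebraMap K L (d + ∑ i, a i * y i + ∑ i, b i * y i ^ (p ^ k))) ≤
        w (algebraMap K L d + ∑ i, algebraMap K L (a i) * x i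
          + ∑ i, algebraMap K L (b i) * x i ^ (p ^ k)) := by
  set f : MvPolynomial (Fin n) K := MvPolynomial.C d + ∑ i, MvPolynomial.C (a i) * MvPolynomial.X i +
    ∑ i, MvPolynomial.C (b i) * MvPolynomial.X i ^ (p ^ k) with hf
  have hev : ∀ y : Fin n → K, MvPolynomial.eval y f = d + ∑ i, a i * y i + ∑ i, b i * y i ^ (p ^ k) := by
    intro y
    rw [hf]
    simp only [map_add, map_sum, map_mul, map_pow, MvPolynomial.eval_C, MvPolynomial.eval_X]
  have hae : MvPolynomial.aeval x f = algebraMap K L d + ∑ i, algebraMap K L (a i) * x i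
          + ∑ i, algebraMap K L (b i) * x i ^ (p ^ k) := by
    rw [hf]
    simp only [map_add, map_sum, map_mul, map_pow, MvPolynomial.aeval_C, MvPolynomial.aeval_X]
  have key : ∃ y : Fin n → K, (∀ i, v (y i - c i) ≤ v (r i)) ∧
      w (algebraMap K L (MvPolynomial.eval y f)) ≤ w (MvPolynomial.aeval x f) := by
    rcases Nat.eq_zero_or_pos k with hk | hk
    · refine cubic_result K Γ₀ v hext L Γ₁ w hvw himm n f ?_ c r x hx
      refine le_trans ?_ (show 1 ≤ 3 by norm_num)
      rw [hf]
      refine le_trans (MvPolynomial.totalDegree_add _ _) (max_le (le_trans (MvPolynomial.totalDegree_add _ _) (max_le ?_ ?_)) ?_)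
      · simp
      · refine MvPolynomial.totalDegree_finsetSum_le (fun i _ => ?_)
        refine le_trans (MvPolynomial.totalDegree_mul _ _) ?_
        simp
      · refine MvPolynomial.totalDegree_finsetSum_le (fun i _ => ?_)
        refine le_trans (MvPolynomial.totalDegree_mul _ _) ?_
        rw [hk]
        simp
    · refine nc_red K Γ₀ v hext L Γ₁ w hvw n f c r ?_ x hx
      intro f' t z0 ht hf' htt h1 x' hx'
      refine normq (v := w.comap (algebraMap K L)) (w := w) (nc_ext hvw hext) (fun _ => rfl) himm p k hk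
        (fun i => t⁻¹ * a i * r i) (fun i => t⁻¹ * b i * r i ^ (p ^ k)) f' ?_ h1 x' hx'
      intro u
      rw [hf' u, hev]
      rw [hev] at htt
      have h2 : ∀ i, ((c i + r i * z0 i) + r i * u i) ^ (p ^ k) = (c i + r i * z0 i) ^ (p ^ k) + r i ^ (p ^ k) * u i ^ (p ^ k) := by
        intro i
        rw [add_pow_char_pow, mul_pow]
      have h3 : d + ∑ i, a i * ((c i + r i * z0 i) + r i * u i) + ∑ i, b i * ((c i + r i * z0 i) + r i * u i) ^ (p ^ k) =
          t + ∑ i, a i * (r i * u i) + ∑ i, b i * (r i ^ (p ^ k) * u i ^ (p ^ k)) := by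
        rw [htt]
        simp only [h2, mul_add, Finset.sum_add_distrib]
        ring
      rw [h3, mul_add, mul_add, inv_mul_cancel₀ ht, Finset.mul_sum, Finset.mul_sum]
      congr 1
      · congr 1
        exact Finset.sum_congr rfl fun i _ => by ring
      · exact Finset.sum_congr rfl fun i _ => by ring
  obtain ⟨y, h1, h2⟩ := key
  rw [hev, hae] at h2
  exact ⟨y, h1, h2⟩
/- END nc -/

end Pool.Agent.Xtr
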