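import Pool.Agent.Xtr.Ty

set_option autoImplicit false

namespace Pool.Agent.Xtr

variable {K : Type*} [Field K] {Γ : Type*} [LinearOrderedCommGroupWithZero Γ]
  {D : Type*} [LinearOrderedCommGroupWithZero D]

/- MODULE ma -/
private theorem ma_lt {D : Type*} [LinearOrderedCommGroupWithZero D] {a b : D} {n : ℕ}
    (h : a ^ n < b ^ n) : a < b := by
  by_contra hcon
  exact absurd (pow_le_pow_left₀ zero_le (not_lt.1 hcon) n) (not_le.2 h)

private theorem ma_le {D : Type*} [LinearOrderedCommGroupWithZero D] {a b : D} {n : ℕ} (hn : n ≠ 0)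
    (h : a ^ n ≤ b ^ n) : a ≤ b := by
  by_contra hcon
  exact absurd (pow_lt_pow_left₀ (not_le.1 hcon) zero_le hn) (not_lt.2 h)

/-- Module ma. First half of `mix`. PROOF. Suppose `om g' > 1` and
`om g ≤ om g'`, `om b ^ 3 ≤ om g' ^ 2`. Then `om b < om g'`. The polynomial `x ↦ F9 .. x 1` has
`p0 = 1 + l' + a' + c'` (`om p0 ≤ 1`), `p1 = l + b + g'` (`om p1 = om g' > 1`), `p2 = a + g`
(`om p2 ≤ om g'`), `p3 = c` (`om p3 ≤ 1`). So `om p0 < om p1`, `om (p0 p2) < om p1 ^ 2`,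
`om (p0^2 p3) < om p1 ^ 3`; by `Crs.lt` the same for `v`, and `hen3` gives an integral `x` with
`F9 .. x 1 = 0`, against `h`. -/
theorem mix_a {v : Valuation K Γ} {om : Valuation K D} (hv : Ext v) (hc : Crs v om)
    (l l' a b a' c g g' c' : K)
    (h : ∀ x y : K, v x ≤ 1 → v y ≤ 1 → 1 ≤ v (F9 l l' a b a' c g g' c' x y))
    (h1 : om l ≤ 1) (h2 : om l' ≤ 1) (h3 : om a ≤ 1) (h4 : om a' ≤ 1) (h5 : om c ≤ 1)
    (h6 : om c' ≤ 1) (hgg : om g ≤ om g') (hb : om b ^ 3 ≤ om g' ^ 2) : om g' ≤ 1 := by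
  by_contra hcon
  have hG : 1 < om g' := not_le.1 hcon
  have hG0 : 0 < om g' := lt_trans zero_lt_one hG
  have hbg : om b < om g' := by
    by_contra hb'
    have e1 : om g' ^ 3 ≤ om b ^ 3 := pow_le_pow_left₀ zero_le (not_lt.1 hb') 3
    exact absurd (lt_of_lt_of_le (pow_lt_pow_right₀ hG (by norm_num : 2 < 3)) (e1.trans hb))
      (lt_irrefl _)
  have hp0 : om (1 + l' + a' + c') ≤ 1 :=
    om.map_add_le (om.map_add_le (om.map_add_le (le_of_eq om.map_one) h2) h4) h6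
  have hp1 : om (l + b + g') = om g' :=
    om.map_add_eq_of_lt_right (om.map_add_lt (lt_of_le_of_lt h1 hG) hbg)
  have hp2 : om (a + g) ≤ om g' := om.map_add_le (h3.trans hG.le) hgg
  obtain ⟨t, ht, h0⟩ := hen3 hv (1 + l' + a' + c') (l + b + g') (a + g) c
    (by intro h0; rw [h0, om.map_zero] at hp1; exact absurd hp1 hG0.ne)
    (hc.lt (by rw [hp1]; exact lt_of_le_of_lt hp0 hG)).le
    (hc.lt (by
      rw [om.map_mul, om.map_pow, hp1]
      calc om (1 + l' + a' + c') * om (a + g) ≤ 1 * om g' := mul_le_mul' hp0 hp2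
        _ < om g' ^ 2 := by
          rw [one_mul]
          exact lt_of_eq_of_lt (pow_one _).symm (pow_lt_pow_right₀ hG (by norm_num))))
    (hc.lt (by
      rw [om.map_mul, om.map_pow, om.map_pow, hp1]
      calc om (1 + l' + a' + c') ^ 2 * om c ≤ 1 ^ 2 * 1 :=
            mul_le_mul' (pow_le_pow_left₀ zero_le hp0 2) h5
        _ < om g' ^ 3 := by
          rw [one_pow, one_mul]
          exact one_lt_pow₀ hG (by norm_num)))
  have hF := h t 1 ht (le_of_eq v.map_one)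
  have e : F9 l l' a b a' c g g' c' t 1 =
      (1 + l' + a' + c') + (l + b + g') * t + (a + g) * t ^ 2 + c * t ^ 3 := by
    unfold F9; ring
  rw [e, h0, v.map_zero] at hF
  exact absurd hF (not_le.2 zero_lt_one)
/- END ma -/

/- MODULE mb -/
/-- Module mb. Second half of `mix`. PROOF. Suppose `om b > 1`, `om g ^ 2 < om b ^ 3`,
`om g' ^ 2 < om b ^ 3`. By `hc.div` choose `m` with `om m ^ 2 = om b⁻¹`; `om m < 1`, so `v m < 1`.
Put `B = om b`, `s = om (b m)`, `s ^ 2 = B`, `s > 1`. The polynomial `x ↦ F9 .. x m` has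
`p0 = 1 + l' m + a' m^2 + c' m^3` (`om p0 ≤ 1`), `p1 = l + b m + g' m^2`
(`om (g' m^2) = om g' / B < s` because `(om g' / B)^2 < B`; so `om p1 = s`), `p2 = a + g m`
(`om (g m) = om g / s < s^2` because `om g < s^3`), `p3 = c`. So `om p0 < om p1`,
`om (p0 p2) < om p1 ^ 2`, `om (p0^2 p3) < om p1 ^ 3` and `hen3` gives a zero. Contradiction. -/
theorem mix_b {v : Valuation K Γ} {om : Valuation K D} (hv : Ext v) (hc : Crs v om)
    (l l' a b a' c g g' c' : K)
    (h : ∀ x y : K, v x ≤ 1 → v y ≤ 1 → 1 ≤ v (F9 l l' a b a' c g g' c' x y))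
    (h1 : om l ≤ 1) (h2 : om l' ≤ 1) (h3 : om a ≤ 1) (h4 : om a' ≤ 1) (h5 : om c ≤ 1)
    (h6 : om c' ≤ 1) (hg : om g ^ 2 < om b ^ 3) (hg' : om g' ^ 2 < om b ^ 3) : om b ≤ 1 := by
  by_contra hcon
  have hB : 1 < om b := not_le.1 hcon
  have hB0 : 0 < om b := lt_trans zero_lt_one hB
  have hb0 : b ≠ 0 := by rintro rfl; rw [om.map_zero] at hB0; exact lt_irrefl _ hB0
  obtain ⟨m, hm⟩ := hc.div b⁻¹ (inv_ne_zero hb0) 2 (by norm_num)
  have hBM : om b * om m ^ 2 = 1 := by rw [hm, map_inv₀, mul_inv_cancel₀ hB0.ne']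
  have hM0 : 0 < om m := by
    rcases eq_or_ne (om m) 0 with h0 | h0
    · rw [h0] at hBM; simp at hBM
    · exact zero_lt_iff.2 h0
  have hM1 : om m < 1 := by
    refine ma_lt (n := 2) ?_
    rw [one_pow, hm, map_inv₀]
    exact inv_lt_one_of_one_lt₀ hB
  have hvm : v m ≤ 1 := (hc.lt_one hM1).le
  have hs2 : (om b * om m) ^ 2 = om b := by
    calc (om b * om m) ^ 2 = om b * (om b * om m ^ 2) := by rw [mul_pow, pow_two (om b), mul_assoc]
      _ = om b := by rw [hBM, mul_one]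
  have hs1 : 1 < om b * om m := by
    refine ma_lt (n := 2) ?_
    rw [one_pow, hs2]; exact hB
  have hpow : ∀ k : ℕ, om m ^ k ≤ 1 := fun k => pow_le_one₀ zero_le hM1.le
  have hp0 : om (1 + l' * m + a' * m ^ 2 + c' * m ^ 3) ≤ 1 := by
    refine om.map_add_le (om.map_add_le (om.map_add_le (le_of_eq om.map_one) ?_) ?_) ?_
    · rw [om.map_mul]; exact mul_le_one' h2 hM1.le
    · rw [om.map_mul, om.map_pow]; exact mul_le_one' h4 (hpow 2)
    · rw [om.map_mul, om.map_pow]; exact mul_le_one' h6 (hpow 3)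
  have hgm : om (g' * m ^ 2) < om b * om m := by
    refine ma_lt (n := 2) ?_
    rw [hs2, om.map_mul, om.map_pow]
    calc (om g' * om m ^ 2) ^ 2 = om g' ^ 2 * (om m ^ 2) ^ 2 := by rw [mul_pow]
      _ < om b ^ 3 * (om m ^ 2) ^ 2 :=
          mul_lt_mul_of_pos_right hg' (pow_pos (pow_pos hM0 2) 2)
      _ = om b * (om b * om m ^ 2) ^ 2 := by
          rw [mul_pow, ← mul_assoc, ← pow_succ']
      _ = om b := by rw [hBM, one_pow, mul_one]
  have hp1 : om (l + b * m + g' * m ^ 2) = om b * om m := by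
    have e1 : om (l + b * m) = om b * om m := by
      rw [om.map_add_eq_of_lt_right, om.map_mul]
      rw [om.map_mul]
      exact lt_of_le_of_lt h1 hs1
    rw [om.map_add_eq_of_lt_left, e1]
    rw [e1]; exact hgm
  have hp2 : om (a + g * m) < om b := by
    refine om.map_add_lt (lt_of_le_of_lt h3 hB) ?_
    refine ma_lt (n := 2) ?_
    rw [om.map_mul]
    calc (om g * om m) ^ 2 = om g ^ 2 * om m ^ 2 := by rw [mul_pow]
      _ < om b ^ 3 * om m ^ 2 := mul_lt_mul_of_pos_right hg (pow_pos hM0 2)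
      _ = om b ^ 2 * (om b * om m ^ 2) := by rw [pow_succ (om b) 2, mul_assoc]
      _ = om b ^ 2 := by rw [hBM, mul_one]
  obtain ⟨t, ht, h0⟩ := hen3 hv (1 + l' * m + a' * m ^ 2 + c' * m ^ 3) (l + b * m + g' * m ^ 2)
    (a + g * m) c
    (by intro h0; rw [h0, om.map_zero] at hp1; rw [← hp1] at hs1; exact absurd hs1 (not_lt.2 zero_le))
    (hc.lt (by rw [hp1]; exact lt_of_le_of_lt hp0 hs1)).le
    (hc.lt (by
      rw [om.map_mul, om.map_pow, hp1, hs2]
      calc om (1 + l' * m + a' * m ^ 2 + c' * m ^ 3) * om (a + g * m) ≤ 1 * om (a + g * m) :=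
            mul_le_mul' hp0 le_rfl
        _ < om b := by rw [one_mul]; exact hp2))
    (hc.lt (by
      rw [om.map_mul, om.map_pow, om.map_pow, hp1]
      calc om (1 + l' * m + a' * m ^ 2 + c' * m ^ 3) ^ 2 * om c ≤ 1 ^ 2 * 1 :=
            mul_le_mul' (pow_le_pow_left₀ zero_le hp0 2) h5
        _ < (om b * om m) ^ 3 := by
          rw [one_pow, one_mul]
          exact one_lt_pow₀ hs1 (by norm_num)))
  have hF := h t m ht hvm
  have e : F9 l l' a b a' c g g' c' t m =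
      (1 + l' * m + a' * m ^ 2 + c' * m ^ 3) + (l + b * m + g' * m ^ 2) * t + (a + g * m) * t ^ 2
        + c * t ^ 3 := by
    unfold F9; ring
  rw [e, h0, v.map_zero] at hF
  exact absurd hF (not_le.2 zero_lt_one)
/- END mb -/

/- MODULE mc -/
/-- Module mc. `F9` is symmetric. -/
theorem F9_swap (l l' a b a' c g g' c' x y : K) :
    F9 l l' a b a' c g g' c' x y = F9 l' l a' b a c' g' g c y x := by
  unfold F9; ring

/-- Module mc. Mixed coefficients are bounded if the pure coefficients are.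
PROOF. By symmetry (`F9_swap`) let `om g ≤ om g'`. If `om b ^ 3 ≤ om g' ^ 2`: `mix_a` gives
`om g' ≤ 1`, so `om g ≤ 1` and `om b ^ 3 ≤ 1`. If `om g' ^ 2 < om b ^ 3`: `mix_b` gives `om b ≤ 1`,
so `om g ^ 2 ≤ om g' ^ 2 < 1`. -/
theorem mix {v : Valuation K Γ} {om : Valuation K D} (hv : Ext v) (hc : Crs v om)
    (l l' a b a' c g g' c' : K)
    (h : ∀ x y : K, v x ≤ 1 → v y ≤ 1 → 1 ≤ v (F9 l l' a b a' c g g' c' x y))
    (h1 : om l ≤ 1) (h2 : om l' ≤ 1) (h3 : om a ≤ 1) (h4 : om a' ≤ 1) (h5 : om c ≤ 1)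
    (h6 : om c' ≤ 1) : om b ≤ 1 ∧ om g ≤ 1 ∧ om g' ≤ 1 := by
  wlog hgg : om g ≤ om g' generalizing l l' a a' c c' g g'
  · obtain ⟨r1, r2, r3⟩ := this l' l a' a c' g' g c
      (fun x y hx hy => by rw [F9_swap]; exact h y x hy hx) h2 h1 h4 h3 h6 h5
      (le_of_lt (not_le.1 hgg))
    exact ⟨r1, r3, r2⟩
  rcases le_or_gt (om b ^ 3) (om g' ^ 2) with hb | hb
  · have h7 := mix_a hv hc l l' a b a' c g g' c' h h1 h2 h3 h4 h5 h6 hgg hb
    refine ⟨?_, hgg.trans h7, h7⟩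
    refine ma_le (n := 3) (by norm_num) ?_
    rw [one_pow]
    exact hb.trans (pow_le_one₀ zero_le h7)
  · have h7 := mix_b hv hc l l' a b a' c g g' c' h h1 h2 h3 h4 h5 h6
      (lt_of_le_of_lt (pow_le_pow_left₀ zero_le hgg 2) hb) hb
    have h8 : om g' ≤ 1 := by
      refine ma_le (n := 2) (by norm_num) ?_
      rw [one_pow]
      exact hb.le.trans (pow_le_one₀ zero_le h7)
    exact ⟨h7, hgg.trans h8, h8⟩
/- END mc -/

/- MODULE md -/
/-- Module md. Divided difference: a cubic polynomial with leading coefficient of value one cannot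
be `≤ t` at four points `θ^17, θ^18, θ^19, θ^20` with `t = om θ ^ 48`, `om θ > 1`.
PROOF. With `x1, x2, x3, x4` these points,
`r3 = ∑ j, R xj / ∏ i ≠ j, (xj - xi)` (an identity: `field_simp; ring`), every difference has
value `≥ om θ ^ 18`, so every summand has value `≤ om θ ^ 48 / om θ ^ 54 < 1`. -/
theorem divdiff {om : Valuation K D} (th : K) (hth : 1 < om th) (r0 r1 r2 r3 : K)
    (h3 : om r3 = 1) :
    ∃ j : ℕ, 17 ≤ j ∧ j ≤ 20 ∧
      om th ^ 48 < om (r0 + r1 * th ^ j + r2 * (th ^ j) ^ 2 + r3 * (th ^ j) ^ 3) := by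
  by_contra hcon
  push Not at hcon
  have hT0 : 0 < om th := lt_trans zero_lt_one hth
  have hd : ∀ i j : ℕ, i < j → om (th ^ j - th ^ i) = om th ^ j := by
    intro i j hij
    rw [om.map_sub_eq_of_lt_left, om.map_pow]
    rw [om.map_pow, om.map_pow]
    exact pow_lt_pow_right₀ hth hij
  have e1 := hcon 17 (by norm_num) (by norm_num)
  have e2 := hcon 18 (by norm_num) (by norm_num)
  have e3 := hcon 19 (by norm_num) (by norm_num)
  have e4 := hcon 20 (by norm_num) (by norm_num)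
  have hid : ∀ x1 x2 x3 x4 : K, r3 * ((x2 - x1) * ((x3 - x1) * ((x4 - x1) * ((x3 - x2) *
      ((x4 - x2) * (x4 - x3)))))) =
      (r0 + r1 * x4 + r2 * x4 ^ 2 + r3 * x4 ^ 3) * ((x2 - x1) * ((x3 - x1) * (x3 - x2)))
      - (r0 + r1 * x3 + r2 * x3 ^ 2 + r3 * x3 ^ 3) * ((x2 - x1) * ((x4 - x1) * (x4 - x2)))
      + (r0 + r1 * x2 + r2 * x2 ^ 2 + r3 * x2 ^ 3) * ((x3 - x1) * ((x4 - x1) * (x4 - x3)))
      - (r0 + r1 * x1 + r2 * x1 ^ 2 + r3 * x1 ^ 3) * ((x3 - x2) * ((x4 - x2) * (x4 - x3))) := by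
    intro x1 x2 x3 x4; ring
  have h := congrArg om (hid (th ^ 17) (th ^ 18) (th ^ 19) (th ^ 20))
  rw [om.map_mul, h3, one_mul] at h
  have hL : om ((th ^ 18 - th ^ 17) * ((th ^ 19 - th ^ 17) * ((th ^ 20 - th ^ 17) *
      ((th ^ 19 - th ^ 18) * ((th ^ 20 - th ^ 18) * (th ^ 20 - th ^ 19)))))) = om th ^ 116 := by
    simp only [om.map_mul]
    rw [hd 17 18 (by norm_num), hd 17 19 (by norm_num), hd 17 20 (by norm_num),
      hd 18 19 (by norm_num), hd 18 20 (by norm_num), hd 19 20 (by norm_num)]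
    simp only [← pow_add]
  rw [hL] at h
  have hb : ∀ n : ℕ, n ≤ 59 → om th ^ 48 * om th ^ n < om th ^ 116 := by
    intro n hn
    rw [← pow_add]
    exact pow_lt_pow_right₀ hth (by omega)
  refine absurd h (ne_of_gt ?_)
  refine om.map_sub_lt (om.map_add_lt (om.map_sub_lt ?_ ?_) ?_) ?_
  · rw [om.map_mul]
    refine lt_of_le_of_lt (mul_le_mul' e4 le_rfl) ?_
    simp only [om.map_mul]
    rw [hd 17 18 (by norm_num), hd 17 19 (by norm_num), hd 18 19 (by norm_num)]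
    simp only [← pow_add]
    exact pow_lt_pow_right₀ hth (by norm_num)
  · rw [om.map_mul]
    refine lt_of_le_of_lt (mul_le_mul' e3 le_rfl) ?_
    simp only [om.map_mul]
    rw [hd 17 18 (by norm_num), hd 17 20 (by norm_num), hd 18 20 (by norm_num)]
    simp only [← pow_add]
    exact pow_lt_pow_right₀ hth (by norm_num)
  · rw [om.map_mul]
    refine lt_of_le_of_lt (mul_le_mul' e2 le_rfl) ?_
    simp only [om.map_mul]
    rw [hd 17 19 (by norm_num), hd 17 20 (by norm_num), hd 19 20 (by norm_num)]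
    simp only [← pow_add]
    exact pow_lt_pow_right₀ hth (by norm_num)
  · rw [om.map_mul]
    refine lt_of_le_of_lt (mul_le_mul' e1 le_rfl) ?_
    simp only [om.map_mul]
    rw [hd 18 19 (by norm_num), hd 18 20 (by norm_num), hd 19 20 (by norm_num)]
    simp only [← pow_add]
    exact pow_lt_pow_right₀ hth (by norm_num)
/- END md -/

/- MODULE me -/
/-- Module me. The polynomial on the line through `(x, y)`. PROOF. `unfold F9; ring`. -/
theorem F9_line (l l' a b a' c g g' c' x y t : K) :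
    F9 l l' a b a' c g g' c' (t * x) (t * y) =
      1 + (l * x + l' * y) * t + (a * x ^ 2 + b * (x * y) + a' * y ^ 2) * t ^ 2
        + (c * x ^ 3 + g * (x ^ 2 * y) + g' * (x * y ^ 2) + c' * y ^ 3) * t ^ 3 := by
  unfold F9; ring

/-- Module me. The scaled polynomial. -/
theorem F9_scale (l l' a b a' c g g' c' x y s s' : K) :
    F9 l l' a b a' c g g' c' (s * x) (s' * y) =
      F9 (l * s) (l' * s') (a * s ^ 2) (b * (s * s')) (a' * s' ^ 2) (c * s ^ 3)
        (g * (s ^ 2 * s')) (g' * (s * s' ^ 2)) (c' * s' ^ 3) x y := by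
  unfold F9; ring

/-- Module me. Types 2 and 3 cannot both occur.
PROOF. Choose `s` with `om s ^ 2 = om a⁻¹` and `s'` with `om s' ^ 3 = om c'⁻¹`; `om s < 1`,
`om s' < 1`, so `v s < 1`, `v s' < 1`. Scaled coefficients (`F9_scale`): `L = l s`, `A = a s^2`
(`om A = 1`), `C = c s^3` (`om C ≤ om s`), `L' = l' s'`, `A' = a' s'^2`, `C' = c' s'^3`
(`om C' = 1`); all `≤ 1` (`om L ^ 2 ≤ 1`, `om L' ^ 3 ≤ 1`, `om A' ^ 3 ≤ 1`). By `mix` (for the
scaled polynomial) `B = b s s'`, `G = g s^2 s'`, `G' = g' s s'^2` have `om ≤ 1`.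
Choose `th` with `om th ^ 25 = min (om s⁻¹) (om s'⁻¹) > 1` (apply `div` to `s⁻¹` or `s'⁻¹`).
Then `1 < om th`, `om th ^ 24 < om s⁻¹`, `om th ^ 24 < om s'⁻¹`. Put `σ = th^24`; apply `divdiff` to
`R(y) = C σ^3 + G σ^2 y + G' σ y^2 + C' y^3` and get `j` with `17 ≤ j ≤ 20` and
`om (R (th^j)) > om th ^ 48`. Put `σ' = th^j`. The point `(x, y) = (σ s, σ' s')` is integral
(`om < 1`). On the line through it: `A* = A σ^2 + B σ σ' + A' σ'^2` has `om A* = om th ^ 48`
(the other two terms are smaller since `om σ' < om σ`), `C* = R(σ')` has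
`om th ^ 48 < om C* < om th ^ 72` (terms: `om (C σ^3) ≤ om th ^ 72 * om s < om th ^ 72`, the others
contain `σ'`). Now `tyw` for this line (`F9_line`, `h`): first alternative impossible
(`om A* > 1`), second impossible (`om C* > om A*`), third impossible
(`om A* ^ 3 = om th ^ 144`, `om C* ^ 2 < om th ^ 144`). -/
theorem coex {v : Valuation K Γ} {om : Valuation K D} (hv : Ext v) (hc : Crs v om)
    (l l' a b a' c g g' c' : K)
    (h : ∀ x y : K, v x ≤ 1 → v y ≤ 1 → 1 ≤ v (F9 l l' a b a' c g g' c' x y))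
    (h1 : 1 < om a) (h2 : om c ≤ om a) (h3 : om l ^ 2 ≤ om a)
    (h4 : 1 < om c') (h5 : om l' ^ 3 ≤ om c') (h6 : om a' ^ 3 ≤ om c' ^ 2) : False := by
  have ha0 : 0 < om a := lt_trans zero_lt_one h1
  have hc0 : 0 < om c' := lt_trans zero_lt_one h4
  have hane : a ≠ 0 := by rintro rfl; rw [om.map_zero] at ha0; exact lt_irrefl _ ha0
  have hcne : c' ≠ 0 := by rintro rfl; rw [om.map_zero] at hc0; exact lt_irrefl _ hc0
  obtain ⟨s, hs⟩ := hc.div a⁻¹ (inv_ne_zero hane) 2 (by norm_num)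
  obtain ⟨s', hs'⟩ := hc.div c'⁻¹ (inv_ne_zero hcne) 3 (by norm_num)
  have hS : om a * om s ^ 2 = 1 := by rw [hs, map_inv₀, mul_inv_cancel₀ ha0.ne']
  have hS' : om c' * om s' ^ 3 = 1 := by rw [hs', map_inv₀, mul_inv_cancel₀ hc0.ne']
  have hs0 : 0 < om s := by
    rcases eq_or_ne (om s) 0 with h0 | h0
    · rw [h0] at hS; simp at hS
    · exact zero_lt_iff.2 h0
  have hs0' : 0 < om s' := by
    rcases eq_or_ne (om s') 0 with h0 | h0
    · rw [h0] at hS'; simp at hS'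
    · exact zero_lt_iff.2 h0
  have hsne : s ≠ 0 := by rintro rfl; rw [om.map_zero] at hs0; exact lt_irrefl _ hs0
  have hsne' : s' ≠ 0 := by rintro rfl; rw [om.map_zero] at hs0'; exact lt_irrefl _ hs0'
  have hs1 : om s < 1 := by
    refine ma_lt (n := 2) ?_
    rw [one_pow, hs, map_inv₀]
    exact inv_lt_one_of_one_lt₀ h1
  have hs1' : om s' < 1 := by
    refine ma_lt (n := 3) ?_
    rw [one_pow, hs', map_inv₀]
    exact inv_lt_one_of_one_lt₀ h4
  have hvs : v s ≤ 1 := (hc.lt_one hs1).le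
  have hvs' : v s' ≤ 1 := (hc.lt_one hs1').le
  -- the scaled coefficients
  have hL : om (l * s) ≤ 1 := by
    refine ma_le (n := 2) (by norm_num) ?_
    rw [om.map_mul, mul_pow, one_pow, ← hS]
    exact mul_le_mul' h3 le_rfl
  have hA : om (a * s ^ 2) = 1 := by rw [om.map_mul, om.map_pow, hS]
  have hC : om (c * s ^ 3) ≤ om s := by
    rw [om.map_mul, om.map_pow, pow_succ, ← mul_assoc]
    calc om c * om s ^ 2 * om s ≤ om a * om s ^ 2 * om s :=
          mul_le_mul' (mul_le_mul' h2 le_rfl) le_rfl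
      _ = om s := by rw [hS, one_mul]
  have hL' : om (l' * s') ≤ 1 := by
    refine ma_le (n := 3) (by norm_num) ?_
    rw [om.map_mul, mul_pow, one_pow, ← hS']
    exact mul_le_mul' h5 le_rfl
  have hA' : om (a' * s' ^ 2) ≤ 1 := by
    refine ma_le (n := 3) (by norm_num) ?_
    rw [om.map_mul, om.map_pow, mul_pow, one_pow, ← pow_mul, mul_comm 2 3, pow_mul]
    calc om a' ^ 3 * (om s' ^ 3) ^ 2 ≤ om c' ^ 2 * (om s' ^ 3) ^ 2 := mul_le_mul' h6 le_rfl
      _ = (om c' * om s' ^ 3) ^ 2 := by rw [mul_pow]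
      _ = 1 := by rw [hS', one_pow]
      _ ≤ 1 := le_rfl
  have hC' : om (c' * s' ^ 3) = 1 := by rw [om.map_mul, om.map_pow, hS']
  have hmix := mix hv hc (l * s) (l' * s') (a * s ^ 2) (b * (s * s')) (a' * s' ^ 2) (c * s ^ 3)
    (g * (s ^ 2 * s')) (g' * (s * s' ^ 2)) (c' * s' ^ 3)
    (fun x y hx hy => by
      rw [← F9_scale]
      exact h (s * x) (s' * y) (by rw [v.map_mul]; exact mul_le_one' hvs hx)
        (by rw [v.map_mul]; exact mul_le_one' hvs' hy))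
    hL hL' hA.le hA' (hC.trans hs1.le) hC'.le
  obtain ⟨hB, hG, hG'⟩ := hmix
  -- the scale
  obtain ⟨t0, ht0, ht1, hts, hts'⟩ : ∃ t0 : K, t0 ≠ 0 ∧ 1 < om t0 ∧ om t0 * om s ≤ 1 ∧
      om t0 * om s' ≤ 1 := by
    rcases le_total (om s) (om s') with hss | hss
    · refine ⟨s'⁻¹, inv_ne_zero hsne', ?_, ?_, ?_⟩
      · rw [map_inv₀]; exact (one_lt_inv₀ hs0').2 hs1'
      · rw [map_inv₀]
        calc (om s')⁻¹ * om s ≤ (om s')⁻¹ * om s' := mul_le_mul' le_rfl hss
          _ = 1 := inv_mul_cancel₀ hs0'.ne'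
      · rw [map_inv₀, inv_mul_cancel₀ hs0'.ne']
    · refine ⟨s⁻¹, inv_ne_zero hsne, ?_, ?_, ?_⟩
      · rw [map_inv₀]; exact (one_lt_inv₀ hs0).2 hs1
      · rw [map_inv₀, inv_mul_cancel₀ hs0.ne']
      · rw [map_inv₀]
        calc (om s)⁻¹ * om s' ≤ (om s)⁻¹ * om s := mul_le_mul' le_rfl hss
          _ = 1 := inv_mul_cancel₀ hs0.ne'
  obtain ⟨th, hth25⟩ := hc.div t0 ht0 25 (by norm_num)
  have hth : 1 < om th := by
    refine ma_lt (n := 25) ?_
    rw [one_pow, hth25]; exact ht1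
  have hth0 : 0 < om th := lt_trans zero_lt_one hth
  have hps : ∀ n : ℕ, n ≤ 24 → om th ^ n * om s < 1 := by
    intro n hn
    calc om th ^ n * om s < om th ^ 25 * om s :=
          mul_lt_mul_of_pos_right (pow_lt_pow_right₀ hth (by omega)) hs0
      _ ≤ 1 := by rw [hth25]; exact hts
  have hps' : ∀ n : ℕ, n ≤ 24 → om th ^ n * om s' < 1 := by
    intro n hn
    calc om th ^ n * om s' < om th ^ 25 * om s' :=
          mul_lt_mul_of_pos_right (pow_lt_pow_right₀ hth (by omega)) hs0'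
      _ ≤ 1 := by rw [hth25]; exact hts'
  obtain ⟨j, hj1, hj2, hj⟩ := divdiff th hth (c * s ^ 3 * (th ^ 24) ^ 3)
    (g * (s ^ 2 * s') * (th ^ 24) ^ 2) (g' * (s * s' ^ 2) * th ^ 24) (c' * s' ^ 3) hC'
  have hvx : v (th ^ 24 * s) ≤ 1 := by
    refine (hc.lt_one ?_).le
    rw [om.map_mul, om.map_pow]; exact hps 24 le_rfl
  have hvy : v (th ^ j * s') ≤ 1 := by
    refine (hc.lt_one ?_).le
    rw [om.map_mul, om.map_pow]; exact hps' j (by omega)
  -- the line
  have hline := tyw hv hc (l * (th ^ 24 * s) + l' * (th ^ j * s'))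
    (a * (th ^ 24 * s) ^ 2 + b * ((th ^ 24 * s) * (th ^ j * s')) + a' * (th ^ j * s') ^ 2)
    (c * (th ^ 24 * s) ^ 3 + g * ((th ^ 24 * s) ^ 2 * (th ^ j * s'))
      + g' * ((th ^ 24 * s) * (th ^ j * s') ^ 2) + c' * (th ^ j * s') ^ 3)
    (fun t ht => by
      rw [← F9_line]
      exact h _ _ (by rw [v.map_mul]; exact mul_le_one' ht hvx)
        (by rw [v.map_mul]; exact mul_le_one' ht hvy))
  have hmn : ∀ (x : K) (n : ℕ), om x ≤ 1 → n < 48 → om (x * th ^ n) < om th ^ 48 := by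
    intro x n hx hn
    rw [om.map_mul, om.map_pow]
    calc om x * om th ^ n ≤ 1 * om th ^ n := mul_le_mul' hx le_rfl
      _ = om th ^ n := one_mul _
      _ < om th ^ 48 := pow_lt_pow_right₀ hth hn
  have hmn3 : ∀ (x : K) (n : ℕ), om x ≤ 1 → n < 72 → om (x * th ^ n) < om th ^ 72 := by
    intro x n hx hn
    rw [om.map_mul, om.map_pow]
    calc om x * om th ^ n ≤ 1 * om th ^ n := mul_le_mul' hx le_rfl
      _ = om th ^ n := one_mul _
      _ < om th ^ 72 := pow_lt_pow_right₀ hth hn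
  have ha1 : a * (th ^ 24 * s) ^ 2 + b * ((th ^ 24 * s) * (th ^ j * s')) + a' * (th ^ j * s') ^ 2
      = a * s ^ 2 * th ^ 48 + b * (s * s') * th ^ (24 + j) + a' * s' ^ 2 * th ^ (2 * j) := by
    rw [pow_add, mul_comm 2 j, pow_mul]; ring
  have ha2 : om (a * (th ^ 24 * s) ^ 2 + b * ((th ^ 24 * s) * (th ^ j * s'))
      + a' * (th ^ j * s') ^ 2) = om th ^ 48 := by
    rw [ha1]
    have e1 : om (a * s ^ 2 * th ^ 48) = om th ^ 48 := by
      rw [om.map_mul (a * s ^ 2), hA, one_mul, om.map_pow]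
    have e2 : om (a * s ^ 2 * th ^ 48 + b * (s * s') * th ^ (24 + j)) = om th ^ 48 := by
      rw [om.map_add_eq_of_lt_left, e1]
      rw [e1]; exact hmn _ _ hB (by omega)
    rw [om.map_add_eq_of_lt_left, e2]
    rw [e2]; exact hmn _ _ hA' (by omega)
  have hc1 : c * (th ^ 24 * s) ^ 3 + g * ((th ^ 24 * s) ^ 2 * (th ^ j * s'))
      + g' * ((th ^ 24 * s) * (th ^ j * s') ^ 2) + c' * (th ^ j * s') ^ 3
      = c * s ^ 3 * (th ^ 24) ^ 3 + g * (s ^ 2 * s') * (th ^ 24) ^ 2 * th ^ j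
        + g' * (s * s' ^ 2) * th ^ 24 * (th ^ j) ^ 2 + c' * s' ^ 3 * (th ^ j) ^ 3 := by
    ring
  have hc2 : c * s ^ 3 * (th ^ 24) ^ 3 + g * (s ^ 2 * s') * (th ^ 24) ^ 2 * th ^ j
        + g' * (s * s' ^ 2) * th ^ 24 * (th ^ j) ^ 2 + c' * s' ^ 3 * (th ^ j) ^ 3
      = c * s ^ 3 * th ^ 72 + g * (s ^ 2 * s') * th ^ (48 + j)
        + g' * (s * s' ^ 2) * th ^ (24 + 2 * j) + c' * s' ^ 3 * th ^ (3 * j) := by
    rw [pow_add, pow_add, mul_comm 2 j, mul_comm 3 j, pow_mul th j 2, pow_mul th j 3]; ring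
  rw [hc1, ha2] at hline
  have hc3 : om (c * s ^ 3 * (th ^ 24) ^ 3 + g * (s ^ 2 * s') * (th ^ 24) ^ 2 * th ^ j
        + g' * (s * s' ^ 2) * th ^ 24 * (th ^ j) ^ 2 + c' * s' ^ 3 * (th ^ j) ^ 3)
      < om th ^ 72 := by
    rw [hc2]
    refine om.map_add_lt (om.map_add_lt (om.map_add_lt ?_ ?_) ?_) ?_
    · rw [om.map_mul, om.map_pow th]
      calc om (c * s ^ 3) * om th ^ 72 ≤ om s * om th ^ 72 := mul_le_mul' hC le_rfl
        _ < 1 * om th ^ 72 := mul_lt_mul_of_pos_right hs1 (pow_pos hth0 72)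
        _ = om th ^ 72 := one_mul _
    · exact hmn3 _ _ hG (by omega)
    · exact hmn3 _ _ hG' (by omega)
    · exact hmn3 _ _ hC'.le (by omega)
  rcases hline with ⟨_, q, _, _⟩ | ⟨_, q, _, _⟩ | ⟨_, _, q, _⟩
  · exact absurd q (not_le.2 (one_lt_pow₀ hth (by norm_num)))
  · exact absurd q (not_le.2 hj)
  · rw [← pow_mul] at q
    refine absurd q (not_le.2 ?_)
    calc om (c * s ^ 3 * (th ^ 24) ^ 3 + g * (s ^ 2 * s') * (th ^ 24) ^ 2 * th ^ j
        + g' * (s * s' ^ 2) * th ^ 24 * (th ^ j) ^ 2 + c' * s' ^ 3 * (th ^ j) ^ 3) ^ 2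
        < (om th ^ 72) ^ 2 := pow_lt_pow_left₀ hc3 zero_le (by norm_num)
      _ = om th ^ (48 * 3) := by rw [← pow_mul]
/- END me -/

end Pool.Agent.Xtr
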