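import Pool.Agent.Xtr.Defs

set_option autoImplicit false

namespace Pool.Agent.Xtr

open scoped BigOperators

variable {K : Type*} [Field K] {Γ : Type*} [LinearOrderedCommGroupWithZero Γ]

/- MODULE pa -/
/-- Module pa. PROOF. `MvPolynomial.C c`. -/
theorem PF.const {n : ℕ} (c : K) : PF (fun _ : Fin n → K => c) := by
  exact ⟨MvPolynomial.C c, fun y => by simp⟩

/-- Module pa. PROOF. `MvPolynomial.X i`. -/
theorem PF.coord {n : ℕ} (i : Fin n) : PF (fun y : Fin n → K => y i) := by
  exact ⟨MvPolynomial.X i, fun y => by simp⟩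

/-- Module pa. -/
theorem PF.add {n : ℕ} {g h : (Fin n → K) → K} (hg : PF g) (hh : PF h) :
    PF (fun y => g y + h y) := by
  obtain ⟨P, hP⟩ := hg
  obtain ⟨Q, hQ⟩ := hh
  exact ⟨P + Q, fun y => by rw [map_add, hP, hQ]⟩

/-- Module pa. -/
theorem PF.mul {n : ℕ} {g h : (Fin n → K) → K} (hg : PF g) (hh : PF h) :
    PF (fun y => g y * h y) := by
  obtain ⟨P, hP⟩ := hg
  obtain ⟨Q, hQ⟩ := hh
  exact ⟨P * Q, fun y => by rw [map_mul, hP, hQ]⟩

/-- Module pa. PROOF. `Finset.induction_on`. -/
theorem PF.sum {n : ℕ} {ι : Type*} (s : Finset ι) (g : ι → (Fin n → K) → K)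
    (hg : ∀ i ∈ s, PF (g i)) : PF (fun y => ∑ i ∈ s, g i y) := by
  classical
  induction s using Finset.induction_on with
  | empty => simpa using PF.const (n := n) (0 : K)
  | insert a s ha ih =>
    simp only [Finset.sum_insert ha]
    exact PF.add (hg a (Finset.mem_insert_self a s)) (ih fun i hi => hg i (Finset.mem_insert_of_mem hi))
/- END pa -/

/- MODULE pb -/
/-- Module pb. PROOF. If `P` represents `g` and `A j` represents the `j`-th coordinate, take
`MvPolynomial.bind₁ A P` (lemma `MvPolynomial.eval₂Hom_bind₁` or `MvPolynomial.aeval_bind₁`). -/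
theorem PF.comp {m n : ℕ} {g : (Fin n → K) → K} (hg : PF g) (A : (Fin m → K) → (Fin n → K))
    (hA : ∀ j, PF (fun t => A t j)) : PF (fun t => g (A t)) := by
  obtain ⟨P, hP⟩ := hg
  choose B hB using hA
  refine ⟨MvPolynomial.bind₁ B P, fun t => ?_⟩
  have h1 : MvPolynomial.eval t (MvPolynomial.bind₁ B P) =
      MvPolynomial.eval (fun j => MvPolynomial.eval t (B j)) P :=
    MvPolynomial.eval₂Hom_bind₁ (RingHom.id K) t B P
  have h2 : (fun j => MvPolynomial.eval t (B j)) = A t := funext fun j => hB j t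
  rw [h1, h2]
  exact hP (A t)

/-- Module pb. A quadratic form given by a bilinear map is a polynomial function.
PROOF. `u = ∑ i, u i • Pi.single i 1`, so `Q u u = ∑ i, ∑ j, u i * u j * Q (e i) (e j)`. -/
theorem PF.quad {n : ℕ} (Q : (Fin n → K) →ₗ[K] (Fin n → K) →ₗ[K] K) :
    PF (fun u => Q u u) := by
  have h : ∀ u : Fin n → K, Q u u = ∑ i, ∑ j, u i * (u j *
      Q (fun l => if j = l then 1 else 0) (fun l => if i = l then 1 else 0)) := by
    intro u
    conv_lhs => rw [pi_eq_sum_univ u]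
    simp only [map_sum, LinearMap.sum_apply, map_smul, LinearMap.smul_apply, smul_eq_mul]
    refine Finset.sum_congr rfl fun i _ => ?_
    rw [Finset.mul_sum]
  have h2 : (fun u => Q u u) = fun u : Fin n → K => ∑ i, ∑ j, u i * (u j *
      Q (fun l => if j = l then 1 else 0) (fun l => if i = l then 1 else 0)) := funext h
  rw [h2]
  exact PF.sum _ _ fun i _ => PF.sum _ _ fun j _ =>
    PF.mul (PF.coord i) (PF.mul (PF.coord j) (PF.const _))

/-- Module pb. The same for trilinear maps. -/
theorem PF.cubic {n : ℕ} (T : (Fin n → K) →ₗ[K] (Fin n → K) →ₗ[K] (Fin n → K) →ₗ[K] K) :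
    PF (fun u => T u u u) := by
  have h : ∀ u : Fin n → K, T u u u = ∑ i, ∑ j, ∑ k, u i * (u j * (u k *
      T (fun l => if k = l then 1 else 0) (fun l => if j = l then 1 else 0)
        (fun l => if i = l then 1 else 0))) := by
    intro u
    conv_lhs => rw [pi_eq_sum_univ u]
    simp only [map_sum, LinearMap.sum_apply, map_smul, LinearMap.smul_apply, smul_eq_mul]
    refine Finset.sum_congr rfl fun i _ => ?_
    rw [Finset.mul_sum]
    refine Finset.sum_congr rfl fun j _ => ?_
    rw [Finset.mul_sum, Finset.mul_sum]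
  have h2 : (fun u => T u u u) = fun u : Fin n → K => ∑ i, ∑ j, ∑ k, u i * (u j * (u k *
      T (fun l => if k = l then 1 else 0) (fun l => if j = l then 1 else 0)
        (fun l => if i = l then 1 else 0))) := funext h
  rw [h2]
  exact PF.sum _ _ fun i _ => PF.sum _ _ fun j _ => PF.sum _ _ fun k _ =>
    PF.mul (PF.coord i) (PF.mul (PF.coord j) (PF.mul (PF.coord k) (PF.const _)))
/- END pb -/

/- MODULE pc -/
/-- Module pc. The minimum of `v (g u)` over integral vectors is attained. -/
theorem Ext.min {v : Valuation K Γ} (hv : Ext v) {n : ℕ} {g : (Fin n → K) → K} (hg : PF g) :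
    ∃ a : Fin n → K, Ivec v a ∧ ∀ b, Ivec v b → v (g a) ≤ v (g b) := by
  obtain ⟨P, hP⟩ := hg
  obtain ⟨a, ha, hmin⟩ := hv n P
  refine ⟨a, ha, fun b hb => ?_⟩
  rw [← hP, ← hP]
  exact hmin b hb

/-- Module pc. The same on the ball with centre `c` and radius `r`. PROOF. Compose with
`t ↦ c + r t`. -/
theorem Ext.min_ball {v : Valuation K Γ} (hv : Ext v) {n : ℕ} {g : (Fin n → K) → K} (hg : PF g)
    (c : Fin n → K) (r : K) (hr : r ≠ 0) :
    ∃ a : Fin n → K, (∀ i, v (a i - c i) ≤ v r) ∧
      ∀ b : Fin n → K, (∀ i, v (b i - c i) ≤ v r) → v (g a) ≤ v (g b) := by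
  have hc : PF (fun t : Fin n → K => g (fun j => c j + r * t j)) :=
    PF.comp hg (fun t j => c j + r * t j) fun j =>
      PF.add (PF.const _) (PF.mul (PF.const _) (PF.coord j))
  obtain ⟨a, ha, hmin⟩ := Ext.min hv hc
  have hr' : v r ≠ 0 := (Valuation.ne_zero_iff v).2 hr
  refine ⟨fun j => c j + r * a j, fun i => ?_, fun b hb => ?_⟩
  · rw [add_sub_cancel_left, map_mul]
    exact mul_le_of_le_one_right' (ha i)
  · have h1 := hmin (fun i => (b i - c i) / r) (fun i => by
      rw [map_div₀]
      exact (div_le_one₀ (zero_lt_iff.2 hr')).2 (hb i))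
    have h2 : (fun j => c j + r * ((b j - c j) / r)) = b := by
      funext j
      field_simp
      ring
    simp only [h2] at h1
    exact h1
/- END pc -/

end Pool.Agent.Xtr
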