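import Pool.Agent.Xtr.Hen

set_option autoImplicit false

namespace Pool.Agent.Xtr

variable {K : Type*} [Field K] {Γ : Type*} [LinearOrderedCommGroupWithZero Γ]
  {D : Type*} [LinearOrderedCommGroupWithZero D]

/- MODULE ta -/
/-- Module ta. The three types of a polynomial of degree 3 without small values.
PROOF. Write `|.|` for `v`.
(i) `|l| ≤ 1` or `|l|^2 ≤ |a|` or `|l|^3 ≤ |c|`: otherwise `hen3` with `p0 = 1`, `p1 = l` gives an
integral root `t`, where the value is `0 < 1`.
Case `|a|^3 ≤ |c|^2`. If `|c| ≤ 1` then `|a| ≤ 1`, and `|l| ≤ 1` by (i): first alternative. If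
`|c| > 1`: (i) gives `|l|^3 ≤ |c|` in each case (`|l|^2 ≤ |a|` gives `|l|^6 ≤ |a|^3 ≤ |c|^2`):
third alternative.
Case `|c|^2 < |a|^3`. If `|a| ≤ 1` then `|c| < 1` and `|l| ≤ 1` by (i): first alternative. If
`|a| > 1`: (i) gives `|l|^2 ≤ |a|` in each case. It remains `|c| < |a|`. Otherwise put `r = a / c`,
`|r| ≤ 1`, `e0 = c^2 / a^3`, `e1 = l c / a^2`; `|e0| < 1`, `|e1|^2 = |l|^2 |c|^2 / |a|^4 < 1`.
`hen3` for `p0 = e0 - e1`, `p1 = 1 + e1`, `p2 = -2`, `p3 = 1` gives an integral `n` with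
`(e0 - e1) + (1 + e1) n - 2 n^2 + n^3 = 0`, and for `t = r (n - 1)`:
`c^2 / a^3 * (1 + l t + a t^2 + c t^3) = e0 + e1 (n-1) + (n-1)^2 + (n-1)^3 = 0`. -/
theorem ty3 {v : Valuation K Γ} (hv : Ext v) (l a c : K)
    (h : ∀ t : K, v t ≤ 1 → 1 ≤ v (1 + l * t + a * t ^ 2 + c * t ^ 3)) :
    (v l ≤ 1 ∧ v a ≤ 1 ∧ v c ≤ 1) ∨ (1 < v a ∧ v c < v a ∧ v l ^ 2 ≤ v a) ∨
      (1 < v c ∧ v l ^ 3 ≤ v c ∧ v a ^ 3 ≤ v c ^ 2) := by
  have h0 : ∀ t : K, v t ≤ 1 → 1 + l * t + a * t ^ 2 + c * t ^ 3 ≠ 0 := by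
    intro t ht h1
    have h2 := h t ht
    rw [h1, map_zero] at h2
    exact absurd h2 (not_le.2 zero_lt_one)
  have hi : v l ≤ 1 ∨ v l ^ 2 ≤ v a ∨ v l ^ 3 ≤ v c := by
    by_contra hcon
    push Not at hcon
    obtain ⟨h1, h2, h3⟩ := hcon
    have hl : l ≠ 0 := by
      rintro rfl
      rw [map_zero] at h1
      exact absurd h1 (not_lt.2 zero_le_one)
    obtain ⟨t, ht, ht0⟩ := hen3 hv 1 l a c hl (by rw [map_one]; exact h1.le)
      (by rw [one_mul, map_pow]; exact h2) (by rw [one_pow, one_mul, map_pow]; exact h3)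
    exact h0 t ht ht0
  have hLL : v l ≤ 1 ∨ v l ^ 2 ≤ 1 ∨ v l ^ 3 ≤ 1 → v l ≤ 1 := by
    rintro (h1 | h1 | h1)
    · exact h1
    · exact (pow_le_one_iff (two_ne_zero)).1 h1
    · exact (pow_le_one_iff (three_ne_zero)).1 h1
  rcases le_or_gt (v a ^ 3) (v c ^ 2) with hac | hac
  · rcases le_or_gt (v c) 1 with hc | hc
    · have ha : v a ≤ 1 :=
        (pow_le_one_iff (three_ne_zero)).1 (hac.trans (pow_le_one₀ zero_le hc))
      refine Or.inl ⟨hLL ?_, ha, hc⟩
      rcases hi with h1 | h1 | h1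
      · exact Or.inl h1
      · exact Or.inr (Or.inl (h1.trans ha))
      · exact Or.inr (Or.inr (h1.trans hc))
    · refine Or.inr (Or.inr ⟨hc, ?_, hac⟩)
      rcases hi with h1 | h1 | h1
      · exact (pow_le_one₀ zero_le h1).trans hc.le
      · have h2 : (v l ^ 3) ^ 2 ≤ v c ^ 2 := by
          calc (v l ^ 3) ^ 2 = (v l ^ 2) ^ 3 := by rw [← pow_mul, ← pow_mul]
            _ ≤ v a ^ 3 := pow_le_pow_left₀ zero_le h1 3
            _ ≤ v c ^ 2 := hac
        exact (pow_le_pow_iff_left₀ zero_le zero_le two_ne_zero).1 h2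
      · exact h1
  · rcases le_or_gt (v a) 1 with ha | ha
    · have hc : v c ≤ 1 :=
        (pow_le_one_iff (two_ne_zero)).1 (hac.le.trans (pow_le_one₀ zero_le ha))
      refine Or.inl ⟨hLL ?_, ha, hc⟩
      rcases hi with h1 | h1 | h1
      · exact Or.inl h1
      · exact Or.inr (Or.inl (h1.trans ha))
      · exact Or.inr (Or.inr (h1.trans hc))
    · have hl2 : v l ^ 2 ≤ v a := by
        rcases hi with h1 | h1 | h1
        · exact (pow_le_one₀ zero_le h1).trans ha.le
        · exact h1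
        · have h2 : (v l ^ 2) ^ 3 < v a ^ 3 := by
            calc (v l ^ 2) ^ 3 = (v l ^ 3) ^ 2 := by rw [← pow_mul, ← pow_mul]
              _ ≤ v c ^ 2 := pow_le_pow_left₀ zero_le h1 2
              _ < v a ^ 3 := hac
          exact ((pow_lt_pow_iff_left₀ zero_le zero_le three_ne_zero).1 h2).le
      refine Or.inr (Or.inl ⟨ha, ?_, hl2⟩)
      by_contra hca
      rw [not_lt] at hca
      have ha0 : a ≠ 0 := by
        rintro rfl
        rw [map_zero] at ha
        exact absurd ha (not_lt.2 zero_le_one)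
      have hc0 : c ≠ 0 := by
        rintro rfl
        rw [map_zero] at hca
        exact absurd (ha.trans_le hca) (not_lt.2 zero_le_one)
      have hva : 0 < v a := zero_lt_one.trans ha
      have hvc : 0 < v c := hva.trans_le hca
      have hr : v (a / c) ≤ 1 := by
        rw [map_div₀]
        exact (div_le_one₀ hvc).2 hca
      have he0 : v (c ^ 2 / a ^ 3) < 1 := by
        rw [map_div₀, map_pow, map_pow]
        exact (div_lt_one₀ (pow_pos hva 3)).2 hac
      have he1 : v (l * c / a ^ 2) < 1 := by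
        have h1 : v (l * c / a ^ 2) ^ 2 < 1 := by
          rw [map_div₀, map_mul, map_pow, div_pow, div_lt_one₀ (pow_pos (pow_pos hva 2) 2),
            mul_pow]
          calc v l ^ 2 * v c ^ 2 ≤ v a * v c ^ 2 := mul_le_mul_left hl2 _
            _ < v a * v a ^ 3 := (mul_lt_mul_iff_right₀ hva).2 hac
            _ = (v a ^ 2) ^ 2 := by rw [← pow_mul, ← pow_succ']
        exact (pow_lt_one_iff two_ne_zero).1 h1
      obtain ⟨e0, he0d⟩ : ∃ e0, e0 = c ^ 2 / a ^ 3 := ⟨_, rfl⟩
      obtain ⟨e1, he1d⟩ : ∃ e1, e1 = l * c / a ^ 2 := ⟨_, rfl⟩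
      rw [← he0d] at he0
      rw [← he1d] at he1
      have h11 : v (1 + e1) = 1 := by
        exact Valuation.map_one_add_of_lt v he1
      have hd : v (e0 - e1) < 1 := lt_of_le_of_lt (v.map_sub e0 e1) (max_lt he0 he1)
      have h2v : v (-2 : K) ≤ 1 := by
        rw [Valuation.map_neg]
        have : v ((1 : K) + 1) ≤ 1 := by
          refine (v.map_add _ _).trans ?_
          rw [map_one, max_self]
        rwa [one_add_one_eq_two] at this
      obtain ⟨n, hn, hn0⟩ := hen3 hv (e0 - e1) (1 + e1) (-2) 1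
        (by
          intro h1
          rw [h1, map_zero] at h11
          exact zero_ne_one h11)
        (by rw [h11]; exact hd.le)
        (by
          rw [map_mul, map_pow, h11, one_pow]
          exact lt_of_le_of_lt (mul_le_of_le_one_right' h2v) hd)
        (by
          rw [mul_one, map_pow, map_pow, h11, one_pow]
          exact (pow_lt_one_iff two_ne_zero).2 hd)
      have ht : v (a / c * (n - 1)) ≤ 1 := by
        rw [map_mul]
        refine mul_le_one' hr ((v.map_sub _ _).trans ?_)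
        rw [map_one]
        exact max_le hn le_rfl
      apply h0 _ ht
      have key : 1 + l * (a / c * (n - 1)) + a * (a / c * (n - 1)) ^ 2 +
          c * (a / c * (n - 1)) ^ 3 =
          a ^ 3 / c ^ 2 * (e0 - e1 + (1 + e1) * n + -2 * n ^ 2 + 1 * n ^ 3) := by
        rw [he0d, he1d]
        field_simp
        ring
      rw [key, hn0, mul_zero]
/- END ta -/

/- MODULE tb -/
/-- Module tb. PROOF. If `v l > 1` and `v c < v l ^ q`, `henq` gives a root. So `v l ≤ 1` or
`v l ^ q ≤ v c`. -/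
theorem tyq {v : Valuation K Γ} (hv : Ext v) (p : ℕ) [Fact p.Prime] [CharP K p] (k : ℕ)
    (hk : 0 < k) (l c : K) (h : ∀ t : K, v t ≤ 1 → 1 ≤ v (1 + l * t + c * t ^ (p ^ k))) :
    (v l ≤ 1 ∧ v c ≤ 1) ∨ (1 < v c ∧ v l < v c) := by
  have hq : 1 < p ^ k := Nat.one_lt_pow hk.ne' (Fact.out : p.Prime).one_lt
  rcases le_or_gt (v l) 1 with hl | hl
  · rcases le_or_gt (v c) 1 with hc | hc
    · exact Or.inl ⟨hl, hc⟩
    · exact Or.inr ⟨hc, hl.trans_lt hc⟩
  · rcases lt_or_ge (v c) (v l ^ (p ^ k)) with hc | hc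
    · obtain ⟨t, ht, ht0⟩ := henq hv p k l c hl.le hc
      have h1 := h t ht
      rw [ht0, map_zero] at h1
      exact absurd h1 (not_le.2 zero_lt_one)
    · have h1 : v l < v l ^ (p ^ k) := by
        calc v l = v l ^ 1 := (pow_one _).symm
          _ < v l ^ (p ^ k) := pow_lt_pow_right₀ hl hq
      have h2 := h1.trans_le hc
      exact Or.inr ⟨hl.trans h2, h2⟩

/-- Module tb. PROOF. `mono` in both directions. -/
theorem Crs.eq {v : Valuation K Γ} {om : Valuation K D} (hc : Crs v om) {a b : K}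
    (h : v a = v b) : om a = om b := by
  exact le_antisymm (hc.mono a b h.le) (hc.mono b a h.ge)

/-- Module tb. -/
theorem Crs.lt {v : Valuation K Γ} {om : Valuation K D} (hc : Crs v om) {a b : K}
    (h : om a < om b) : v a < v b := by
  by_contra hcon
  exact absurd (hc.mono b a (not_lt.1 hcon)) (not_le.2 h)

/-- Module tb. -/
theorem Crs.le_one {v : Valuation K Γ} {om : Valuation K D} (hc : Crs v om) {a : K}
    (h : v a ≤ 1) : om a ≤ 1 := by
  have h1 := hc.mono a 1 (by rwa [map_one])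
  rwa [map_one] at h1

/-- Module tb. -/
theorem Crs.one_le {v : Valuation K Γ} {om : Valuation K D} (hc : Crs v om) {a : K}
    (h : 1 ≤ v a) : 1 ≤ om a := by
  have h1 := hc.mono 1 a (by rwa [map_one])
  rwa [map_one] at h1

/-- Module tb. -/
theorem Crs.lt_one {v : Valuation K Γ} {om : Valuation K D} (hc : Crs v om) {a : K}
    (h : om a < 1) : v a < 1 := by
  have h1 := hc.lt (a := a) (b := 1) (by rwa [map_one])
  rwa [map_one] at h1
/- END tb -/

/- MODULE tc -/
/-- Module tc. The three types for the coarse valuation, with the value of the polynomial at `1`.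
PROOF. Take the three cases of `ty3`. First case: all `om` are `≤ 1` and `om (1+l+a+c) ≤ 1`, and
`≥ 1` by `h 1`. Second case: `v (1+l+a+c) = v a` (`v l < v a` since `v l ^ 2 ≤ v a < v a ^ 2`);
apply `om`: `1 ≤ om a`; if `om a = 1` then all are `≤ 1`, first alternative; otherwise the second.
Third case: `v a < v c` since `v a ^ 3 ≤ v c ^ 2 < v c ^ 3`, `v l < v c`, so `v (1+l+a+c) = v c`;
`1 ≤ om c`; if `om c = 1` first alternative, otherwise the third. -/
theorem tyw {v : Valuation K Γ} {om : Valuation K D} (hv : Ext v) (hc : Crs v om) (l a c : K)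
    (h : ∀ t : K, v t ≤ 1 → 1 ≤ v (1 + l * t + a * t ^ 2 + c * t ^ 3)) :
    (om l ≤ 1 ∧ om a ≤ 1 ∧ om c ≤ 1 ∧ om (1 + l + a + c) = 1) ∨
      (1 < om a ∧ om c ≤ om a ∧ om l ^ 2 ≤ om a ∧ om (1 + l + a + c) = om a) ∨
      (1 < om c ∧ om l ^ 3 ≤ om c ∧ om a ^ 3 ≤ om c ^ 2 ∧ om (1 + l + a + c) = om c) := by
  have h1 : 1 ≤ v (1 + l + a + c) := by
    have := h 1 (by rw [map_one])
    simpa using this
  have hLe : v l ^ 2 ≤ v a → om l ^ 2 ≤ om a := by
    intro h2
    have := hc.mono (l ^ 2) a (by rwa [map_pow])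
    rwa [map_pow] at this
  rcases ty3 hv l a c h with ⟨hl, ha, hcc⟩ | ⟨ha, hca, hla⟩ | ⟨hcc, hlc, hac⟩
  · refine Or.inl ⟨hc.le_one hl, hc.le_one ha, hc.le_one hcc, le_antisymm (hc.le_one ?_)
      (hc.one_le h1)⟩
    refine (v.map_add _ _).trans (max_le ((v.map_add _ _).trans (max_le
      ((v.map_add _ _).trans (max_le ?_ hl)) ha)) hcc)
    rw [map_one]
  · have hl : v l < v a := by
      by_contra hcon
      rw [not_lt] at hcon
      have h2 : v a ^ 2 ≤ v a := (pow_le_pow_left₀ zero_le hcon 2).trans hla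
      have h3 : v a < v a ^ 2 := by
        calc v a = v a ^ 1 := (pow_one _).symm
          _ < v a ^ 2 := pow_lt_pow_right₀ ha one_lt_two
      exact absurd h2 (not_le.2 h3)
    have h2 : v (1 + l + a + c) = v a := by
      have h3 : 1 + l + a + c = (1 + l + c) + a := by ring
      rw [h3]
      refine Valuation.map_add_eq_of_lt_right v ?_
      refine lt_of_le_of_lt (v.map_add _ _) (max_lt (lt_of_le_of_lt (v.map_add _ _)
        (max_lt ?_ hl)) hca)
      rw [map_one]
      exact ha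
    have h3 := hc.eq h2
    have h4 : 1 ≤ om a := hc.one_le ha.le
    have h5 : om c ≤ om a := hc.mono c a hca.le
    have h6 := hLe hla
    rcases h4.eq_or_lt with h7 | h7
    · rw [← h7] at h3 h5 h6
      exact Or.inl ⟨(pow_le_one_iff two_ne_zero).1 h6, h7.ge, h5, h3⟩
    · exact Or.inr (Or.inl ⟨h7, h5, h6, h3⟩)
  · have ha : v a < v c := by
      by_contra hcon
      rw [not_lt] at hcon
      have h2 : v c ^ 3 ≤ v c ^ 2 := (pow_le_pow_left₀ zero_le hcon 3).trans hac
      exact absurd h2 (not_le.2 (pow_lt_pow_right₀ hcc (by norm_num)))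
    have hl : v l < v c := by
      by_contra hcon
      rw [not_lt] at hcon
      have h2 : v c ^ 3 ≤ v c := (pow_le_pow_left₀ zero_le hcon 3).trans hlc
      have h3 : v c < v c ^ 3 := by
        calc v c = v c ^ 1 := (pow_one _).symm
          _ < v c ^ 3 := pow_lt_pow_right₀ hcc (by norm_num)
      exact absurd h2 (not_le.2 h3)
    have h2 : v (1 + l + a + c) = v c := by
      refine Valuation.map_add_eq_of_lt_right v ?_
      refine lt_of_le_of_lt (v.map_add _ _) (max_lt (lt_of_le_of_lt (v.map_add _ _)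
        (max_lt ?_ hl)) ha)
      rw [map_one]
      exact hcc
    have h3 := hc.eq h2
    have h4 : 1 ≤ om c := hc.one_le hcc.le
    have h5 : om l ^ 3 ≤ om c := by
      have := hc.mono (l ^ 3) c (by rwa [map_pow])
      rwa [map_pow] at this
    have h6 : om a ^ 3 ≤ om c ^ 2 := by
      have := hc.mono (a ^ 3) (c ^ 2) (by rwa [map_pow, map_pow])
      rwa [map_pow, map_pow] at this
    rcases h4.eq_or_lt with h7 | h7
    · rw [← h7] at h3 h5 h6
      rw [one_pow] at h6
      exact Or.inl ⟨(pow_le_one_iff three_ne_zero).1 h5, (pow_le_one_iff three_ne_zero).1 h6,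
        h7.ge, h3⟩
    · exact Or.inr (Or.inr ⟨h7, h5, h6, h3⟩)
/- END tc -/

end Pool.Agent.Xtr
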